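import Mathlib

/-!
# Second differences of a Lipschitz function at all dyadic scales

For a `1`-Lipschitz function `f` on the integers the number of the `t < N` at which the second difference
`|f (t + 2 ^ k) - 2 f t + f (t - 2 ^ k)|` is at least `d 2 ^ k` for at least `e K` of the `k < K` is at most
`C N exp (- c K)`, `c > 0`.
-/

set_option autoImplicit false

namespace Dsd

open Finset

/-- length of the blocks of level `n` -/
def len (u B n : ℕ) : ℕ := u * B ^ n

/-- slope of `f` on the block of level `n` at `p` -/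
noncomputable def sl (f : ℤ → ℝ) (u B n : ℕ) (p : ℤ) : ℝ := (f (p + len u B n) - f p) / len u B n

/-- the slopes of the `B` children of the block of level `n + 1` at `p` are not nearly equal -/
def Bad (f : ℤ → ℝ) (u B : ℕ) (η : ℝ) (n : ℕ) (p : ℤ) : Prop :=
  η ≤ ∑ i ∈ range B, (sl f u B n (p + i * len u B n) - sl f u B (n + 1) p) ^ 2

open Classical in
/-- number of the levels at which the block of `p + t` is bad or `p + t` is near the boundary -/
noncomputable def U (f : ℤ → ℝ) (u b : ℕ) (η : ℝ) : ℕ → ℤ → ℕ → ℕ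
  | 0, _, _ => 0
  | n + 1, p, t => U f u b η n (p + (t / len u (b * b) n : ℕ) * len u (b * b) n) (t % len u (b * b) n) +
      if Bad f u (b * b) η n p ∨ t / len u (b * b) n < b ∨ b * b ≤ t / len u (b * b) n + b then 1 else 0

theorem len_succ (u B n : ℕ) : len u B (n + 1) = B * len u B n := by
  unfold len
  rw [pow_succ]
  ring

theorem len_pos {u B : ℕ} (hu : 0 < u) (hB : 0 < B) (n : ℕ) : 0 < len u B n :=
  Nat.mul_pos hu (pow_pos hB n)

theorem lip {f : ℤ → ℝ} (hf : ∀ i, |f (i + 1) - f i| ≤ 1) (p : ℤ) (m : ℕ) : |f (p + m) - f p| ≤ m := by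
  induction m with
  | zero => simp
  | succ m ih =>
    have h1 : f (p + ((m + 1 : ℕ) : ℤ)) - f p = (f (p + m + 1) - f (p + m)) + (f (p + m) - f p) := by
      rw [Nat.cast_succ, ← add_assoc]
      ring
    rw [h1, Nat.cast_succ]
    have h2 := abs_add_le (f (p + m + 1) - f (p + m)) (f (p + m) - f p)
    have h3 := hf (p + m)
    linarith

theorem sl_sq {f : ℤ → ℝ} (hf : ∀ i, |f (i + 1) - f i| ≤ 1) {u B : ℕ} (hu : 0 < u) (hB : 0 < B) (n : ℕ) (p : ℤ) :
    sl f u B n p ^ 2 ≤ 1 := by
  have hL : (0 : ℝ) < len u B n := by exact_mod_cast len_pos hu hB n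
  have h1 : |sl f u B n p| ≤ 1 := by
    unfold sl
    rw [abs_div, abs_of_pos hL, div_le_one hL]
    exact lip hf p _
  rw [sq_le_one_iff_abs_le_one]
  exact h1

theorem sl_part {f : ℤ → ℝ} {u B : ℕ} (hu : 0 < u) (hB : 0 < B) (n : ℕ) (p : ℤ) (i : ℕ) :
    ∑ j ∈ range i, sl f u B n (p + j * len u B n) * len u B n = f (p + i * len u B n) - f p := by
  have hL : (len u B n : ℝ) ≠ 0 := by exact_mod_cast (len_pos hu hB n).ne'
  induction i with
  | zero => simp
  | succ i ih =>
    rw [sum_range_succ, ih]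
    unfold sl
    rw [div_mul_cancel₀ _ hL]
    have h1 : p + (i : ℤ) * (len u B n : ℤ) + (len u B n : ℤ) = p + ((i + 1 : ℕ) : ℤ) * (len u B n : ℤ) := by
      push_cast
      ring
    rw [h1]
    ring

theorem sl_sum {f : ℤ → ℝ} {u B : ℕ} (hu : 0 < u) (hB : 0 < B) (n : ℕ) (p : ℤ) :
    ∑ j ∈ range B, sl f u B n (p + j * len u B n) = B * sl f u B (n + 1) p := by
  have hL : (0 : ℝ) < len u B n := by exact_mod_cast len_pos hu hB n
  have hB' : (0 : ℝ) < B := by exact_mod_cast hB
  have h1 := sl_part (f := f) hu hB n p B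
  rw [← sum_mul] at h1
  have h2 : (B : ℝ) * sl f u B (n + 1) p * len u B n = f (p + B * len u B n) - f p := by
    unfold sl
    rw [len_succ]
    push_cast
    field_simp
  have h3 := h1.trans h2.symm
  exact mul_right_cancel₀ hL.ne' h3

theorem var_sum {f : ℤ → ℝ} {u B : ℕ} (hu : 0 < u) (hB : 0 < B) (n : ℕ) (p : ℤ) :
    ∑ i ∈ range B, (2 - sl f u B n (p + i * len u B n) ^ 2) = B * (2 - sl f u B (n + 1) p ^ 2) -
      ∑ i ∈ range B, (sl f u B n (p + i * len u B n) - sl f u B (n + 1) p) ^ 2 := by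
  have h1 := sl_sum (f := f) hu hB n p
  have h2 : ∑ i ∈ range B, (sl f u B n (p + i * len u B n) - sl f u B (n + 1) p) ^ 2 =
      ∑ i ∈ range B, sl f u B n (p + i * len u B n) ^ 2 -
        2 * sl f u B (n + 1) p * ∑ i ∈ range B, sl f u B n (p + i * len u B n) + B * sl f u B (n + 1) p ^ 2 := by
    rw [mul_sum, ← sum_sub_distrib]
    have h3 : (B : ℝ) * sl f u B (n + 1) p ^ 2 = ∑ i ∈ range B, sl f u B (n + 1) p ^ 2 := by
      rw [sum_const, card_range, nsmul_eq_mul]
    rw [h3, ← sum_add_distrib]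
    exact sum_congr rfl fun i _ => by ring
  rw [h2, h1, sum_sub_distrib, sum_const, card_range, nsmul_eq_mul]
  ring

theorem sum_blocks (B L : ℕ) (hL : 0 < L) (F : ℕ → ℕ → ℝ) :
    ∑ t ∈ range (B * L), F (t / L) (t % L) = ∑ i ∈ range B, ∑ t ∈ range L, F i t := by
  induction B with
  | zero => simp
  | succ B ih =>
    rw [Nat.succ_mul, sum_range_add, ih, sum_range_succ]
    congr 1
    refine sum_congr rfl fun t ht => ?_
    have h1 : t < L := mem_range.1 ht
    rw [mul_comm B L, Nat.mul_add_div hL, Nat.div_eq_of_lt h1, Nat.mul_add_mod, Nat.mod_eq_of_lt h1, add_zero]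

theorem main_block {f : ℤ → ℝ} (hf : ∀ i, |f (i + 1) - f i| ≤ 1) {u b : ℕ} (hu : 0 < u) (hb : 0 < b) {η : ℝ}
    (hη : 0 ≤ η) (n : ℕ) : ∀ p : ℤ, ∑ t ∈ range (len u (b * b) n), (1 + η / (4 * (b * b))) ^ (U f u b η n p t) ≤
      len u (b * b) n * (1 + 4 * (η / (4 * (b * b))) / b) ^ n * (2 - sl f u (b * b) n p ^ 2) := by
  classical
  have hB : 0 < b * b := Nat.mul_pos hb hb
  have hb' : (0 : ℝ) < b := by exact_mod_cast hb
  set l : ℝ := η / (4 * (b * b)) with hl
  have hl0 : 0 ≤ l := by positivity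
  have hηl : η = 4 * (b * b) * l := by
    rw [hl]
    field_simp
  induction n with
  | zero =>
    intro p
    have h1 := sl_sq hf hu hB 0 p
    have h2 : (0 : ℝ) ≤ len u (b * b) 0 := Nat.cast_nonneg _
    simp only [U, pow_zero, sum_const, card_range, nsmul_eq_mul, mul_one]
    nlinarith
  | succ n ih =>
    intro p
    have hL := len_pos hu hB n
    have hL' : (0 : ℝ) < len u (b * b) n := by exact_mod_cast hL
    have hk : (1 : ℝ) ≤ (1 + 4 * l / b) ^ n := one_le_pow₀ (by
      have : 0 ≤ 4 * l / b := by positivity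
      linarith)
    have hx := sl_sq hf hu hB (n + 1) p
    have hx0 := sq_nonneg (sl f u (b * b) (n + 1) p)
    have hG0 : ∀ i : ℕ, 0 ≤ ∑ t ∈ range (len u (b * b) n),
        (1 + l) ^ (U f u b η n (p + (i : ℤ) * len u (b * b) n) t) := fun i =>
      sum_nonneg fun t _ => by positivity
    have hsum : ∑ t ∈ range (len u (b * b) (n + 1)), (1 + l) ^ (U f u b η (n + 1) p t) =
        ∑ i ∈ range (b * b), (if Bad f u (b * b) η n p ∨ i < b ∨ b * b ≤ i + b then (1 + l) else 1) *
          ∑ t ∈ range (len u (b * b) n), (1 + l) ^ (U f u b η n (p + (i : ℤ) * len u (b * b) n) t) := by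
      rw [len_succ]
      have h1 := sum_blocks (b * b) (len u (b * b) n) hL (fun i t =>
        (1 + l) ^ (U f u b η n (p + (i : ℤ) * len u (b * b) n) t +
          if Bad f u (b * b) η n p ∨ i < b ∨ b * b ≤ i + b then 1 else 0))
      rw [show ∑ t ∈ range (b * b * len u (b * b) n), (1 + l) ^ (U f u b η (n + 1) p t) = _ from h1]
      refine sum_congr rfl fun i _ => ?_
      rw [mul_sum]
      refine sum_congr rfl fun t _ => ?_
      rw [pow_add, mul_comm]
      congr 1
      split_ifs <;> simp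
    have hV := var_sum (f := f) hu hB n p
    have hIH : ∑ i ∈ range (b * b), ∑ t ∈ range (len u (b * b) n),
        (1 + l) ^ (U f u b η n (p + (i : ℤ) * len u (b * b) n) t) ≤
        len u (b * b) n * (1 + 4 * l / b) ^ n * ∑ i ∈ range (b * b), (2 - sl f u (b * b) n (p + i * len u (b * b) n) ^ 2) := by
      rw [mul_sum]
      exact sum_le_sum fun i _ => ih _
    rw [hsum]
    rw [hV] at hIH
    have hlen : (len u (b * b) (n + 1) : ℝ) = (b * b) * len u (b * b) n := by
      rw [len_succ]
      push_cast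
      ring
    rw [hlen, pow_succ]
    set G : ℕ → ℝ := fun i => ∑ t ∈ range (len u (b * b) n),
        (1 + l) ^ (U f u b η n (p + (i : ℤ) * len u (b * b) n) t) with hG
    set y : ℝ := 2 - sl f u (b * b) (n + 1) p ^ 2 with hy
    have hy1 : 1 ≤ y := by rw [hy]; linarith
    have hy2 : y ≤ 2 := by rw [hy]; linarith
    set A : ℝ := len u (b * b) n * (1 + 4 * l / b) ^ n with hA
    have hA0 : 0 < A := by positivity
    have hbb : (((b * b : ℕ) : ℝ)) = b * b := by push_cast; ring
    rw [hbb] at hIH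
    have hgoal : (b : ℝ) * b * (len u (b * b) n) * ((1 + 4 * l / b) ^ n * (1 + 4 * l / b)) * y =
        A * (b * b * y + 4 * b * l * y) := by
      rw [hA]
      field_simp
    rw [hgoal]
    by_cases hbad : Bad f u (b * b) η n p
    · have h1 : ∀ i ∈ range (b * b), (if Bad f u (b * b) η n p ∨ i < b ∨ b * b ≤ i + b then (1 + l) else 1) * G i =
          (1 + l) * G i := by
        intro i _
        rw [if_pos (Or.inl hbad)]
      rw [sum_congr rfl h1, ← mul_sum]
      have h2 : η ≤ ∑ i ∈ range (b * b), (sl f u (b * b) n (p + i * len u (b * b) n) - sl f u (b * b) (n + 1) p) ^ 2 := hbad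
      have h3 : ∑ i ∈ range (b * b), G i ≤ A * (b * b * y - η) := by
        refine hIH.trans ?_
        exact mul_le_mul_of_nonneg_left (by linarith) hA0.le
      calc (1 + l) * ∑ i ∈ range (b * b), G i ≤ (1 + l) * (A * (b * b * y - η)) :=
            mul_le_mul_of_nonneg_left h3 (by linarith)
        _ = A * ((1 + l) * (b * b * y - η)) := by ring
        _ ≤ A * (b * b * y + 4 * b * l * y) := by
          refine mul_le_mul_of_nonneg_left ?_ hA0.le
          rw [hηl]
          have h4 : 0 ≤ (b : ℝ) * b * l := by positivity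
          have h5 : 0 ≤ (b : ℝ) * b * l * l := by positivity
          have h6 : 0 ≤ (b : ℝ) * l * y := by positivity
          nlinarith
    · have h1 : ∀ i ∈ range (b * b), (if Bad f u (b * b) η n p ∨ i < b ∨ b * b ≤ i + b then (1 + l) else 1) * G i ≤
          G i + if i < b ∨ b * b ≤ i + b then l * (2 * A) else 0 := by
        intro i _
        by_cases h : i < b ∨ b * b ≤ i + b
        · rw [if_pos (Or.inr h), if_pos h]
          have h2 : G i ≤ 2 * A := by
            refine (ih _).trans ?_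
            have h3 := sq_nonneg (sl f u (b * b) n (p + (i : ℤ) * len u (b * b) n))
            rw [mul_comm 2 A]
            exact mul_le_mul_of_nonneg_left (by linarith) hA0.le
          have h4 : l * G i ≤ l * (2 * A) := mul_le_mul_of_nonneg_left h2 hl0
          linarith
        · rw [if_neg h, if_neg (by
            rintro (h' | h')
            · exact hbad h'
            · exact h h')]
          linarith
      refine (sum_le_sum h1).trans ?_
      rw [sum_add_distrib, ← sum_filter, sum_const, nsmul_eq_mul]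
      have hcard : (((range (b * b)).filter fun i => i < b ∨ b * b ≤ i + b).card : ℝ) ≤ 2 * b := by
        have h2 : (range (b * b)).filter (fun i => i < b ∨ b * b ≤ i + b) ⊆ range b ∪ Finset.Ico (b * b - b) (b * b) := by
          intro i hi
          rw [mem_filter, mem_range] at hi
          rw [mem_union, mem_range, mem_Ico]
          omega
        have h3 := (card_le_card h2).trans (card_union_le _ _)
        rw [card_range, Nat.card_Ico] at h3
        have h4 : ((range (b * b)).filter fun i => i < b ∨ b * b ≤ i + b).card ≤ 2 * b := by omega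
        exact_mod_cast h4
      have h5 : 0 ≤ ∑ i ∈ range (b * b), (sl f u (b * b) n (p + i * len u (b * b) n) - sl f u (b * b) (n + 1) p) ^ 2 :=
        sum_nonneg fun i _ => sq_nonneg _
      have h6 : ∑ i ∈ range (b * b), G i ≤ A * (b * b * y) :=
        hIH.trans (mul_le_mul_of_nonneg_left (by linarith) hA0.le)
      have h7 : (((range (b * b)).filter fun i => i < b ∨ b * b ≤ i + b).card : ℝ) * (l * (2 * A)) ≤ 2 * b * (l * (2 * A)) :=
        mul_le_mul_of_nonneg_right hcard (by positivity)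
      have h8 : 2 * (b : ℝ) * (l * (2 * A)) ≤ A * (4 * b * l * y) := by
        have h9 : 0 ≤ A * (b * l) := by positivity
        nlinarith
      linarith

theorem dev {f : ℤ → ℝ} (hf : ∀ i, |f (i + 1) - f i| ≤ 1) {u B : ℕ} (hu : 0 < u) (hB : 0 < B) {η h : ℝ}
    (hh : 0 ≤ h) (hηh : η * B ≤ h ^ 2) {n : ℕ} {p : ℤ} (hbad : ¬ Bad f u B η n p) {m : ℕ}
    (hm : m ≤ len u B (n + 1)) : |f (p + m) - f p - sl f u B (n + 1) p * m| ≤ (h + 2) * len u B n := by
  have hL := len_pos hu hB n
  have hL' : (0 : ℝ) < len u B n := by exact_mod_cast hL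
  have hBr : (0 : ℝ) < B := by exact_mod_cast hB
  set x := sl f u B (n + 1) p with hx
  have hx1 : |x| ≤ 1 := by
    have := sl_sq hf hu hB (n + 1) p
    rwa [sq_le_one_iff_abs_le_one] at this
  set i := m / len u B n with hi
  have hiB : i ≤ B := by
    rw [hi]
    apply Nat.div_le_of_le_mul
    rw [len_succ] at hm
    rwa [mul_comm]
  have hmi : m = i * len u B n + m % len u B n := by
    rw [hi]
    exact (Nat.div_add_mod' m _).symm
  have hr : m % len u B n < len u B n := Nat.mod_lt _ hL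
  -- the deviation at the boundary of the child
  have h1 : f (p + i * len u B n) - f p - x * (i * len u B n) =
      (∑ j ∈ range i, (sl f u B n (p + j * len u B n) - x)) * len u B n := by
    rw [← sl_part hu hB n p i, sum_sub_distrib, sum_const, card_range, nsmul_eq_mul, sub_mul, sum_mul]
    ring
  have h2 : |∑ j ∈ range i, (sl f u B n (p + j * len u B n) - x)| ≤ h := by
    apply abs_le_of_sq_le_sq _ hh
    have h3 := sq_sum_le_card_mul_sum_sq (s := range i) (f := fun j : ℕ => sl f u B n (p + j * len u B n) - x)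
    rw [card_range] at h3
    have h4 : ∑ j ∈ range i, (sl f u B n (p + j * len u B n) - x) ^ 2 ≤
        ∑ j ∈ range B, (sl f u B n (p + j * len u B n) - x) ^ 2 :=
      sum_le_sum_of_subset_of_nonneg (range_mono hiB) fun _ _ _ => sq_nonneg _
    have h5 : ∑ j ∈ range B, (sl f u B n (p + j * len u B n) - x) ^ 2 < η := not_le.1 hbad
    have h6 : (i : ℝ) ≤ B := by exact_mod_cast hiB
    have h7 : (0 : ℝ) ≤ ∑ j ∈ range i, (sl f u B n (p + j * len u B n) - x) ^ 2 := sum_nonneg fun _ _ => sq_nonneg _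
    calc (∑ j ∈ range i, (sl f u B n (p + j * len u B n) - x)) ^ 2
        ≤ i * ∑ j ∈ range i, (sl f u B n (p + j * len u B n) - x) ^ 2 := h3
      _ ≤ B * η := mul_le_mul h6 (h4.trans h5.le) h7 hBr.le
      _ ≤ h ^ 2 := by rwa [mul_comm]
  have h3 : |f (p + i * len u B n) - f p - x * (i * len u B n)| ≤ h * len u B n := by
    rw [h1, abs_mul, abs_of_pos hL']
    exact mul_le_mul_of_nonneg_right h2 hL'.le
  have h4 : f (p + m) - f p - x * m = (f (p + i * len u B n) - f p - x * (i * len u B n)) +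
      ((f (p + i * len u B n + (m % len u B n : ℕ)) - f (p + i * len u B n)) - x * (m % len u B n : ℕ)) := by
    have h5 : (m : ℤ) = i * len u B n + (m % len u B n : ℕ) := by exact_mod_cast hmi
    have h6 : (m : ℝ) = i * len u B n + (m % len u B n : ℕ) := by exact_mod_cast hmi
    have h7 : p + (m : ℤ) = p + i * len u B n + (m % len u B n : ℕ) := by
      rw [h5]
      push_cast
      ring
    rw [h7]
    rw [show x * (m : ℝ) = x * (i * len u B n + (m % len u B n : ℕ)) by rw [← h6]]
    ring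
  have h5 : |(f (p + i * len u B n + (m % len u B n : ℕ)) - f (p + i * len u B n)) - x * (m % len u B n : ℕ)| ≤
      2 * len u B n := by
    have h6 := lip hf (p + i * len u B n) (m % len u B n)
    have h7 : |x * (m % len u B n : ℕ)| ≤ 1 * (m % len u B n : ℕ) := by
      rw [abs_mul, abs_of_nonneg (Nat.cast_nonneg (α := ℝ) _)]
      exact mul_le_mul_of_nonneg_right hx1 (Nat.cast_nonneg _)
    have h8 : ((m % len u B n : ℕ) : ℝ) ≤ len u B n := by exact_mod_cast hr.le
    have h9 := abs_sub (f (p + i * len u B n + (m % len u B n : ℕ)) - f (p + i * len u B n)) (x * (m % len u B n : ℕ))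
    linarith
  rw [h4]
  have h6 := abs_add_le (f (p + i * len u B n) - f p - x * (i * len u B n))
    ((f (p + i * len u B n + (m % len u B n : ℕ)) - f (p + i * len u B n)) - x * (m % len u B n : ℕ))
  linarith

theorem level {f : ℤ → ℝ} (hf : ∀ i, |f (i + 1) - f i| ≤ 1) {u b : ℕ} (hu : 0 < u) (hb : 0 < b) {η h d : ℝ}
    (hh : 0 ≤ h) (hηh : η * (b * b : ℕ) ≤ h ^ 2) (hd : 4 * (h + 2) < d * b) {n : ℕ} {p : ℤ}
    (hbad : ¬ Bad f u (b * b) η n p) {t : ℕ} (h1 : ¬ t / len u (b * b) n < b)
    (h2 : ¬ b * b ≤ t / len u (b * b) n + b) :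
    ¬ d * (b * len u (b * b) n : ℕ) ≤ |f (p + t + (b * len u (b * b) n : ℕ)) - 2 * f (p + t) +
      f (p + t - (b * len u (b * b) n : ℕ))| := by
  have hB : 0 < b * b := Nat.mul_pos hb hb
  have hL := len_pos hu hB n
  have hL' : (0 : ℝ) < len u (b * b) n := by exact_mod_cast hL
  set L := len u (b * b) n with hLdef
  have hle : b * L ≤ t := by
    have := (Nat.le_div_iff_mul_le hL).1 (not_lt.1 h1)
    exact this
  have hlt : t + b * L ≤ b * b * L := by
    have h3 : t / L + 1 + b ≤ b * b := by omega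
    have h4 : t < (t / L + 1) * L := by
      have h5 := Nat.div_add_mod' t L
      have h6 := Nat.mod_lt t hL
      rw [Nat.add_mul, one_mul]
      omega
    calc t + b * L ≤ (t / L + 1) * L + b * L := by omega
      _ = (t / L + 1 + b) * L := by ring
      _ ≤ b * b * L := Nat.mul_le_mul_right _ h3
  have hlen : len u (b * b) (n + 1) = b * b * L := len_succ _ _ _
  have e1 := dev hf hu hB hh hηh hbad (m := t + b * L) (by rw [hlen]; exact hlt)
  have e2 := dev hf hu hB hh hηh hbad (m := t) (by rw [hlen]; omega)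
  have e3 := dev hf hu hB hh hηh hbad (m := t - b * L) (by rw [hlen]; omega)
  rw [← hLdef] at e1 e2 e3
  have c1 : p + ((t + b * L : ℕ) : ℤ) = p + t + (b * L : ℕ) := by push_cast; ring
  have c3 : p + ((t - b * L : ℕ) : ℤ) = p + t - (b * L : ℕ) := by
    rw [Nat.cast_sub hle]
    ring
  have r1 : ((t + b * L : ℕ) : ℝ) = t + (b * L : ℕ) := by push_cast; ring
  have r3 : ((t - b * L : ℕ) : ℝ) = t - (b * L : ℕ) := Nat.cast_sub hle
  rw [c1, r1] at e1
  rw [c3, r3] at e3
  rw [not_le]
  have key : |f (p + t + (b * L : ℕ)) - 2 * f (p + t) + f (p + t - (b * L : ℕ))| ≤ 4 * ((h + 2) * L) := by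
    rw [abs_le] at e1 e2 e3 ⊢
    constructor <;> nlinarith [e1.1, e1.2, e2.1, e2.2, e3.1, e3.2]
  refine key.trans_lt ?_
  have h5 : ((b * L : ℕ) : ℝ) = b * L := by push_cast; ring
  rw [h5]
  nlinarith

theorem cnt_le {f : ℤ → ℝ} (hf : ∀ i, |f (i + 1) - f i| ≤ 1) {u b : ℕ} (hu : 0 < u) (hb : 0 < b) {η h d : ℝ}
    (hh : 0 ≤ h) (hηh : η * (b * b : ℕ) ≤ h ^ 2) (hd : 4 * (h + 2) < d * b) (n : ℕ) : ∀ (p : ℤ) (t : ℕ),
    ((range n).filter fun j => d * (b * len u (b * b) j : ℕ) ≤ |f (p + t + (b * len u (b * b) j : ℕ)) - 2 * f (p + t) +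
      f (p + t - (b * len u (b * b) j : ℕ))|).card ≤ U f u b η n p t := by
  classical
  induction n with
  | zero =>
    intro p t
    simp
  | succ n ih =>
    intro p t
    rw [range_add_one, filter_insert]
    have h1 := ih (p + (t / len u (b * b) n : ℕ) * len u (b * b) n) (t % len u (b * b) n)
    have h2 : p + (t / len u (b * b) n : ℕ) * len u (b * b) n + (t % len u (b * b) n : ℕ) = p + (t : ℤ) := by
      have h3 : ((t / len u (b * b) n * len u (b * b) n + t % len u (b * b) n : ℕ) : ℤ) = t :=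
        congrArg _ (Nat.div_add_mod' t _)
      rw [← h3]
      push_cast
      ring
    rw [h2] at h1
    have hU : U f u b η (n + 1) p t = U f u b η n (p + (t / len u (b * b) n : ℕ) * len u (b * b) n) (t % len u (b * b) n) +
      if Bad f u (b * b) η n p ∨ t / len u (b * b) n < b ∨ b * b ≤ t / len u (b * b) n + b then 1 else 0 := rfl
    rw [hU]
    by_cases hc : Bad f u (b * b) η n p ∨ t / len u (b * b) n < b ∨ b * b ≤ t / len u (b * b) n + b
    · rw [if_pos hc]
      split_ifs
      · exact (card_insert_le _ _).trans (Nat.add_le_add_right h1 1)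
      · exact h1.trans (Nat.le_succ _)
    · rw [if_neg hc]
      have h4 : ¬ Bad f u (b * b) η n p := fun h => hc (Or.inl h)
      have h5 : ¬ t / len u (b * b) n < b := fun h => hc (Or.inr (Or.inl h))
      have h6 : ¬ b * b ≤ t / len u (b * b) n + b := fun h => hc (Or.inr (Or.inr h))
      rw [if_neg (level hf hu hb hh hηh hd h4 h5 h6)]
      exact h1

/-- the bound for the scales `b * u * (b * b) ^ j`, `j < J` -/
theorem family {f : ℤ → ℝ} (hf : ∀ i, |f (i + 1) - f i| ≤ 1) {u b : ℕ} (hu : 0 < u) (hb : 0 < b) {d : ℝ}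
    (hd : 0 < d) (hdb : 16 < d * b) (J N s : ℕ) :
    (((range N).filter fun t : ℕ => s ≤ ((range J).filter fun j =>
      d * (b * len u (b * b) j : ℕ) ≤ |f (t + (b * len u (b * b) j : ℕ)) - 2 * f t +
        f (t - (b * len u (b * b) j : ℕ))|).card).card : ℝ) * (1 + d ^ 2 / (256 * (b * b))) ^ s ≤
      2 * (N + len u (b * b) J) * (1 + 4 * (d ^ 2 / (256 * (b * b))) / b) ^ J := by
  classical
  have hB : 0 < b * b := Nat.mul_pos hb hb
  have hbr : (0 : ℝ) < b := by exact_mod_cast hb
  have hL := len_pos hu hB J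
  set L := len u (b * b) J with hLdef
  have hLr : (0 : ℝ) < L := by exact_mod_cast hL
  set l : ℝ := d ^ 2 / (256 * (b * b)) with hl
  have hl0 : 0 ≤ l := by positivity
  -- parameters of the main lemma
  have hη : (d ^ 2 / 64) / (4 * (b * b)) = l := by
    rw [hl]
    field_simp
    norm_num
  have hh : (0 : ℝ) ≤ d * b / 8 := by positivity
  have hηh : d ^ 2 / 64 * ((b * b : ℕ) : ℝ) ≤ (d * b / 8) ^ 2 := by
    push_cast
    nlinarith
  have hd' : 4 * (d * b / 8 + 2) < d * b := by linarith
  set W : ℕ → Prop := fun t => s ≤ ((range J).filter fun j =>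
      d * (b * len u (b * b) j : ℕ) ≤ |f (t + (b * len u (b * b) j : ℕ)) - 2 * f t +
        f (t - (b * len u (b * b) j : ℕ))|).card with hW
  set M := N / L + 1 with hM
  have hNM : N ≤ M * L := by
    rw [hM, Nat.add_mul, one_mul]
    have h5 := Nat.div_add_mod' N L
    have h6 := Nat.mod_lt N hL
    omega
  have hML : M * L ≤ N + L := by
    rw [hM, Nat.add_mul, one_mul]
    have h5 := Nat.div_mul_le_self N L
    omega
  have h1 : ∀ i : ℕ, ∑ t ∈ range L, (if W (i * L + t) then (1 + l) ^ s else 0) ≤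
      2 * L * (1 + 4 * l / b) ^ J := by
    intro i
    have h2 := main_block hf hu hb (η := d ^ 2 / 64) (by positivity) J ((i : ℤ) * L)
    rw [hη, ← hLdef] at h2
    have h3 : ∑ t ∈ range L, (if W (i * L + t) then (1 + l) ^ s else 0) ≤
        ∑ t ∈ range L, (1 + l) ^ (U f u b (d ^ 2 / 64) J ((i : ℤ) * L) t) := by
      refine sum_le_sum fun t _ => ?_
      split_ifs with h4
      · refine pow_le_pow_right₀ (by linarith) ?_
        refine le_trans h4 ?_
        have h5 := cnt_le hf hu hb hh hηh hd' J ((i : ℤ) * L) t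
        refine le_trans (le_of_eq ?_) h5
        have h6 : (((i * L + t : ℕ) : ℤ)) = (i : ℤ) * L + t := by push_cast; ring
        rw [h6]
      · positivity
    have h7 := sq_nonneg (sl f u (b * b) J ((i : ℤ) * L))
    have h8 : (0 : ℝ) ≤ L * (1 + 4 * l / b) ^ J := by positivity
    nlinarith
  have h9 : (((range N).filter W).card : ℝ) * (1 + l) ^ s = ∑ t ∈ range N, if W t then (1 + l) ^ s else 0 := by
    rw [← sum_filter, sum_const, nsmul_eq_mul]
  have h10 : ∑ t ∈ range N, (if W t then (1 + l) ^ s else 0) ≤ ∑ t ∈ range (M * L), if W t then (1 + l) ^ s else 0 := by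
    refine sum_le_sum_of_subset_of_nonneg (range_mono hNM) fun t _ _ => ?_
    split_ifs
    · positivity
    · exact le_rfl
  have h11 : ∑ t ∈ range (M * L), (if W t then (1 + l) ^ s else 0) =
      ∑ i ∈ range M, ∑ t ∈ range L, if W (i * L + t) then (1 + l) ^ s else 0 := by
    rw [← sum_blocks M L hL (fun i t => if W (i * L + t) then (1 + l) ^ s else 0)]
    refine sum_congr rfl fun t _ => ?_
    rw [Nat.div_add_mod' t L]
  have h12 : ∑ i ∈ range M, ∑ t ∈ range L, (if W (i * L + t) then (1 + l) ^ s else 0) ≤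
      M * (2 * L * (1 + 4 * l / b) ^ J) := by
    refine (sum_le_sum fun i _ => h1 i).trans (le_of_eq ?_)
    rw [sum_const, card_range, nsmul_eq_mul]
  have h13 : (M : ℝ) * (2 * L * (1 + 4 * l / b) ^ J) ≤ 2 * (N + L) * (1 + 4 * l / b) ^ J := by
    have h14 : (M : ℝ) * L ≤ N + L := by exact_mod_cast hML
    have h15 : (0 : ℝ) ≤ (1 + 4 * l / b) ^ J := by positivity
    nlinarith
  rw [h9]
  linarith

/-- the count for `d ≤ 1` replaced by any `d > 0` and natural thresholds -/
theorem residues {f : ℤ → ℝ} (hf : ∀ i, |f (i + 1) - f i| ≤ 1) {r : ℕ} (hr : 0 < r) {d : ℝ}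
    (hd : 0 < d) (hdb : 16 < d * 2 ^ r) (K N s : ℕ) (hN : 2 ^ K ≤ N) :
    (((range N).filter fun t : ℕ => r + 2 * r * s ≤ ((range K).filter fun k =>
      d * 2 ^ k ≤ |f (t + 2 ^ k) - 2 * f t + f (t - 2 ^ k)|).card).card : ℝ) *
        (1 + d ^ 2 / (256 * (2 ^ r * 2 ^ r))) ^ s ≤
      2 * r * (2 * (1 + 2 ^ (4 * r)) * N) * (1 + 4 * (d ^ 2 / (256 * (2 ^ r * 2 ^ r))) / 2 ^ r) ^ (K / (2 * r) + 1) := by
  classical
  set l : ℝ := d ^ 2 / (256 * (2 ^ r * 2 ^ r)) with hl
  have hl0 : 0 ≤ l := by positivity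
  set P : ℕ → ℕ → Prop := fun t k => d * 2 ^ k ≤ |f (t + 2 ^ k) - 2 * f t + f (t - 2 ^ k)| with hP
  set J := K / (2 * r) + 1 with hJ
  -- the scale `a + r + 2 r j`
  have hscale : ∀ a j : ℕ, 2 ^ r * len (2 ^ a) (2 ^ r * 2 ^ r) j = 2 ^ (a + r + 2 * r * j) := by
    intro a j
    unfold len
    rw [← pow_add, ← pow_mul, ← pow_add, ← pow_add]
    congr 1
    ring
  have hlenJ : ∀ a : ℕ, a < 2 * r → len (2 ^ a) (2 ^ r * 2 ^ r) J ≤ 2 ^ (4 * r) * N := by
    intro a ha
    have h1 : len (2 ^ a) (2 ^ r * 2 ^ r) J = 2 ^ (a + 2 * r * J) := by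
      unfold len
      rw [← pow_add, ← pow_mul, ← pow_add]
      congr 1
      ring
    rw [h1]
    have h2 : 2 * r * J ≤ K + 2 * r := by
      rw [hJ, Nat.mul_add, Nat.mul_one]
      have := Nat.mul_div_le K (2 * r)
      omega
    calc 2 ^ (a + 2 * r * J) ≤ 2 ^ (4 * r + K) := Nat.pow_le_pow_right (by norm_num) (by omega)
      _ = 2 ^ (4 * r) * 2 ^ K := pow_add _ _ _
      _ ≤ 2 ^ (4 * r) * N := Nat.mul_le_mul_left _ hN
  -- pigeonhole
  have hpig : ∀ t : ℕ, r + 2 * r * s ≤ ((range K).filter (P t)).card →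
      ∃ a ∈ range (2 * r), s ≤ ((range J).filter fun j => P t (a + r + 2 * r * j)).card := by
    intro t ht
    by_contra hcon
    push Not at hcon
    have h1 : (range K).filter (P t) ⊆ range r ∪ (range (2 * r)).biUnion fun a =>
        ((range J).filter fun j => P t (a + r + 2 * r * j)).image fun j => a + r + 2 * r * j := by
      intro k hk
      rw [mem_filter, mem_range] at hk
      rw [mem_union]
      by_cases hkr : k < r
      · exact Or.inl (mem_range.2 hkr)
      · refine Or.inr (mem_biUnion.2 ⟨(k - r) % (2 * r), mem_range.2 (Nat.mod_lt _ (by omega)), ?_⟩)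
        have h2 : (k - r) % (2 * r) + r + 2 * r * ((k - r) / (2 * r)) = k := by
          have := Nat.mod_add_div (k - r) (2 * r)
          omega
        refine mem_image.2 ⟨(k - r) / (2 * r), mem_filter.2 ⟨mem_range.2 ?_, ?_⟩, h2⟩
        · rw [hJ]
          exact Nat.lt_succ_of_le (Nat.div_le_div_right (by omega))
        · rw [h2]
          exact hk.2
    have h2 := (card_le_card h1).trans (card_union_le _ _)
    rw [card_range] at h2
    have h3 : ((range (2 * r)).biUnion fun a =>
        ((range J).filter fun j => P t (a + r + 2 * r * j)).image fun j => a + r + 2 * r * j).card < 2 * r * s := by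
      refine lt_of_le_of_lt card_biUnion_le ?_
      have h4 : ∑ a ∈ range (2 * r), (((range J).filter fun j => P t (a + r + 2 * r * j)).image fun j => a + r + 2 * r * j).card
          < ∑ a ∈ range (2 * r), s := by
        refine sum_lt_sum_of_nonempty ⟨0, mem_range.2 (by omega)⟩ fun a ha => ?_
        exact lt_of_le_of_lt card_image_le (hcon a ha)
      rwa [sum_const, card_range, smul_eq_mul] at h4
    omega
  have h1 : ((range N).filter fun t : ℕ => r + 2 * r * s ≤ ((range K).filter (P t)).card) ⊆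
      (range (2 * r)).biUnion fun a => (range N).filter fun t : ℕ => s ≤ ((range J).filter fun j => P t (a + r + 2 * r * j)).card := by
    intro t ht
    rw [mem_filter] at ht
    obtain ⟨a, ha, h⟩ := hpig t ht.2
    exact mem_biUnion.2 ⟨a, ha, mem_filter.2 ⟨ht.1, h⟩⟩
  have h2 : ∀ a ∈ range (2 * r), (((range N).filter fun t : ℕ => s ≤ ((range J).filter fun j => P t (a + r + 2 * r * j)).card).card : ℝ) *
      (1 + l) ^ s ≤ (2 * (1 + 2 ^ (4 * r)) * N) * (1 + 4 * l / 2 ^ r) ^ J := by
    intro a ha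
    have h3 := family hf (u := 2 ^ a) (b := 2 ^ r) (pow_pos (by norm_num) a) (pow_pos (by norm_num) r) hd
      (by push_cast; exact hdb) J N s
    push_cast at h3
    have h4 : ((range N).filter fun t : ℕ => s ≤ ((range J).filter fun j => P t (a + r + 2 * r * j)).card) =
        (range N).filter fun t : ℕ => s ≤ ((range J).filter fun j =>
          d * (2 ^ r * (len (2 ^ a) (2 ^ r * 2 ^ r) j : ℝ)) ≤ |f (t + 2 ^ r * (len (2 ^ a) (2 ^ r * 2 ^ r) j : ℤ)) - 2 * f t +
            f (t - 2 ^ r * (len (2 ^ a) (2 ^ r * 2 ^ r) j : ℤ))|).card := by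
      refine filter_congr fun t _ => ?_
      have h5 : ∀ j, (2 : ℝ) ^ (a + r + 2 * r * j) = 2 ^ r * (len (2 ^ a) (2 ^ r * 2 ^ r) j : ℝ) := by
        intro j
        have := hscale a j
        have h6 : ((2 ^ r * len (2 ^ a) (2 ^ r * 2 ^ r) j : ℕ) : ℝ) = ((2 ^ (a + r + 2 * r * j) : ℕ) : ℝ) := congrArg _ this
        push_cast at h6
        exact h6.symm
      have h5' : ∀ j, (2 : ℤ) ^ (a + r + 2 * r * j) = 2 ^ r * (len (2 ^ a) (2 ^ r * 2 ^ r) j : ℤ) := by
        intro j
        have := hscale a j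
        have h6 : ((2 ^ r * len (2 ^ a) (2 ^ r * 2 ^ r) j : ℕ) : ℤ) = ((2 ^ (a + r + 2 * r * j) : ℕ) : ℤ) := congrArg _ this
        push_cast at h6
        exact h6.symm
      simp only [hP, h5, h5']
    rw [h4]
    refine h3.trans ?_
    have h7 : ((len (2 ^ a) (2 ^ r * 2 ^ r) J : ℕ) : ℝ) ≤ 2 ^ (4 * r) * N := by
      exact_mod_cast hlenJ a (mem_range.1 ha)
    have h8 : (0 : ℝ) ≤ (1 + 4 * l / 2 ^ r) ^ J := by positivity
    refine mul_le_mul_of_nonneg_right ?_ h8
    nlinarith
  have h3 : (((range N).filter fun t : ℕ => r + 2 * r * s ≤ ((range K).filter (P t)).card).card : ℝ) ≤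
      ∑ a ∈ range (2 * r), (((range N).filter fun t : ℕ => s ≤ ((range J).filter fun j => P t (a + r + 2 * r * j)).card).card : ℝ) := by
    have := (card_le_card h1).trans card_biUnion_le
    exact_mod_cast this
  have h4 : (0 : ℝ) ≤ (1 + l) ^ s := by positivity
  calc (((range N).filter fun t : ℕ => r + 2 * r * s ≤ ((range K).filter (P t)).card).card : ℝ) * (1 + l) ^ s
      ≤ (∑ a ∈ range (2 * r), (((range N).filter fun t : ℕ => s ≤ ((range J).filter fun j => P t (a + r + 2 * r * j)).card).card : ℝ)) *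
          (1 + l) ^ s := mul_le_mul_of_nonneg_right h3 h4
    _ = ∑ a ∈ range (2 * r), (((range N).filter fun t : ℕ => s ≤ ((range J).filter fun j => P t (a + r + 2 * r * j)).card).card : ℝ) *
          (1 + l) ^ s := sum_mul _ _ _
    _ ≤ ∑ a ∈ range (2 * r), (2 * (1 + 2 ^ (4 * r)) * N) * (1 + 4 * l / 2 ^ r) ^ J := sum_le_sum h2
    _ = 2 * r * (2 * (1 + 2 ^ (4 * r)) * N) * (1 + 4 * l / 2 ^ r) ^ J := by
      rw [sum_const, card_range, nsmul_eq_mul]
      push_cast
      ring

/-- SECOND DIFFERENCES OF A LIPSCHITZ FUNCTION. -/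
theorem dsd (d e : ℝ) (hd : 0 < d) (he : 0 < e) : ∃ c : ℝ, 0 < c ∧ ∃ C : ℝ, 0 < C ∧ ∀ (K N : ℕ) (f : ℤ → ℝ),
    2 ^ K ≤ N → (∀ i, |f (i + 1) - f i| ≤ 1) →
    (((range N).filter fun t : ℕ => e * K ≤ (((range K).filter fun k =>
      d * 2 ^ k ≤ |f (t + 2 ^ k) - 2 * f t + f (t - 2 ^ k)|).card : ℝ)).card : ℝ) ≤ C * N * Real.exp (-c * K) := by
  classical
  obtain ⟨r, hr⟩ := pow_unbounded_of_one_lt (max (16 / d) (max d (max (8 / e) 2))) (one_lt_two (α := ℝ))
  have hr1 : 16 / d < 2 ^ r := lt_of_le_of_lt (le_max_left _ _) hr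
  have hr' := lt_of_le_of_lt (le_max_right _ _) hr
  have hr2 : d < 2 ^ r := lt_of_le_of_lt (le_max_left _ _) hr'
  have hr'' := lt_of_le_of_lt (le_max_right _ _) hr'
  have hr3 : 8 / e < 2 ^ r := lt_of_le_of_lt (le_max_left _ _) hr''
  have hr4 : (2 : ℝ) < 2 ^ r := lt_of_le_of_lt (le_max_right _ _) hr''
  have hr0 : 0 < r := by
    rcases Nat.eq_zero_or_pos r with h | h
    · rw [h, pow_zero] at hr4
      norm_num at hr4
    · exact h
  have hrr : (0 : ℝ) < r := by exact_mod_cast hr0
  set b : ℝ := 2 ^ r with hb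
  have hb0 : 0 < b := by positivity
  have hdb : 16 < d * b := by
    rw [div_lt_iff₀ hd] at hr1
    linarith
  have heb : 8 < e * b := by
    rw [div_lt_iff₀ he] at hr3
    linarith
  set l : ℝ := d ^ 2 / (256 * (b * b)) with hl
  have hl0 : 0 < l := by positivity
  have hl1 : l ≤ 1 := by
    rw [hl, div_le_one (by positivity)]
    nlinarith
  set c : ℝ := l / (2 * r) * (e / 2 - 4 / b) with hc
  have hc0 : 0 < c := by
    have h1 : 4 / b < e / 2 := by
      rw [div_lt_div_iff₀ hb0 (by norm_num)]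
      linarith
    have h2 : 0 < e / 2 - 4 / b := by linarith
    positivity
  set A : ℝ := 2 * r * (2 * (1 + 2 ^ (4 * r))) with hA
  have hA0 : 0 < A := by positivity
  refine ⟨c, hc0, A * Real.exp (4 * l / b + 3 * l / 4) + Real.exp (c * (3 * r / e)), by positivity, ?_⟩
  intro K N f hN hf
  set X : ℝ := (((range N).filter fun t : ℕ => e * K ≤ (((range K).filter fun k =>
      d * 2 ^ k ≤ |f (t + 2 ^ k) - 2 * f t + f (t - 2 ^ k)|).card : ℝ)).card : ℝ) with hX
  have hNr : (0 : ℝ) ≤ N := Nat.cast_nonneg _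
  have hK0 : (0 : ℝ) ≤ K := Nat.cast_nonneg _
  by_cases hK : e * K < 3 * r
  · have h1 : X ≤ N := by
      rw [hX]
      have := card_filter_le (range N) fun t : ℕ => e * K ≤ (((range K).filter fun k =>
        d * 2 ^ k ≤ |f (t + 2 ^ k) - 2 * f t + f (t - 2 ^ k)|).card : ℝ)
      rw [card_range] at this
      exact_mod_cast this
    have h2 : (K : ℝ) ≤ 3 * r / e := by
      rw [le_div_iff₀ he]
      linarith
    have h3 : 1 ≤ Real.exp (c * (3 * r / e)) * Real.exp (-c * K) := by
      rw [← Real.exp_add, Real.one_le_exp_iff]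
      have := mul_le_mul_of_nonneg_left h2 hc0.le
      linarith
    have h4 : 0 ≤ A * Real.exp (4 * l / b + 3 * l / 4) * N * Real.exp (-c * K) := by positivity
    have h5 : (N : ℝ) ≤ Real.exp (c * (3 * r / e)) * N * Real.exp (-c * K) := by
      have := mul_le_mul_of_nonneg_left h3 hNr
      linarith
    calc X ≤ N := h1
      _ ≤ (A * Real.exp (4 * l / b + 3 * l / 4) + Real.exp (c * (3 * r / e))) * N * Real.exp (-c * K) := by
        rw [add_mul, add_mul]
        linarith
  · push Not at hK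
    set s : ℕ := ⌊(e * K - r) / (2 * r)⌋₊ with hs
    have hq0 : 0 ≤ (e * K - r) / (2 * r) := by
      apply div_nonneg
      · linarith
      · positivity
    have hs1 : (s : ℝ) ≤ (e * K - r) / (2 * r) := Nat.floor_le hq0
    have hs2 : (e * K - r) / (2 * r) < s + 1 := Nat.lt_floor_add_one _
    have hs3 : (r : ℝ) + 2 * r * s ≤ e * K := by
      rw [le_div_iff₀ (by positivity)] at hs1
      linarith
    have hs4 : (e * K - 3 * r) / (2 * r) ≤ s := by
      have h1 : (e * K - 3 * r) / (2 * r) = (e * K - r) / (2 * r) - 1 := by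
        field_simp
        ring
      rw [h1]
      linarith
    have hres := residues hf hr0 hd (by rw [← hb]; exact hdb) K N s hN
    rw [← hb, ← hl] at hres
    have h1 : X ≤ (((range N).filter fun t : ℕ => r + 2 * r * s ≤ ((range K).filter fun k =>
        d * 2 ^ k ≤ |f (t + 2 ^ k) - 2 * f t + f (t - 2 ^ k)|).card).card : ℝ) := by
      rw [hX]
      have h2 : ((range N).filter fun t : ℕ => e * K ≤ (((range K).filter fun k =>
          d * 2 ^ k ≤ |f (t + 2 ^ k) - 2 * f t + f (t - 2 ^ k)|).card : ℝ)) ⊆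
          ((range N).filter fun t : ℕ => r + 2 * r * s ≤ ((range K).filter fun k =>
          d * 2 ^ k ≤ |f (t + 2 ^ k) - 2 * f t + f (t - 2 ^ k)|).card) := by
        intro t ht
        rw [mem_filter] at ht ⊢
        refine ⟨ht.1, ?_⟩
        have h3 := hs3.trans ht.2
        exact_mod_cast h3
      exact_mod_cast card_le_card h2
    have hX0 : 0 ≤ X := Nat.cast_nonneg _
    -- lower bound for the power
    have h2 : Real.exp (s * (l / 2)) ≤ (1 + l) ^ s := by
      have h3 : Real.exp (l / 2) ≤ 1 + l := by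
        have h4 := Real.add_one_le_exp (-(l / 2))
        have h5 : 0 < Real.exp (-(l / 2)) := Real.exp_pos _
        have h6 : Real.exp (l / 2) * Real.exp (-(l / 2)) = 1 := by
          rw [← Real.exp_add, add_neg_cancel, Real.exp_zero]
        have h7 : 0 < Real.exp (l / 2) := Real.exp_pos _
        nlinarith
      calc Real.exp (s * (l / 2)) = Real.exp (l / 2) ^ s := by rw [← Real.exp_nat_mul]
        _ ≤ (1 + l) ^ s := pow_le_pow_left₀ (Real.exp_pos _).le h3 s
    have h3 : (1 + 4 * l / b) ^ (K / (2 * r) + 1) ≤ Real.exp (4 * l / b * (K / (2 * r) + 1)) := by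
      have h4 : 1 + 4 * l / b ≤ Real.exp (4 * l / b) := by
        have := Real.add_one_le_exp (4 * l / b)
        linarith
      have h5 : 0 ≤ 4 * l / b := by positivity
      calc (1 + 4 * l / b) ^ (K / (2 * r) + 1) ≤ Real.exp (4 * l / b) ^ (K / (2 * r) + 1) :=
            pow_le_pow_left₀ (by linarith) h4 _
        _ = Real.exp (((K / (2 * r) + 1 : ℕ) : ℝ) * (4 * l / b)) := by rw [← Real.exp_nat_mul]
        _ ≤ Real.exp (4 * l / b * (K / (2 * r) + 1)) := by
          rw [Real.exp_le_exp, mul_comm]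
          refine mul_le_mul_of_nonneg_left ?_ h5
          have h6 : ((K / (2 * r) : ℕ) : ℝ) ≤ (K : ℝ) / ((2 * r : ℕ) : ℝ) := Nat.cast_div_le
          push_cast at h6 ⊢
          linarith
    have h4 : X * Real.exp (s * (l / 2)) ≤ A * N * Real.exp (4 * l / b * (K / (2 * r) + 1)) := by
      calc X * Real.exp (s * (l / 2)) ≤ X * (1 + l) ^ s := mul_le_mul_of_nonneg_left h2 hX0
        _ ≤ _ := mul_le_mul_of_nonneg_right h1 (by positivity)
        _ ≤ 2 * r * (2 * (1 + 2 ^ (4 * r)) * N) * (1 + 4 * l / b) ^ (K / (2 * r) + 1) := hres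
        _ ≤ 2 * r * (2 * (1 + 2 ^ (4 * r)) * N) * Real.exp (4 * l / b * (K / (2 * r) + 1)) :=
          mul_le_mul_of_nonneg_left h3 (by positivity)
        _ = _ := by rw [hA]; ring
    have h5 : X ≤ A * N * Real.exp (4 * l / b * (K / (2 * r) + 1) - s * (l / 2)) := by
      rw [Real.exp_sub, mul_div_assoc', le_div_iff₀ (Real.exp_pos _)]
      exact h4
    have h6 : 4 * l / b * (K / (2 * r) + 1) - s * (l / 2) ≤ (4 * l / b + 3 * l / 4) + -c * K := by
      have h7 : (e * K - 3 * r) / (2 * r) * (l / 2) ≤ s * (l / 2) :=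
        mul_le_mul_of_nonneg_right hs4 (by positivity)
      have h8 : (e * K - 3 * r) / (2 * r) * (l / 2) = l / (2 * r) * (e / 2) * K - 3 * l / 4 := by
        field_simp
        ring
      have h9 : 4 * l / b * (K / (2 * r) + 1) = 4 * l / b + l / (2 * r) * (4 / b) * K := by
        field_simp
        ring
      have h10 : -c * K = - (l / (2 * r) * (e / 2) * K) + l / (2 * r) * (4 / b) * K := by
        rw [hc]
        ring
      linarith
    have h7 : X ≤ A * N * (Real.exp (4 * l / b + 3 * l / 4) * Real.exp (-c * K)) := by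
      rw [← Real.exp_add]
      refine h5.trans ?_
      exact mul_le_mul_of_nonneg_left (Real.exp_le_exp.2 h6) (by positivity)
    have h8 : 0 ≤ Real.exp (c * (3 * r / e)) * N * Real.exp (-c * K) := by positivity
    calc X ≤ A * N * (Real.exp (4 * l / b + 3 * l / 4) * Real.exp (-c * K)) := h7
      _ ≤ (A * Real.exp (4 * l / b + 3 * l / 4) + Real.exp (c * (3 * r / e))) * N * Real.exp (-c * K) := by
        rw [add_mul, add_mul]
        linarith

end Dsd

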