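import Pool.Statements.S00185
-- import your own Pool.Agent.* helpers here
import Pool.Agent.TConn.Retract

set_option autoImplicit false
open Pool Pool.MP_5198f5_ag

namespace Pool.Agent.S00185

/-- For every n ≥ 1, the set of real upper triangular n×n matrices with unit diagonal such that every complex eigenvalue of S⁻¹Sᵀ has modulus 1 is a connected (nonempty) subset of the space of real n×n matrices. -/
theorem result :
    ∀ n : ℕ, 1 ≤ n →
      IsConnected {S : Matrix (Fin n) (Fin n) ℝ |
        (∀ i j : Fin n, j < i → S i j = 0) ∧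
        (∀ i : Fin n, S i i = 1) ∧
        ∀ z : ℂ, ((S⁻¹ * S.transpose).map Complex.ofReal).charpoly.IsRoot z → ‖z‖ = 1} := by
  intro n _
  have h1 : (1 : Matrix (Fin n) (Fin n) ℝ) ∈ TConn.TSet n :=
    TConn.Pset_sub TConn.one_mem_Pset
  have hconn : IsConnected (connectedComponentIn (TConn.TSet n) (1 : Matrix (Fin n) (Fin n) ℝ)) :=
    isConnected_connectedComponentIn_iff.2 h1
  refine hconn.subset_closure (connectedComponentIn_subset _ _) ?_
  intro S hS
  obtain ⟨hU, hUn⟩ := TConn.mem_TSet_iff.1 hS
  have h2 := TConn.density _ (Fin n) S rfl hU.isUnit hUn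
  have h3 := TConn.retract hU h2
  exact closure_mono (fun B hB => TConn.ell_conn hB.2 hB.1) h3

end Pool.Agent.S00185
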