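import Pool.Statements.S00293
import Pool.Agent.TL.FN

set_option autoImplicit false
open Pool Pool.MP_8844d3_ag

namespace Pool.Agent.S00293

/-- Over a characteristic-0 field, every automorphism of k[x1,x2,x3] that is the exponential of a locally nilpotent derivation and is tame is conjugate, by a tame automorphism, to one sending each x_i into k[x1,...,x_i]. -/
theorem result :
    ∀ (k : Type) [Field k] [CharZero k]
      (φ : MvPolynomial (Fin 3) k ≃ₐ[k] MvPolynomial (Fin 3) k),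
      (∃ D : Derivation k (MvPolynomial (Fin 3) k) (MvPolynomial (Fin 3) k),
        ∀ f : MvPolynomial (Fin 3) k, ∃ N : ℕ, (⇑D)^[N] f = 0 ∧
          φ f = ∑ n ∈ Finset.range N, ((n.factorial : k)⁻¹) • (⇑D)^[n] f) →
      φ ∈ Subgroup.closure
        {ψ : MvPolynomial (Fin 3) k ≃ₐ[k] MvPolynomial (Fin 3) k |
          (∀ i : Fin 3, (ψ (MvPolynomial.X i)).totalDegree ≤ 1) ∨
          (∀ i : Fin 3, (ψ (MvPolynomial.X i)).vars ⊆ Finset.Iic i)} →
      ∃ σ ∈ Subgroup.closure
        {ψ : MvPolynomial (Fin 3) k ≃ₐ[k] MvPolynomial (Fin 3) k |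
          (∀ i : Fin 3, (ψ (MvPolynomial.X i)).totalDegree ≤ 1) ∨
          (∀ i : Fin 3, (ψ (MvPolynomial.X i)).vars ⊆ Finset.Iic i)},
        ∀ i : Fin 3, ((σ * φ * σ⁻¹) (MvPolynomial.X i)).vars ⊆ Finset.Iic i := by
  intro k _ _ φ hD hφ
  exact Pool.Agent.TL.final k φ hD hφ

end Pool.Agent.S00293
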