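import Pool.Statements.S00356
import Pool.Agent.MP_a45f4e_ag.Example

set_option autoImplicit false
open Pool Pool.MP_a45f4e_ag

namespace Pool.Agent.S00356

/-- The negation of the preceding statement: In a Noetherian local ring of prime characteristic p, if the ideal generated by a full system of parameters is Frobenius closed, then every Frobenius power of it (generated by p^e-th powers) is also Frobenius closed. -/
theorem result :
    ¬ (∀ (R : Type) [CommRing R] [IsLocalRing R] [IsNoetherianRing R] (p : ℕ) [ExpChar R p],
      p.Prime →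
      ∀ (d : ℕ) (x : Fin d → R),
        ringKrullDim R = (d : WithBot ℕ∞) →
        (Ideal.span (Set.range x)).radical = IsLocalRing.maximalIdeal R →
        (∀ r : R, (∃ e : ℕ, r ^ (p ^ e) ∈
            Ideal.map (iterateFrobenius R p e) (Ideal.span (Set.range x))) →
          r ∈ Ideal.span (Set.range x)) →
        ∀ e : ℕ, ∀ r : R,
          (∃ e' : ℕ, r ^ (p ^ e') ∈ Ideal.map (iterateFrobenius R p e')
              (Ideal.map (iterateFrobenius R p e) (Ideal.span (Set.range x)))) →
          r ∈ Ideal.map (iterateFrobenius R p e) (Ideal.span (Set.range x))) := by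
  intro H
  haveI : Fact (Nat.Prime 2) := ⟨Nat.prime_two⟩
  haveI : ExpChar (Pool.Agent.FrobParam.R 2) 2 := ExpChar.prime Nat.prime_two
  exact Pool.Agent.FrobParam.not_closed 2
    (H (Pool.Agent.FrobParam.R 2) 2 Nat.prime_two 2 (Pool.Agent.FrobParam.par 2)
      (Pool.Agent.FrobParam.dim_eq 2) (Pool.Agent.FrobParam.radical_par 2)
      (Pool.Agent.FrobParam.closed_par 2))

end Pool.Agent.S00356
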