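import Pool.Statements.S00532
import Pool.Agent.MP_ed7674_ag.Final

set_option autoImplicit false
open Pool Pool.MP_ed7674_ag

namespace Pool.Agent.S00532

/-- The negation of the preceding statement: For every commutative ring A and every d, any stably free module P over A[x1,...,xd] (P plus a free module of rank n is free of rank m) is isomorphic to A[x1,...,xd] tensored over A with some A-module Q. -/
theorem result :
    ¬ (∀ (A : Type) [CommRing A] (d : ℕ) (P : Type) [AddCommGroup P]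
      [Module (MvPolynomial (Fin d) A) P],
      (∃ n m : ℕ, Nonempty ((P × (Fin n → MvPolynomial (Fin d) A)) ≃ₗ[MvPolynomial (Fin d) A]
        (Fin m → MvPolynomial (Fin d) A))) →
      ∃ (Q : Type) (_ : AddCommGroup Q) (_ : Module A Q),
        Nonempty (P ≃ₗ[MvPolynomial (Fin d) A] TensorProduct A (MvPolynomial (Fin d) A) Q)) := by
  intro H
  obtain ⟨k, _, _, v, w, F, hF, h1, hv, hw, hvw, hv0, hw0⟩ := LamCex.exists_field
  have htv : v⁻¹ * v = 1 := inv_mul_cancel₀ hv0
  have huw : w⁻¹ * w = 1 := inv_mul_cancel₀ hw0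
  obtain ⟨Q, _, _, ⟨ψ⟩⟩ := H (LamCex.Acex k) 1
    (LinearMap.ker (LamCex.rowMap (LamCex.theRow w v⁻¹ w⁻¹)))
    ⟨1, 3, ⟨LamCex.splitEquiv _ _ (LamCex.row_col v w v⁻¹ w⁻¹ htv huw)⟩⟩
  exact LamCex.not_extended hF v w v⁻¹ w⁻¹ h1 hv hw hvw htv huw Q ψ

end Pool.Agent.S00532
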