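import Pool.Statements.S02629
-- import your own Pool.Agent.* helpers here
import Pool.Agent.ACG.Main

set_option autoImplicit false
open Pool Pool.MP_a9e0e5_al

namespace Pool.Agent.S02629

open Pool.Agent.ACG in
lemma of_eq_iff {G : Type} [Group G] {x y : G} :
    Abelianization.of x = Abelianization.of y ↔
      x⁻¹ * y ∈ ⁅(⊤ : Subgroup G), (⊤ : Subgroup G)⁆ := by
  have h : Abelianization.of x = Abelianization.of y ↔ x⁻¹ * y ∈ commutator G :=
    QuotientGroup.eq
  rw [h, commutator_def]

/-- For finite G with operator group Ω and k = minimal number of Ω-normal generators ≥ 2, two normally generating k-tuples are AC-equivalent (with conjugation by G and Ω) iff their images in G/[G,G] are AC-equivalent (with Ω-action). -/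
theorem result :
    ∀ (G Ω : Type) [Group G] [Finite G] [Group Ω] [MulDistribMulAction Ω G] (k : ℕ),
      2 ≤ k →
      (∃ u : Fin k → G, ∀ H : Subgroup G, H.Normal → (∀ ω : Ω, ∀ h ∈ H, ω • h ∈ H) →
          (∀ i, u i ∈ H) → H = ⊤) →
      (∀ m : ℕ, m < k → ∀ u : Fin m → G, ¬ (∀ H : Subgroup G, H.Normal →
          (∀ ω : Ω, ∀ h ∈ H, ω • h ∈ H) → (∀ i, u i ∈ H) → H = ⊤)) →
      ∀ U V : Fin k → G,
        (∀ H : Subgroup G, H.Normal → (∀ ω : Ω, ∀ h ∈ H, ω • h ∈ H) →
          (∀ i, U i ∈ H) → H = ⊤) →
        (∀ H : Subgroup G, H.Normal → (∀ ω : Ω, ∀ h ∈ H, ω • h ∈ H) →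
          (∀ i, V i ∈ H) → H = ⊤) →
        (Relation.ReflTransGen
            (fun a b : Fin k → G =>
              (∃ i j : Fin k, i ≠ j ∧
                (b = Function.update a i (a i * a j) ∨
                 b = Function.update a i (a i * (a j)⁻¹) ∨
                 b = Function.update a i (a j * a i) ∨
                 b = Function.update a i ((a j)⁻¹ * a i))) ∨
              (∃ i : Fin k, b = Function.update a i (a i)⁻¹) ∨
              (∃ (i : Fin k) (g : G), b = Function.update a i (g⁻¹ * a i * g)) ∨
              (∃ (i : Fin k) (ω : Ω), b = Function.update a i (ω • a i)))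
            U V ↔
          Relation.ReflTransGen
            (fun a b : Fin k → Abelianization G =>
              (∃ i j : Fin k, i ≠ j ∧
                (b = Function.update a i (a i * a j) ∨
                 b = Function.update a i (a i * (a j)⁻¹) ∨
                 b = Function.update a i (a j * a i) ∨
                 b = Function.update a i ((a j)⁻¹ * a i))) ∨
              (∃ i : Fin k, b = Function.update a i (a i)⁻¹) ∨
              (∃ (i : Fin k) (ω : Ω) (g : G), Abelianization.of g = a i ∧
                b = Function.update a i (Abelianization.of (ω • g))))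
            (fun i => Abelianization.of (U i)) (fun i => Abelianization.of (V i))) := by
  intro G Ω _ _ _ _ k hk _ _ U V hU hV
  constructor
  · intro h
    clear hV
    induction h with
    | refl => exact Relation.ReflTransGen.refl
    | @tail c d _ h2 ih =>
      have hup : ∀ (i : Fin k) (x : G), (fun l => Abelianization.of (Function.update c i x l)) =
          Function.update (fun l => Abelianization.of (c l)) i (Abelianization.of x) := by
        intro i x
        funext l
        by_cases hl : l = i
        · subst hl
          rw [Function.update_self, Function.update_self]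
        · rw [Function.update_of_ne hl, Function.update_of_ne hl]
      rcases h2 with ⟨i, j, hij, h2⟩ | ⟨i, h2⟩ | ⟨i, g, h2⟩ | ⟨i, ω, h2⟩
      · refine ih.tail (Or.inl ⟨i, j, hij, ?_⟩)
        rcases h2 with h2 | h2 | h2 | h2 <;> subst h2 <;> rw [hup]
        · left; simp only [map_mul]
        · right; left; simp only [map_mul, map_inv]
        · right; right; left; simp only [map_mul]
        · right; right; right; simp only [map_mul, map_inv]
      · subst h2
        refine ih.tail (Or.inr (Or.inl ⟨i, ?_⟩))
        rw [hup, map_inv]
      · subst h2
        have e : Abelianization.of (g⁻¹ * c i * g) = Abelianization.of (c i) := by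
          rw [map_mul, map_mul, map_inv, mul_comm (Abelianization.of g)⁻¹, inv_mul_cancel_right]
        rw [hup, e]
        have e2 : Function.update (fun l => Abelianization.of (c l)) i (Abelianization.of (c i)) =
            fun l => Abelianization.of (c l) := Function.update_eq_self i _
        rw [e2]
        exact ih
      · subst h2
        refine ih.tail (Or.inr (Or.inr ⟨i, ω, c i, rfl, ?_⟩))
        rw [hup]
  · intro h
    have key : ∃ V' : Fin k → G, Pool.Agent.ACG.AC Ω U V' ∧
        ∀ i, Abelianization.of (V' i) = Abelianization.of (V i) := by
      have gen : ∀ b : Fin k → Abelianization G, Relation.ReflTransGen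
            (fun a b : Fin k → Abelianization G =>
              (∃ i j : Fin k, i ≠ j ∧
                (b = Function.update a i (a i * a j) ∨
                 b = Function.update a i (a i * (a j)⁻¹) ∨
                 b = Function.update a i (a j * a i) ∨
                 b = Function.update a i ((a j)⁻¹ * a i))) ∨
              (∃ i : Fin k, b = Function.update a i (a i)⁻¹) ∨
              (∃ (i : Fin k) (ω : Ω) (g : G), Abelianization.of g = a i ∧
                b = Function.update a i (Abelianization.of (ω • g))))
            (fun i => Abelianization.of (U i)) b → ∃ V' : Fin k → G, Pool.Agent.ACG.AC Ω U V' ∧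
            ∀ i, Abelianization.of (V' i) = b i := by
        intro b hb
        induction hb with
        | refl => exact ⟨U, Pool.Agent.ACG.AC.refl U, fun _ => rfl⟩
        | @tail c d _ h2 ih =>
          obtain ⟨a', h1, h3⟩ := ih
          have hup : ∀ (i : Fin k) (x : G) (y : Abelianization G), Abelianization.of x = y →
              ∀ l, Abelianization.of (Function.update a' i x l) = Function.update c i y l := by
            intro i x y hxy l
            by_cases hl : l = i
            · subst hl
              rw [Function.update_self, Function.update_self, hxy]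
            · rw [Function.update_of_ne hl, Function.update_of_ne hl, h3]
          rcases h2 with ⟨i, j, hij, h2⟩ | ⟨i, h2⟩ | ⟨i, ω, g, hg, h2⟩
          · rcases h2 with h2 | h2 | h2 | h2 <;> subst h2
            · exact ⟨_, h1.trans (Pool.Agent.ACG.mv_mul a' hij),
                hup i _ _ (by rw [map_mul, h3, h3])⟩
            · exact ⟨_, h1.trans (Pool.Agent.ACG.mv_mul_inv a' hij),
                hup i _ _ (by rw [map_mul, map_inv, h3, h3])⟩
            · exact ⟨_, h1.trans (Pool.Agent.ACG.mv_lmul a' hij),
                hup i _ _ (by rw [map_mul, h3, h3])⟩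
            · exact ⟨_, h1.trans (Pool.Agent.ACG.mv_linv a' hij),
                hup i _ _ (by rw [map_mul, map_inv, h3, h3])⟩
          · subst h2
            exact ⟨_, h1.trans (Pool.Agent.ACG.mv_inv a' i), hup i _ _ (by rw [map_inv, h3])⟩
          · subst h2
            refine ⟨_, h1.trans (Pool.Agent.ACG.mv_op a' i ω), hup i _ _ ?_⟩
            rw [← h3, of_eq_iff] at hg
            rw [eq_comm, of_eq_iff]
            have := (Pool.Agent.ACG.comm_GN (Ω := Ω) (Pool.Agent.ACG.top_GN (G := G))
              (Pool.Agent.ACG.top_GN (G := G))).2 ω _ hg
            rwa [smul_mul', smul_inv'] at this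
      exact gen _ h
    obtain ⟨V', h1, h2⟩ := key
    exact Relation.ReflTransGen.trans h1 (Pool.Agent.ACG.main _ G Ω le_rfl k hk V' V (h1.gen hU) hV
      (fun i => of_eq_iff.1 (h2 i)))

end Pool.Agent.S02629
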