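import Pool.Statements.S02813
import Pool.Agent.H21Geo.Final

set_option autoImplicit false
open Pool Pool.MP_b6554e_al

namespace Pool.Agent.S02813

open Pool.Agent.H21Geo in
/-- There is a group with a finite generating set S whose count of geodesic words (letters from S and inverses) of length at most n is polynomially bounded, yet is not within constant factors of n^c for any natural c. -/
theorem result :
    ∃ (G : Type) (_ : Group G) (S : Finset G) (γ : ℕ → ℕ),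
      Subgroup.closure (S : Set G) = ⊤ ∧
      (∀ n : ℕ, γ n = Set.ncard {w : List G | w.length ≤ n ∧
          (∀ x ∈ w, x ∈ S ∨ x⁻¹ ∈ S) ∧
          ∀ v : List G, (∀ x ∈ v, x ∈ S ∨ x⁻¹ ∈ S) → v.prod = w.prod →
            w.length ≤ v.length}) ∧
      (∃ C d : ℕ, ∀ n : ℕ, 1 ≤ n → γ n ≤ C * n ^ d) ∧
      ∀ c : ℕ, ¬ ∃ C : ℕ, ∀ n : ℕ, 1 ≤ n → n ^ c ≤ C * γ n ∧ γ n ≤ C * n ^ c := by
  refine ⟨Q, inferInstance, SS, fun n => (GW n).ncard, closure_SS, ?_, ?_, ?_⟩
  · intro n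
    simp only [mem_SS]
    rfl
  · refine ⟨8 * 20 ^ 7 * 4, 7, fun n hn => ?_⟩
    have := (GW_poly hn).2
    calc (GW n).ncard ≤ 8 * (20 ^ 7 * n ^ 7) * 4 := this
      _ = _ := by ring
  · rintro c ⟨C, hC⟩
    rcases Nat.lt_or_ge c 6 with hc | hc
    · -- the growth beats `n ^ 5`
      obtain ⟨q, hq⟩ : ∃ q, q = C * 100 ^ 5 + 1 := ⟨_, rfl⟩
      have hq1 : 1 ≤ q := by omega
      have hn : 1 ≤ 100 * q ^ 2 := by nlinarith [Nat.one_le_pow 2 q hq1]
      have h1 : (GW (100 * q ^ 2)).ncard ≤ C * (100 * q ^ 2) ^ c := (hC _ hn).2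
      have h2 := GW_lower hq1
      have h3 : (100 * q ^ 2) ^ c ≤ (100 * q ^ 2) ^ 5 := Nat.pow_le_pow_right hn (by omega)
      have h4 : q ^ 11 ≤ C * (100 * q ^ 2) ^ 5 :=
        (h2.trans h1).trans (Nat.mul_le_mul_left C h3)
      have h5 : C * (100 * q ^ 2) ^ 5 = (C * 100 ^ 5) * q ^ 10 := by ring
      have h6 : q ^ 11 = q * q ^ 10 := by ring
      rw [h5, h6] at h4
      have h7 : 0 < q ^ 10 := by positivity
      have h8 := Nat.le_of_mul_le_mul_right h4 h7
      omega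
    · -- the growth is below `n ^ 6`
      obtain ⟨q, hq⟩ : ∃ q, q = C * (CU * 4) + 1 := ⟨_, rfl⟩
      have hq1 : 1 ≤ q := by omega
      have hn : 1 ≤ q ^ 6 := Nat.one_le_pow _ _ hq1
      have h1 : (q ^ 6) ^ c ≤ C * (GW (q ^ 6)).ncard := (hC _ hn).1
      have h2 := GW_upper hq1
      have h3 : (q ^ 6) ^ 6 ≤ (q ^ 6) ^ c := Nat.pow_le_pow_right hn hc
      have h4 : (q ^ 6) ^ 6 ≤ C * (CU * q ^ 35 * 4) :=
        (h3.trans h1).trans (Nat.mul_le_mul_left C h2)
      have h5 : C * (CU * q ^ 35 * 4) = (C * (CU * 4)) * q ^ 35 := by ring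
      have h6 : (q ^ 6) ^ 6 = q * q ^ 35 := by ring
      rw [h5, h6] at h4
      have h7 : 0 < q ^ 35 := by positivity
      have h8 := Nat.le_of_mul_le_mul_right h4 h7
      omega

end Pool.Agent.S02813
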