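-- Proof of the frozen statement S02941 (real closure = strong 2-closure for |Ω| ≥ 3).
import Pool.Statements.S02941

set_option autoImplicit false
open Pool Pool.MP_bfcf3a_al

namespace Pool.Agent.S02941

/-- If `σ` preserves every `G`-invariant subspace, then it commutes with every symmetric real matrix
commuting with `G`: the eigenspaces of such a matrix are `G`-invariant. -/
theorem matrix_invariant_of_submodule {Ω : Type} [Fintype Ω] [DecidableEq Ω]
    (G : Subgroup (Equiv.Perm Ω)) (σ : Equiv.Perm Ω)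
    (hσ : ∀ W : Submodule ℝ (Ω → ℝ), (∀ g ∈ G, ∀ f ∈ W, (fun x => f (g x)) ∈ W) →
      ∀ f ∈ W, (fun x => f (σ x)) ∈ W)
    (M : Matrix Ω Ω ℝ) (hM : M.IsHermitian) (hG : ∀ g ∈ G, ∀ x y, M (g x) (g y) = M x y) :
    ∀ x y, M (σ x) (σ y) = M x y := by
  have key : ∀ (τ : Equiv.Perm Ω) (f : Ω → ℝ) (x : Ω), (M.mulVec (fun y => f (τ y))) x
      = ∑ y, M x (τ.symm y) * f y := by
    intro τ f x
    simp only [Matrix.mulVec, dotProduct]
    rw [← Equiv.sum_comp τ (fun y => M x (τ.symm y) * f y)]
    simp
  -- commutation on each eigenvector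
  have h1 : ∀ (μ : ℝ) (f : Ω → ℝ), M.mulVec f = μ • f →
      M.mulVec (fun y => f (σ y)) = μ • (fun y => f (σ y)) := by
    intro μ f hf
    let W : Submodule ℝ (Ω → ℝ) :=
      { carrier := {f | M.mulVec f = μ • f}
        add_mem' := by
          intro a b ha hb
          simp only [Set.mem_ofPred_eq] at *
          rw [Matrix.mulVec_add, ha, hb, smul_add]
        zero_mem' := by simp
        smul_mem' := by
          intro c a ha
          simp only [Set.mem_ofPred_eq] at *
          rw [Matrix.mulVec_smul, ha, smul_comm] }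
    have hW : ∀ g ∈ G, ∀ f ∈ W, (fun x => f (g x)) ∈ W := by
      intro g hg f hf
      change M.mulVec f = μ • f at hf
      change M.mulVec (fun x => f (g x)) = μ • (fun x => f (g x))
      funext x
      rw [key g f x]
      have := congrFun hf (g x)
      simp only [Matrix.mulVec, dotProduct, Pi.smul_apply] at this
      simp only [Pi.smul_apply]
      rw [← this]
      apply Finset.sum_congr rfl
      intro y _
      rw [← hG g hg x (g.symm y)]
      simp
    exact hσ W hW f hf
  have h2 : ∀ f : Ω → ℝ, ∀ x, (M.mulVec (fun y => f (σ y))) x = (M.mulVec f) (σ x) := by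
    have hlin : (Matrix.mulVecLin M).comp (LinearMap.funLeft ℝ ℝ σ) =
        (LinearMap.funLeft ℝ ℝ σ).comp (Matrix.mulVecLin M) := by
      let e : EuclideanSpace ℝ Ω ≃ₗ[ℝ] (Ω → ℝ) := WithLp.linearEquiv 2 ℝ (Ω → ℝ)
      let b : Module.Basis Ω ℝ (Ω → ℝ) := (hM.eigenvectorBasis.toBasis).map e
      apply b.ext
      intro i
      have hb : M.mulVec (b i) = hM.eigenvalues i • (b i) := by
        have := hM.mulVec_eigenvectorBasis i
        simpa [b, e] using this
      have h3 := h1 _ _ hb
      have h4 : (Matrix.mulVecLin M) (b i) = hM.eigenvalues i • (b i) := hb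
      rw [LinearMap.comp_apply, LinearMap.comp_apply, h4, map_smul]
      exact h3
    intro f x
    exact congrFun (LinearMap.congr_fun hlin f) x
  intro x y
  have h5 := h2 (Pi.single (σ y) 1) x
  rw [Matrix.mulVec_single_one] at h5
  have h6 : (fun z => (Pi.single (σ y) (1:ℝ) : Ω → ℝ) (σ z)) = Pi.single y 1 := by
    funext z
    by_cases hz : z = y
    · subst hz; simp
    · rw [Pi.single_eq_of_ne hz, Pi.single_eq_of_ne]
      exact fun h => hz (σ.injective h)
  rw [h6, Matrix.mulVec_single_one] at h5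
  simpa using h5.symm

/-- If `σ` preserves every symmetric relation-matrix invariant under `G`, it preserves every
`G`-invariant subspace: it commutes with the orthogonal projection. -/
theorem submodule_invariant_of_matrix {Ω : Type} [Fintype Ω] [DecidableEq Ω]
    (G : Subgroup (Equiv.Perm Ω)) (σ : Equiv.Perm Ω)
    (hσ : ∀ M : Matrix Ω Ω ℝ, (∀ x y, M x y = M y x) → (∀ g ∈ G, ∀ x y, M (g x) (g y) = M x y) →
      ∀ x y, M (σ x) (σ y) = M x y)
    (W : Submodule ℝ (Ω → ℝ)) (hW : ∀ g ∈ G, ∀ f ∈ W, (fun x => f (g x)) ∈ W) :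
    ∀ f ∈ W, (fun x => f (σ x)) ∈ W := by
  let e : EuclideanSpace ℝ Ω ≃ₗ[ℝ] (Ω → ℝ) := WithLp.linearEquiv 2 ℝ (Ω → ℝ)
  let K : Submodule ℝ (EuclideanSpace ℝ Ω) := W.comap e.toLinearMap
  -- permutation action as linear isometry equivalence
  let U : Equiv.Perm Ω → (EuclideanSpace ℝ Ω ≃ₗᵢ[ℝ] EuclideanSpace ℝ Ω) := fun τ =>
    LinearIsometryEquiv.piLpCongrLeft 2 ℝ ℝ τ.symm
  have hU : ∀ (τ : Equiv.Perm Ω) (f : EuclideanSpace ℝ Ω) (x : Ω), (U τ f) x = f (τ x) := by
    intro τ f x
    simp [U, LinearIsometryEquiv.piLpCongrLeft_apply]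
  have hKmap : ∀ g ∈ G, K.map (U g).toLinearEquiv.toLinearMap = K := by
    intro g hg
    apply le_antisymm
    · rintro _ ⟨f, hf, rfl⟩
      change e _ ∈ W
      have h := hW g hg (e f) hf
      convert h using 1
      funext x
      exact hU g f x
    · intro f hf
      have hf' : e f ∈ W := hf
      have h := hW g⁻¹ (G.inv_mem hg) (e f) hf'
      refine ⟨e.symm (fun x => e f (g⁻¹ x)), ?_, ?_⟩
      · change e (e.symm _) ∈ W
        rw [LinearEquiv.apply_symm_apply]
        exact h
      · ext x
        have := hU g (e.symm (fun x => e f (g⁻¹ x))) x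
        change (U g (e.symm (fun x => e f (g⁻¹ x)))) x = f x
        rw [this]
        change e f (g⁻¹ (g x)) = f x
        simp [e]
  let P := K.starProjection
  let M : Matrix Ω Ω ℝ := fun x y => (P (EuclideanSpace.single y 1)) x
  have hMinner : ∀ x y, M x y = inner ℝ (EuclideanSpace.single x (1:ℝ)) (P (EuclideanSpace.single y 1)) := by
    intro x y
    rw [EuclideanSpace.inner_single_left]
    simp [M]
  have hsymm : ∀ x y, M x y = M y x := by
    intro x y
    rw [hMinner, hMinner, ← Submodule.inner_starProjection_left_eq_right, real_inner_comm]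
  have hUP : ∀ g ∈ G, ∀ f, P (U g f) = U g (P f) := by
    intro g hg f
    have hKm : ∀ w ∈ K, U g w ∈ K := by
      intro w hw
      have : U g w ∈ K.map (U g).toLinearEquiv.toLinearMap := ⟨w, hw, rfl⟩
      rwa [hKmap g hg] at this
    apply Submodule.eq_starProjection_of_mem_orthogonal (hKm _ (Submodule.starProjection_apply_mem K f))
    rw [Submodule.mem_orthogonal]
    intro w hw
    have hw' : w ∈ K.map (U g).toLinearEquiv.toLinearMap := by rw [hKmap g hg]; exact hw
    obtain ⟨w', hw'K, rfl⟩ := hw'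
    change inner ℝ (U g w') (U g f - U g (P f)) = 0
    rw [← map_sub, LinearIsometryEquiv.inner_map_map]
    exact (Submodule.mem_orthogonal K _).mp (Submodule.sub_starProjection_mem_orthogonal f) w' hw'K
  have hUsingle : ∀ (τ : Equiv.Perm Ω) (y : Ω), U τ (EuclideanSpace.single (τ y) 1) = EuclideanSpace.single y 1 := by
    intro τ y
    ext x
    rw [hU]
    by_cases hx : x = y
    · subst hx; simp
    · have : τ x ≠ τ y := fun h => hx (τ.injective h)
      simp [hx, this]
  have hGM : ∀ g ∈ G, ∀ x y, M (g x) (g y) = M x y := by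
    intro g hg x y
    have h := hUP g hg (EuclideanSpace.single (g y) 1)
    rw [hUsingle] at h
    have h' := congrArg (fun v : EuclideanSpace ℝ Ω => v x) h
    simp only [hU] at h'
    exact h'.symm
  have hσM := hσ M hsymm hGM
  -- P expressed by M
  have hPM : ∀ (f : EuclideanSpace ℝ Ω) (x : Ω), (P f) x = ∑ y, M x y * f y := by
    intro f x
    have hf : f = ∑ y, f y • EuclideanSpace.single y (1:ℝ) := by
      ext z
      simp [Finset.sum_apply, Pi.single_apply]
    conv_lhs => rw [hf]
    rw [map_sum]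
    simp only [map_smul]
    rw [WithLp.ofLp_sum]
    simp [Finset.sum_apply, M, mul_comm]
  intro f hf
  have hfK : e.symm f ∈ K := by
    change e (e.symm f) ∈ W
    rwa [LinearEquiv.apply_symm_apply]
  have hPf : P (e.symm f) = e.symm f := Submodule.starProjection_eq_self_iff.mpr hfK
  have hfin : P (e.symm (fun x => f (σ x))) = e.symm (fun x => f (σ x)) := by
    ext x
    rw [hPM]
    have h1 := hPM (e.symm f) (σ x)
    rw [hPf] at h1
    change ∑ y, M x y * f (σ y) = f (σ x)
    change f (σ x) = ∑ y, M (σ x) y * f y at h1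
    rw [h1, ← Equiv.sum_comp σ (fun y => M (σ x) y * f y)]
    apply Finset.sum_congr rfl
    intro y _
    rw [hσM]
  have := Submodule.starProjection_eq_self_iff.mp hfin
  change e (e.symm _) ∈ W at this
  rwa [LinearEquiv.apply_symm_apply] at this

/-- For every finite set Ω with at least 3 points and every permutation group G on Ω, the permutations preserving every G-invariant real subspace of ℝ^Ω are exactly those mapping each 2-subset into its G-orbit. -/
theorem result :
    ∀ (Ω : Type) [Fintype Ω], 3 ≤ Fintype.card Ω →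
      ∀ G : Subgroup (Equiv.Perm Ω),
        ({σ : Equiv.Perm Ω |
            ∀ W : Submodule ℝ (Ω → ℝ),
              (∀ g ∈ G, ∀ f ∈ W, (fun x => f (g x)) ∈ W) →
                ∀ f ∈ W, (fun x => f (σ x)) ∈ W} : Set (Equiv.Perm Ω)) =
        ({σ : Equiv.Perm Ω |
            ∀ a b : Ω, a ≠ b →
              ∃ g ∈ G, ({g a, g b} : Set Ω) = {σ a, σ b}} : Set (Equiv.Perm Ω)) := by
  intro Ω _ hcard G
  classical
  ext σ
  constructor
  · -- real closure is contained in the strong 2-closure
    intro hσ
    change ∀ W : Submodule ℝ (Ω → ℝ),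
              (∀ g ∈ G, ∀ f ∈ W, (fun x => f (g x)) ∈ W) →
                ∀ f ∈ W, (fun x => f (σ x)) ∈ W at hσ
    change ∀ a b : Ω, a ≠ b → ∃ g ∈ G, ({g a, g b} : Set Ω) = {σ a, σ b}
    intro a b hab
    let M : Matrix Ω Ω ℝ := fun x y => if ∃ g ∈ G, ({g a, g b} : Set Ω) = {x, y} then 1 else 0
    have hMs : ∀ x y, M x y = M y x := by
      intro x y
      simp only [M]
      rw [Set.pair_comm x y]
    have hM : M.IsHermitian := by
      ext x y
      simp only [Matrix.conjTranspose_apply, star_trivial]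
      exact hMs y x
    have hG : ∀ g ∈ G, ∀ x y, M (g x) (g y) = M x y := by
      intro g hg x y
      have : (∃ h ∈ G, ({h a, h b} : Set Ω) = {g x, g y}) ↔ (∃ h ∈ G, ({h a, h b} : Set Ω) = {x, y}) := by
        constructor
        · rintro ⟨h, hh, he⟩
          refine ⟨g⁻¹ * h, G.mul_mem (G.inv_mem hg) hh, ?_⟩
          have := congrArg (fun s : Set Ω => (g⁻¹ : Equiv.Perm Ω) '' s) he
          simpa [Set.image_pair] using this
        · rintro ⟨h, hh, he⟩
          refine ⟨g * h, G.mul_mem hg hh, ?_⟩
          have := congrArg (fun s : Set Ω => (g : Equiv.Perm Ω) '' s) he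
          simpa [Set.image_pair] using this
      simp only [M, this]
    have h := matrix_invariant_of_submodule G σ hσ M hM hG a b
    have hab1 : M a b = 1 := by
      simp only [M]
      rw [if_pos]
      exact ⟨1, G.one_mem, by simp⟩
    rw [hab1] at h
    by_contra hne
    simp only [M] at h
    rw [if_neg hne] at h
    exact zero_ne_one h
  · -- strong 2-closure is contained in the real closure
    intro hσ
    change ∀ a b : Ω, a ≠ b → ∃ g ∈ G, ({g a, g b} : Set Ω) = {σ a, σ b} at hσ
    change ∀ W : Submodule ℝ (Ω → ℝ),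
              (∀ g ∈ G, ∀ f ∈ W, (fun x => f (g x)) ∈ W) →
                ∀ f ∈ W, (fun x => f (σ x)) ∈ W
    -- points: the permutation `σ` preserves each orbit on points
    have hpt : ∀ x : Ω, ∃ g ∈ G, g x = σ x := by
      intro x
      -- choose two further points
      have h1 : ∃ y z : Ω, x ≠ y ∧ x ≠ z ∧ y ≠ z := by
        have h2 : 2 < (Finset.univ : Finset Ω).card := by
          rw [Finset.card_univ]; omega
        have h3 : 1 < ((Finset.univ : Finset Ω).erase x).card := by
          rw [Finset.card_erase_of_mem (Finset.mem_univ x)]; omega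
        obtain ⟨y, hy, z, hz, hyz⟩ := Finset.one_lt_card.mp h3
        exact ⟨y, z, (Finset.ne_of_mem_erase hy).symm, (Finset.ne_of_mem_erase hz).symm, hyz⟩
      obtain ⟨y, z, hxy, hxz, hyz⟩ := h1
      have split : ∀ u v : Ω, u ≠ v → ∃ g ∈ G, (g u = σ u ∧ g v = σ v) ∨ (g u = σ v ∧ g v = σ u) := by
        intro u v huv
        obtain ⟨g, hg, he⟩ := hσ u v huv
        refine ⟨g, hg, ?_⟩
        rcases Set.pair_eq_pair_iff.mp he with h | h
        · exact Or.inl h
        · exact Or.inr h
      obtain ⟨g, hg, hg'⟩ := split x y hxy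
      rcases hg' with ⟨h1, _⟩ | ⟨h1, h2⟩
      · exact ⟨g, hg, h1⟩
      obtain ⟨h, hh, hh'⟩ := split x z hxz
      rcases hh' with ⟨h3, _⟩ | ⟨h3, h4⟩
      · exact ⟨h, hh, h3⟩
      -- now g x = σ y, g y = σ x, h x = σ z, h z = σ x
      obtain ⟨k, hk, hk'⟩ := split y z hyz
      rcases hk' with ⟨h5, _⟩ | ⟨h5, h6⟩
      · -- k y = σ y = g x, so y = k⁻¹ g x and σ x = g y = g k⁻¹ g x
        refine ⟨g * k⁻¹ * g, G.mul_mem (G.mul_mem hg (G.inv_mem hk)) hg, ?_⟩
        simp only [Equiv.Perm.coe_mul, Function.comp_apply]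
        rw [h1, ← h5]
        simp [h2]
      · -- k y = σ z = h x, so y = k⁻¹ h x and σ x = g y
        refine ⟨g * k⁻¹ * h, G.mul_mem (G.mul_mem hg (G.inv_mem hk)) hh, ?_⟩
        simp only [Equiv.Perm.coe_mul, Function.comp_apply]
        rw [h3, ← h5]
        simp [h2]
    intro W hW
    apply submodule_invariant_of_matrix G σ _ W hW
    intro M hMs hG x y
    by_cases hxy : x = y
    · subst hxy
      obtain ⟨g, hg, he⟩ := hpt x
      rw [← he]
      exact hG g hg x x
    · obtain ⟨g, hg, he⟩ := hσ x y hxy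
      rcases Set.pair_eq_pair_iff.mp he with ⟨h1, h2⟩ | ⟨h1, h2⟩
      · rw [← h1, ← h2]; exact hG g hg x y
      · rw [← h1, ← h2, hMs]; exact hG g hg x y

end Pool.Agent.S02941
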