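import Pool.Statements.S03205
import Pool.Agent.GamI.Main

set_option autoImplicit false
open CategoryTheory MonoidalCategory
open Pool Pool.MP_d74811_al

namespace Pool.Agent.S03205

/-- For every field of prime characteristic p, finite group G and finite-dimensional kG-module M, the limsup of (dimension of the non-projective part of the n-th tensor power of M)^(1/n) is an algebraic integer. -/
theorem result :
  ∀ (p : ℕ), p.Prime → ∀ (k : Type) [Field k] [CharP k p] (G : Type) [Group G] [Fintype G]
    (M : FDRep k G),
    IsIntegral ℤ (Filter.limsup (fun n : ℕ =>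
      ((sInf {d : ℕ | ∃ P : FDRep k G, Projective P ∧
          ∃ (i : P ⟶ (fun X : FDRep k G => X ⊗ M)^[n] (𝟙_ (FDRep k G)))
            (r : (fun X : FDRep k G => X ⊗ M)^[n] (𝟙_ (FDRep k G)) ⟶ P),
            i ≫ r = 𝟙 P ∧
            d = Module.finrank k ((fun X : FDRep k G => X ⊗ M)^[n] (𝟙_ (FDRep k G)))
                - Module.finrank k P} : ℕ) : ℝ) ^ ((1 : ℝ) / (n : ℝ))) Filter.atTop) := by
  intro p hp k _ _ G _ _ M
  exact Pool.Agent.GamI.main p hp k G M

end Pool.Agent.S03205
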