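import Pool.Statements.S03686
import Pool.Agent.MP_02b174_an.Main

set_option autoImplicit false
open Pool Pool.MP_02b174_an

namespace Pool.Agent.S03686

/-- The negation of the preceding statement: Every real Banach space with strictly convex norm whose unit sphere is metrizable in the weak topology has an equivalent norm N that is LUR: N(x)=N(u_n)=1 and N(u_n+x)→2 imply N(u_n−x)→0. -/
theorem result :
    ¬ (∀ (X : Type) [NormedAddCommGroup X] [NormedSpace ℝ X] [CompleteSpace X],
      StrictConvexSpace ℝ X →
      TopologicalSpace.MetrizableSpace ↥((toWeakSpace ℝ X) '' Metric.sphere (0 : X) 1) →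
      ∃ N : Seminorm ℝ X, ∃ c C : ℝ, 0 < c ∧ 0 < C ∧
        (∀ x : X, c * ‖x‖ ≤ N x ∧ N x ≤ C * ‖x‖) ∧
        ∀ (x : X) (u : ℕ → X), N x = 1 → (∀ n, N (u n) = 1) →
          Filter.Tendsto (fun n => N (u n + x)) Filter.atTop (nhds 2) →
          Filter.Tendsto (fun n => N (u n - x)) Filter.atTop (nhds 0)) := by
  exact Pool.Agent.MP02b.main

end Pool.Agent.S03686
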