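import Pool.Statements.S03700
import Pool.Agent.MP_03ede7_an.Main

set_option autoImplicit false
open MeasureTheory
open Pool Pool.MP_03ede7_an

namespace Pool.Agent.S03700

/-- The negation of the preceding statement: For every bounded open domain, horizon, C¹ payoff and initial density ≤1, every classical solution of the density-constrained MFG system gives a pair (ρ, ∇φ−∇p) whose cost J is ≤ that of every admissible competitor of the variational problem. -/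
theorem result :
    ¬ (∀ (d : ℕ), 1 ≤ d →
  ∀ (Ω : Set (EuclideanSpace ℝ (Fin d))), IsOpen Ω → Bornology.IsBounded Ω →
  ∀ (T : ℝ), 0 < T →
  ∀ (Φ : EuclideanSpace ℝ (Fin d) → ℝ), ContDiffOn ℝ 1 Φ (closure Ω) →
  ∀ (ρ₀ : EuclideanSpace ℝ (Fin d) → ℝ), IntegrableOn ρ₀ Ω → (∫ x in Ω, ρ₀ x) = 1 →
    (∀ᵐ x ∂(volume.restrict Ω), 0 ≤ ρ₀ x ∧ ρ₀ x ≤ 1) →
  ∀ (Adm : (ℝ → EuclideanSpace ℝ (Fin d) → ℝ) →
      (ℝ → EuclideanSpace ℝ (Fin d) → EuclideanSpace ℝ (Fin d)) → Prop),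
    (∀ ρ v, Adm ρ v ↔
      (AEMeasurable (Function.uncurry ρ) (volume.restrict (Set.Ioo 0 T ×ˢ Ω)) ∧
       AEMeasurable (Function.uncurry v) (volume.restrict (Set.Ioo 0 T ×ˢ Ω)) ∧
       (∀ t ∈ Set.Icc 0 T, IntegrableOn (ρ t) Ω ∧ (∫ x in Ω, ρ t x) = 1 ∧
          ∀ᵐ x ∂(volume.restrict Ω), 0 ≤ ρ t x ∧ ρ t x ≤ 1) ∧
       (∫⁻ z in Set.Ioo 0 T ×ˢ Ω, ENNReal.ofReal (‖v z.1 z.2‖ ^ 2 * ρ z.1 z.2)) < ⊤ ∧
       (∀ᵐ x ∂(volume.restrict Ω), ρ 0 x = ρ₀ x) ∧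
       (∀ ψ : EuclideanSpace ℝ (Fin d) → ℝ, ContDiffOn ℝ 1 ψ (closure Ω) →
          (∃ K : NNReal, LipschitzOnWith K (fun t => ∫ x in Ω, ψ x * ρ t x) (Set.Icc 0 T)) ∧
          ∀ᵐ t ∂(volume.restrict (Set.Ioo 0 T)),
            HasDerivAt (fun s => ∫ x in Ω, ψ x * ρ s x)
              (∫ x in Ω, inner ℝ (gradient ψ x) (v t x) * ρ t x) t))) →
  ∀ (J : (ℝ → EuclideanSpace ℝ (Fin d) → ℝ) →
      (ℝ → EuclideanSpace ℝ (Fin d) → EuclideanSpace ℝ (Fin d)) → ℝ),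
    (∀ ρ v, J ρ v =
      (∫⁻ z in Set.Ioo 0 T ×ˢ Ω, ENNReal.ofReal (‖v z.1 z.2‖ ^ 2 / 2 * ρ z.1 z.2)).toReal
        - ∫ x in Ω, Φ x * ρ T x) →
  ∀ (φ p : ℝ × EuclideanSpace ℝ (Fin d) → ℝ) (ρ : ℝ → EuclideanSpace ℝ (Fin d) → ℝ),
    ContDiffOn ℝ 1 φ (Set.Icc 0 T ×ˢ closure Ω) →
    ContDiffOn ℝ 1 p (Set.Icc 0 T ×ˢ closure Ω) →
    (∀ t ∈ Set.Ioo 0 T, ∀ x ∈ Ω,
      deriv (fun s => φ (s, x)) t + ‖gradient (fun y => φ (t, y)) x‖ ^ 2 / 2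
        = inner ℝ (gradient (fun y => φ (t, y)) x) (gradient (fun y => p (t, y)) x)) →
    (∀ x ∈ closure Ω, φ (T, x) = Φ x) →
    Adm ρ (fun t x => gradient (fun y => φ (t, y)) x - gradient (fun y => p (t, y)) x) →
    (∀ z ∈ Set.Icc 0 T ×ˢ closure Ω, 0 ≤ p z) →
    (∀ᵐ z ∂(volume.restrict (Set.Ioo 0 T ×ˢ Ω)), p z * (1 - ρ z.1 z.2) = 0) →
    ∀ (ρ' : ℝ → EuclideanSpace ℝ (Fin d) → ℝ)
      (v' : ℝ → EuclideanSpace ℝ (Fin d) → EuclideanSpace ℝ (Fin d)),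
      Adm ρ' v' →
      J ρ (fun t x => gradient (fun y => φ (t, y)) x - gradient (fun y => p (t, y)) x)
        ≤ J ρ' v') := by
  intro H
  obtain ⟨Ω, h1, h2, Φ, h3, ρ₀, h4, h5, h6, φ, p, ρ, h7, h8, h9, h10, h11, h12, h13, ρ', v', h14,
    h15⟩ := Pool.Agent.MFG.counterexample
  have := H 2 (by norm_num) Ω h1 h2 1 one_pos Φ h3 ρ₀ h4 h5 h6 (Pool.Agent.MFG.AdmE Ω ρ₀)
    (fun _ _ => Iff.rfl) (Pool.Agent.MFG.JE Ω Φ) (fun _ _ => rfl) φ p ρ h7 h8 h9 h10 h11 h12 h13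
    ρ' v' h14
  exact absurd this (not_le.2 h15)

end Pool.Agent.S03700
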