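import Pool.Statements.S03866
import Pool.Agent.MP_12605b_an.Assembly

set_option autoImplicit false
open MeasureTheory
open Pool Pool.MP_12605b_an

namespace Pool.Agent.S03866

/-- The negation of the preceding statement: For every nonzero discrete finite measure μ on the circle there is δ>0 such that each continuous singular inner function S_ν differs from S_μ by more than δ at some point of the open unit disk. -/
theorem result :
    ¬ (∀ μ : Measure ℝ, IsFiniteMeasure μ → μ (Set.Ico 0 (2 * Real.pi))ᶜ = 0 → μ ≠ 0 →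
      (∃ C : Set ℝ, C.Countable ∧ μ Cᶜ = 0) →
      ∃ δ : ℝ, 0 < δ ∧
        ∀ ν : Measure ℝ, IsFiniteMeasure ν → ν (Set.Ico 0 (2 * Real.pi))ᶜ = 0 →
          ν.MutuallySingular volume → (∀ x : ℝ, ν {x} = 0) →
          ∃ z : ℂ, ‖z‖ < 1 ∧
            δ < ‖Complex.exp (-∫ θ, (Complex.exp ((θ : ℂ) * Complex.I) + z) /
                    (Complex.exp ((θ : ℂ) * Complex.I) - z) ∂μ)
                - Complex.exp (-∫ θ, (Complex.exp ((θ : ℂ) * Complex.I) + z) /
                    (Complex.exp ((θ : ℂ) * Complex.I) - z) ∂ν)‖) := by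
  intro h
  obtain ⟨μ, ⟨hμf, hμI, hμD⟩, hμ0, H⟩ := Pool.Agent.MP_12605b_an.main_exists
  have hsub : (Set.Ico 0 (2 * Real.pi))ᶜ ⊆ (Set.Ioo 0 (2 * Real.pi))ᶜ :=
    Set.compl_subset_compl.2 Set.Ioo_subset_Ico_self
  obtain ⟨δ, hδ, hν⟩ := h μ hμf (measure_mono_null hsub hμI) hμ0 hμD
  obtain ⟨ν, ⟨hνf, hνI, hνs, hνa⟩, hclose⟩ := H δ hδ
  obtain ⟨z, hz, hlt⟩ := hν ν hνf (measure_mono_null hsub hνI) hνs hνa
  have h2 := hclose z hz
  exact absurd h2 (not_le.2 hlt)

end Pool.Agent.S03866
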