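import Pool.Statements.S03875
import Pool.Agent.Loc.Final

set_option autoImplicit false
open Pool Pool.MP_1366af_an

namespace Pool.Agent.S03875

/-- The set of complex z such that, for some ±1 sequence b, the operator (Ax)_n = x_{n+1} + b_{n-1} x_{n-1} minus z has no bounded inverse on ℓ²(ℤ) (the Feinberg–Zee spectrum) is simply connected. -/
theorem result :
    SimplyConnectedSpace {z : ℂ | ∃ b : ℤ → ℂ, (∀ n, b n = 1 ∨ b n = -1) ∧
      ¬ ∃ B : lp (fun _ : ℤ => ℂ) 2 →L[ℂ] lp (fun _ : ℤ => ℂ) 2,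
        ∀ x y : lp (fun _ : ℤ => ℂ) 2,
          (∀ n : ℤ, y n = x (n + 1) + b (n - 1) * x (n - 1) - z * x n) ↔ B y = x} := by
  exact Pool.Agent.Loc.simply

end Pool.Agent.S03875
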