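import Pool.Statements.S04043
import Pool.Agent.H76Brennan.Main

set_option autoImplicit false
open Pool Pool.MP_21693b_an

namespace Pool.Agent.S04043

/-- There is r>0 such that for every bounded simply connected Ω, conformal φ onto the disk, and weight W(1-∣φ∣) with W positive, increasing, →0 at 0 and divergent loglog integral, polynomials are dense in the analytic functions of weighted L^p, 1≤p<3+r. -/
theorem result :
  ∃ r : ℝ, 0 < r ∧ ∀ (Ω : Set ℂ) (φ : ℂ → ℂ) (W : ℝ → ℝ),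
    IsOpen Ω → Bornology.IsBounded Ω → SimplyConnectedSpace ↥Ω →
    DifferentiableOn ℂ φ Ω → Set.BijOn φ Ω (Metric.ball (0 : ℂ) 1) →
    (∀ t ∈ Set.Ioc (0 : ℝ) 1, 0 < W t) → MonotoneOn W (Set.Ioc (0 : ℝ) 1) →
    (∃ M : ℝ, ∀ t ∈ Set.Ioc (0 : ℝ) 1, W t ≤ M) →
    Filter.Tendsto W (nhdsWithin (0 : ℝ) (Set.Ioi 0)) (nhds 0) →
    (∀ δ : ℝ, 0 < δ → ¬ MeasureTheory.IntegrableOn
        (fun t : ℝ => Real.log (Real.log (1 / W t))) (Set.Ioo (0 : ℝ) δ)) →
    ∀ p : ℝ, 1 ≤ p → p < 3 + r →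
    ∀ f : ℂ → ℂ, DifferentiableOn ℂ f Ω →
      MeasureTheory.MemLp f (ENNReal.ofReal p)
        (((MeasureTheory.volume : MeasureTheory.Measure ℂ).restrict Ω).withDensity
          (fun z => ENNReal.ofReal (W (1 - ‖φ z‖)))) →
      ∀ ε : ℝ, 0 < ε → ∃ P : Polynomial ℂ,
        MeasureTheory.eLpNorm (fun z => f z - P.eval z) (ENNReal.ofReal p)
          (((MeasureTheory.volume : MeasureTheory.Measure ℂ).restrict Ω).withDensity
            (fun z => ENNReal.ofReal (W (1 - ‖φ z‖)))) < ENNReal.ofReal ε := by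
  refine ⟨1, one_pos, ?_⟩
  intro Ω φ W hΩ hb _ hφ hbij hWpos hWmono _ hlim hdiv p hp1 hp4 f hf hfL ε hε
  obtain ⟨ψ, R, h⟩ := Pool.Agent.H76Brennan.exists_conf hΩ hb hφ hbij
  exact h.complete ⟨hWpos, hWmono⟩ hlim hdiv hp1 (by linarith) hf hfL hε

end Pool.Agent.S04043
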