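import Pool.Statements.S04462
import Pool.Agent.MP_413ec1_an.Main

set_option autoImplicit false
open Pool Pool.MP_413ec1_an

open Filter Topology MeasureTheory Set
open scoped NNReal BoundedContinuousFunction

namespace Pool.Agent.Cogen

/-- The inverse Cayley factor. -/
noncomputable def ww (y : ℝ) : ℂ := (Complex.I * (y : ℂ) + 1) / (Complex.I * (y : ℂ) - 1)

lemma den_ne (y : ℝ) : Complex.I * (y : ℂ) - 1 ≠ 0 := by
  intro h
  have := congrArg Complex.re h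
  simp at this

lemma num_ne (y : ℝ) : Complex.I * (y : ℂ) + 1 ≠ 0 := by
  intro h
  have := congrArg Complex.re h
  simp at this

lemma norm_ww (y : ℝ) : ‖ww y‖ = 1 := by
  unfold ww
  rw [norm_div, div_eq_one_iff_eq (by simpa using den_ne y)]
  have h1 : Complex.normSq (Complex.I * (y : ℂ) + 1) = Complex.normSq (Complex.I * (y : ℂ) - 1) := by
    rw [Complex.normSq_apply, Complex.normSq_apply]
    simp
  rw [Complex.norm_def, Complex.norm_def, h1]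

lemma ww_ne (y : ℝ) : ww y ≠ 0 := by
  intro h
  have := norm_ww y
  rw [h, norm_zero] at this
  norm_num at this

lemma one_add_sq_ne (y : ℝ) : (1 + (y : ℂ) ^ 2) ≠ 0 := by
  have : (0 : ℝ) < 1 + y ^ 2 := by positivity
  exact_mod_cast this.ne'

lemma hasDerivAt_ww (y : ℝ) :
    HasDerivAt ww (Complex.I * ((2 / (1 + y ^ 2) : ℝ) : ℂ) * ww y) y := by
  have h0 : HasDerivAt (fun y : ℝ => (y : ℂ)) 1 y := (hasDerivAt_id y).ofReal_comp
  have h1 : HasDerivAt (fun y : ℝ => Complex.I * (y : ℂ) + 1) (Complex.I * 1) y :=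
    (h0.const_mul _).add_const _
  have h2 : HasDerivAt (fun y : ℝ => Complex.I * (y : ℂ) - 1) (Complex.I * 1) y :=
    (h0.const_mul _).sub_const _
  have h3 := h1.fun_div h2 (den_ne y)
  have e : (Complex.I * 1 * (Complex.I * (y : ℂ) - 1) - (Complex.I * (y : ℂ) + 1) * (Complex.I * 1)) /
      (Complex.I * (y : ℂ) - 1) ^ 2 = Complex.I * ((2 / (1 + y ^ 2) : ℝ) : ℂ) * ww y := by
    unfold ww
    have hd := den_ne y
    have hs := one_add_sq_ne y
    push_cast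
    rw [div_eq_iff (pow_ne_zero 2 hd)]
    have : Complex.I * (2 / (1 + (y : ℂ) ^ 2)) *
        ((Complex.I * (y : ℂ) + 1) / (Complex.I * (y : ℂ) - 1)) * (Complex.I * (y : ℂ) - 1) ^ 2 =
        2 * Complex.I * ((Complex.I * (y : ℂ) + 1) * (Complex.I * (y : ℂ) - 1)) /
          (1 + (y : ℂ) ^ 2) := by
      field_simp
    rw [this, eq_div_iff hs]
    have hI := Complex.I_sq
    linear_combination (-2 * Complex.I * (y : ℂ) ^ 2) * hI
  rw [e] at h3
  exact h3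

lemma hasDerivAt_ww_pow (n : ℕ) (y : ℝ) :
    HasDerivAt (fun y => ww y ^ n) (Complex.I * ((2 * n / (1 + y ^ 2) : ℝ) : ℂ) * ww y ^ n) y := by
  have h := (hasDerivAt_ww y).fun_pow n
  refine h.congr_deriv ?_
  rcases Nat.eq_zero_or_pos n with h0 | h0
  · subst h0; simp
  · have e : ww y ^ n = ww y ^ (n - 1) * ww y := by
      rw [← pow_succ]; congr 1; omega
    rw [e]
    push_cast
    ring

lemma hasDerivAt_ker (q : QQ) {y : ℝ} (hy : y ≠ 0) :
    HasDerivAt (fun y => ker y q)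
      (Complex.I * ((-(q.1 : ℝ) - (q.2 : ℝ) / y ^ 2 : ℝ) : ℂ) * ker y q) y := by
  unfold ker
  have h1 : HasDerivAt (fun y : ℝ => -((q.1 : ℝ) * y) + (q.2 : ℝ) / y)
      (-(q.1 : ℝ) - (q.2 : ℝ) / y ^ 2) y := by
    have a1 : HasDerivAt (fun y : ℝ => -((q.1 : ℝ) * y)) (-((q.1 : ℝ) * 1)) y :=
      ((hasDerivAt_id y).const_mul _).neg
    have a2 : HasDerivAt (fun y : ℝ => (q.2 : ℝ) * y⁻¹) ((q.2 : ℝ) * (-(y ^ 2)⁻¹)) y :=
      (hasDerivAt_inv hy).const_mul _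
    have a3 := a1.fun_add a2
    have e : (fun y : ℝ => -((q.1 : ℝ) * y) + (q.2 : ℝ) / y) =
        fun y : ℝ => -((q.1 : ℝ) * y) + (q.2 : ℝ) * y⁻¹ := by
      funext z; rw [div_eq_mul_inv]
    rw [e]
    refine a3.congr_deriv ?_
    ring
  have h2 := (h1.ofReal_comp.mul_const Complex.I).cexp
  refine h2.congr_deriv ?_
  ring

/-- The wave packets whose image under the powers of the cogenerator is fixed are small. -/
lemma packet_bound (n : ℕ) (hn : 1 ≤ n) {δ : ℝ} (hδ : 0 < δ) (q : QQ) :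
    ‖∫ y in (1/4 : ℝ)..(1/2), ww y ^ n * ker y q‖ ≤ 6 * δ + 16 / ((n / 2 : ℝ) * δ ^ 2) := by
  have hn' : (1 : ℝ) ≤ n := by exact_mod_cast hn
  have hpos : ∀ y ∈ Icc (1/4 : ℝ) (1/2), 0 < y := fun y hy => by linarith [hy.1]
  refine vdC3 (p := fun y => 2 * n / (1 + y ^ 2) + (-(q.1 : ℝ) - (q.2 : ℝ) / y ^ 2))
    (p' := fun y => -(4 * n * y) / (1 + y ^ 2) ^ 2 + 2 * (q.2 : ℝ) / y ^ 3)
    (p'' := fun y => -(4 * n * (1 - 3 * y ^ 2)) / (1 + y ^ 2) ^ 3 - 6 * (q.2 : ℝ) / y ^ 4)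
    (by norm_num) ?_ ?_ ?_ ?_ (by positivity) hδ ?_
  · intro y hy
    have h1 := (hasDerivAt_ww_pow n y).fun_mul (hasDerivAt_ker q (hpos y hy).ne')
    refine h1.congr_deriv ?_
    push_cast
    ring
  · intro y hy
    have hy0 := (hpos y hy).ne'
    have hs : (1 + y ^ 2) ≠ 0 := by positivity
    have a0 : HasDerivAt (fun y : ℝ => 1 + y ^ 2) (2 * y) y := by
      have := ((hasDerivAt_id' y).fun_pow 2).const_add (1 : ℝ)
      exact this.congr_deriv (by simp)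
    have a1 := (a0.fun_inv hs).const_mul (2 * n : ℝ)
    have a2 : HasDerivAt (fun y : ℝ => y ^ 2) (2 * y) y := by
      have := (hasDerivAt_id' y).fun_pow 2
      exact this.congr_deriv (by simp)
    have a3 := ((a2.fun_inv (pow_ne_zero 2 hy0)).const_mul (q.2 : ℝ)).const_sub (-(q.1 : ℝ))
    have a4 := a1.fun_add a3
    simp only [div_eq_mul_inv]
    refine a4.congr_deriv ?_
    field_simp
    ring
  · intro y hy
    have hy0 := (hpos y hy).ne'
    have hs : (1 + y ^ 2) ≠ 0 := by positivity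
    have a0 : HasDerivAt (fun y : ℝ => 1 + y ^ 2) (2 * y) y := by
      have := ((hasDerivAt_id' y).fun_pow 2).const_add (1 : ℝ)
      exact this.congr_deriv (by simp)
    have a1 : HasDerivAt (fun y : ℝ => (1 + y ^ 2) ^ 2) (2 * (1 + y ^ 2) * (2 * y)) y := by
      have := a0.fun_pow 2
      exact this.congr_deriv (by simp)
    have b1 : HasDerivAt (fun y : ℝ => -(4 * n * y)) (-(4 * n * 1)) y :=
      ((hasDerivAt_id' y).const_mul (4 * n : ℝ)).neg
    have b2 := b1.fun_div a1 (pow_ne_zero 2 hs)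
    have a2 : HasDerivAt (fun y : ℝ => y ^ 3) (3 * y ^ 2) y := by
      have := (hasDerivAt_id' y).fun_pow 3
      exact this.congr_deriv (by simp)
    have a3 := a2.fun_inv (pow_ne_zero 3 hy0)
    have a3' := a3.const_mul (2 * (q.2 : ℝ))
    have a4 := b2.fun_add a3'
    have e : (fun y : ℝ => -(4 * n * y) / (1 + y ^ 2) ^ 2 + 2 * (q.2 : ℝ) / y ^ 3) =
        fun y : ℝ => -(4 * n * y) / (1 + y ^ 2) ^ 2 + 2 * (q.2 : ℝ) * (y ^ 3)⁻¹ := by
      funext z; rw [div_eq_mul_inv (2 * (q.2 : ℝ))]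
    rw [e]
    refine a4.congr_deriv ?_
    field_simp
    ring
  · intro y _
    rw [norm_mul, norm_pow, norm_ww, one_pow, norm_ker, one_mul]
  · intro y hy
    have h1 : (1/4 : ℝ) ≤ y := hy.1
    have h2 : y ≤ 1/2 := hy.2
    have hy2 : y ^ 2 ≤ 1/4 := by nlinarith
    have hq : 0 ≤ 6 * (q.2 : ℝ) / y ^ 4 := by positivity
    have h3 : (n : ℝ) / 2 ≤ (4 * n * (1 - 3 * y ^ 2)) / (1 + y ^ 2) ^ 3 := by
      rw [le_div_iff₀ (by positivity)]
      have e1 : (1 + y ^ 2) ^ 3 ≤ 2 := by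
        have : 1 + y ^ 2 ≤ 5/4 := by linarith
        calc (1 + y ^ 2) ^ 3 ≤ (5/4) ^ 3 := by gcongr
          _ ≤ 2 := by norm_num
      have e2 : (1 : ℝ) ≤ 4 * (1 - 3 * y ^ 2) := by linarith
      calc (n : ℝ) / 2 * (1 + y ^ 2) ^ 3 ≤ (n : ℝ) / 2 * 2 := by gcongr
        _ = n * 1 := by ring
        _ ≤ n * (4 * (1 - 3 * y ^ 2)) := by gcongr
        _ = 4 * n * (1 - 3 * y ^ 2) := by ring
    have h4 : -(4 * n * (1 - 3 * y ^ 2)) / (1 + y ^ 2) ^ 3 =
        -((4 * n * (1 - 3 * y ^ 2)) / (1 + y ^ 2) ^ 3) := by ring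
    simp only [h4]
    linarith

end Pool.Agent.Cogen

namespace Pool.Agent.S04462

open Pool.Agent.Cogen

theorem result :
    ¬ (∀ (E : Type) [NormedAddCommGroup E] [NormedSpace ℂ E] [CompleteSpace E]
      (T S : ℝ → E →L[ℂ] E),
      T 0 = 1 → S 0 = 1 →
      (∀ s t : ℝ, 0 ≤ s → 0 ≤ t → T (s + t) = T s * T t) →
      (∀ s t : ℝ, 0 ≤ s → 0 ≤ t → S (s + t) = S s * S t) →
      (∀ x : E, ContinuousOn (fun t : ℝ => T t x) (Set.Ici 0)) →
      (∀ x : E, ContinuousOn (fun t : ℝ => S t x) (Set.Ici 0)) →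
      (∃ M : ℝ, ∀ t : ℝ, 0 ≤ t → ‖T t‖ ≤ M) →
      (∃ M : ℝ, ∀ t : ℝ, 0 ≤ t → ‖S t‖ ≤ M) →
      (∀ x y : E,
        Tendsto (fun t : ℝ => t⁻¹ • (T t x - x)) (𝓝[>] 0) (𝓝 y) ↔
          Tendsto (fun t : ℝ => t⁻¹ • (S t y - y)) (𝓝[>] 0) (𝓝 x)) →
      ∀ V : E →L[ℂ] E,
        (∀ x y : E, Tendsto (fun t : ℝ => t⁻¹ • (T t x - x)) (𝓝[>] 0) (𝓝 y) →
          V (y - x) = y + x) →
        ∃ C : ℝ, ∀ n : ℕ, ‖V ^ n‖ ≤ C) := by
  intro H
  obtain ⟨C, hC⟩ := H EE TT SS TT_mul.csg.zero SS_mul.csg.zero TT_mul.csg.add SS_mul.csg.add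
    TT_mul.csg.cont SS_mul.csg.cont ⟨1, TT_mul.csg.bound⟩ ⟨1, SS_mul.csg.bound⟩
    (fun x y => by
      rw [TT_mul.csg.gen_iff, SS_mul.csg.gen_iff]
      exact gen_rel x y)
    VV (fun x y h => VV_spec x y ((TT_mul.csg.gen_iff x y).mp h))
  have hC0 : 0 ≤ C := (norm_nonneg _).trans (hC 0)
  have key : ∀ n : ℕ, 1 ≤ n → ∀ δ : ℝ, 0 < δ →
      1 / 4 ≤ C * (6 * δ + 16 / ((n / 2 : ℝ) * δ ^ 2)) := by
    intro n hn δ hδ
    have hcont : ContinuousOn (fun y => ww y ^ n) (Icc (1/4) (1/2)) := fun y _ =>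
      (hasDerivAt_ww_pow n y).continuousAt.continuousWithinAt
    obtain ⟨φ, hφ⟩ := exists_repE hcont
    have h1 : ‖φ‖ ≤ 6 * δ + 16 / ((n / 2 : ℝ) * δ ^ 2) := by
      have h2 : ‖(φ : BB)‖ ≤ 6 * δ + 16 / ((n / 2 : ℝ) * δ ^ 2) := by
        rw [BoundedContinuousFunction.norm_le (by positivity)]
        intro q
        rw [hφ.2 q]
        exact packet_bound n hn hδ q
      exact h2
    have h3 := VV_pow_rep n hφ
    have h4 : ((VV ^ n) φ : BB) ((0 : ℝ≥0), (0 : ℝ≥0)) = 1 / 4 := by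
      rw [h3.2]
      have e : ∀ y ∈ uIcc (1/4 : ℝ) (1/2),
          (1 - 2 * (1 + Complex.I * (y : ℂ))⁻¹) ^ n * ww y ^ n *
            Cogen.ker y ((0 : ℝ≥0), (0 : ℝ≥0)) = 1 := by
        intro y _
        have k0 : Cogen.ker y ((0 : ℝ≥0), (0 : ℝ≥0)) = 1 := by
          unfold Cogen.ker
          simp
        have h5 : (1 - 2 * (1 + Complex.I * (y : ℂ))⁻¹) * ww y = 1 := by
          unfold ww
          have hd := den_ne y
          have hn := num_ne y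
          have hn2 : 1 + Complex.I * (y : ℂ) ≠ 0 := by rwa [add_comm]
          field_simp
          ring
        rw [k0, ← mul_pow, h5, one_pow, mul_one]
      rw [intervalIntegral.integral_congr e]
      simp
      norm_num
    have h6 : (1 / 4 : ℝ) ≤ ‖(VV ^ n) φ‖ := by
      have h7 : ‖((VV ^ n) φ : BB) ((0 : ℝ≥0), (0 : ℝ≥0))‖ ≤ ‖((VV ^ n) φ : BB)‖ :=
        BoundedContinuousFunction.norm_coe_le_norm _ _
      rw [h4] at h7
      have h8 : ‖(1 / 4 : ℂ)‖ = 1 / 4 := by norm_num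
      rw [h8] at h7
      exact h7
    calc (1 / 4 : ℝ) ≤ ‖(VV ^ n) φ‖ := h6
      _ ≤ ‖VV ^ n‖ * ‖φ‖ := (VV ^ n).le_opNorm φ
      _ ≤ C * (6 * δ + 16 / ((n / 2 : ℝ) * δ ^ 2)) := by
          gcongr
          exact hC n
  -- choose parameters
  set D : ℝ := C + 1 with hD
  have hD1 : 1 ≤ D := by linarith
  set δ : ℝ := 1 / (48 * D) with hδ
  have hδ0 : 0 < δ := by positivity
  obtain ⟨n, hn⟩ := exists_nat_gt (512 * D / δ ^ 2)
  have hn1 : 1 ≤ n := by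
    have h0 : (0 : ℝ) < n := lt_of_le_of_lt (by positivity) hn
    exact_mod_cast h0
  have hn0 : (0 : ℝ) < n := by exact_mod_cast hn1
  have h := key n hn1 δ hδ0
  have h1 : C * (6 * δ + 16 / ((n / 2 : ℝ) * δ ^ 2)) ≤ D * (6 * δ + 16 / ((n / 2 : ℝ) * δ ^ 2)) := by
    gcongr
    linarith
  have h2 : D * (6 * δ) = 1 / 8 := by
    rw [hδ]; field_simp; norm_num
  have h3 : D * (16 / ((n / 2 : ℝ) * δ ^ 2)) < 1 / 8 := by
    have e1 : D * (16 / ((n / 2 : ℝ) * δ ^ 2)) = 32 * D / (n * δ ^ 2) := by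
      field_simp
      norm_num
    rw [e1, div_lt_iff₀ (by positivity)]
    rw [div_lt_iff₀ (by positivity)] at hn
    nlinarith
  have h4 : D * (6 * δ + 16 / ((n / 2 : ℝ) * δ ^ 2)) < 1 / 4 := by
    rw [mul_add, h2]
    linarith
  linarith

end Pool.Agent.S04462
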