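import Pool.Statements.S04530
import Pool.Agent.MP_44d275_an.Main

set_option autoImplicit false
open Pool Pool.MP_44d275_an

namespace Pool.Agent.S04530

/-- The negation of the preceding statement: For every n and every finite family of pairwise disjoint closed Euclidean balls of positive radius in C^n, each point outside their union is separated by a polynomial whose modulus there exceeds its modulus everywhere on the union. -/
theorem result :
    ¬ (∀ (n k : ℕ) (c : Fin k → (Fin n → ℂ)) (r : Fin k → ℝ),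
      (∀ i, 0 < r i) →
      (∀ i j, i ≠ j →
        Disjoint {ζ : Fin n → ℂ | ∑ m, ‖ζ m - c i m‖ ^ 2 ≤ r i ^ 2}
                 {ζ : Fin n → ℂ | ∑ m, ‖ζ m - c j m‖ ^ 2 ≤ r j ^ 2}) →
      ∀ z : Fin n → ℂ,
        (∀ i, r i ^ 2 < ∑ m, ‖z m - c i m‖ ^ 2) →
        ∃ P : MvPolynomial (Fin n) ℂ,
          ∀ i, ∀ ζ : Fin n → ℂ, ∑ m, ‖ζ m - c i m‖ ^ 2 ≤ r i ^ 2 →
            ‖MvPolynomial.eval ζ P‖ < ‖MvPolynomial.eval z P‖) := by
  intro Hyp
  exact KallinCex.main Hyp

end Pool.Agent.S04530
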