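import Pool.Statements.S04980
import Pool.Agent.MP_6ded3d_an.Minimal

set_option autoImplicit false
open MeasureTheory Set
open Pool Pool.MP_6ded3d_an

namespace Pool.Agent.S04980

/-- The negation of the preceding statement: For all n≥2, bounded domains Ω, p>1 and homeomorphic g of finite distortion with L^p inner distortion, every homeomorphism with g's boundary values minimizing the L^p inner-distortion energy is a C^∞ diffeomorphism of Ω onto g(Ω). -/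
theorem result :
    ¬ (∀ (n : ℕ), 2 ≤ n →
  ∀ (Ω : Set (EuclideanSpace ℝ (Fin n))), IsOpen Ω → IsConnected Ω → Bornology.IsBounded Ω →
  ∀ (opNorm : Matrix (Fin n) (Fin n) ℝ → ℝ),
    (∀ A : Matrix (Fin n) (Fin n) ℝ,
      opNorm A = ‖LinearMap.toContinuousLinearMap (Matrix.toEuclideanLin A)‖) →
  ∀ (FD : (EuclideanSpace ℝ (Fin n) → EuclideanSpace ℝ (Fin n)) →
      (EuclideanSpace ℝ (Fin n) → Matrix (Fin n) (Fin n) ℝ) → Prop),
    (∀ (f : EuclideanSpace ℝ (Fin n) → EuclideanSpace ℝ (Fin n))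
       (Df : EuclideanSpace ℝ (Fin n) → Matrix (Fin n) (Fin n) ℝ),
      FD f Df ↔
      ((∀ i : Fin n, LocallyIntegrableOn (fun x => WithLp.ofLp (f x) i) Ω) ∧
       (∀ i j : Fin n, LocallyIntegrableOn (fun x => Df x i j) Ω) ∧
       (∀ φ : EuclideanSpace ℝ (Fin n) → ℝ,
          ContDiff ℝ ((⊤ : ℕ∞) : WithTop ℕ∞) φ → HasCompactSupport φ → tsupport φ ⊆ Ω →
          ∀ i j : Fin n,
            ∫ x in Ω, WithLp.ofLp (f x) i * fderiv ℝ φ x (EuclideanSpace.single j (1 : ℝ))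
              = - ∫ x in Ω, Df x i j * φ x) ∧
       LocallyIntegrableOn (fun x => (Df x).det) Ω ∧
       (∀ᵐ x ∂(volume.restrict Ω), 0 ≤ (Df x).det) ∧
       ∃ K : EuclideanSpace ℝ (Fin n) → ℝ, Measurable K ∧ (∀ x ∈ Ω, 1 ≤ K x) ∧
         ∀ᵐ x ∂(volume.restrict Ω), opNorm (Df x) ^ n ≤ K x * (Df x).det)) →
  ∀ (KI : (EuclideanSpace ℝ (Fin n) → Matrix (Fin n) (Fin n) ℝ) → EuclideanSpace ℝ (Fin n) → ℝ),
    (∀ (Df : EuclideanSpace ℝ (Fin n) → Matrix (Fin n) (Fin n) ℝ) (x : EuclideanSpace ℝ (Fin n)),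
      KI Df x = if 0 < (Df x).det
        then opNorm (Df x).adjugate ^ n / (Df x).det ^ (n - 1) else 1) →
  ∀ p : ℝ, 1 < p →
  ∀ g : EuclideanSpace ℝ (Fin n) → EuclideanSpace ℝ (Fin n),
    ContinuousOn g (closure Ω) → InjOn g (closure Ω) → g '' closure Ω = closure (g '' Ω) →
    (∃ Dg : EuclideanSpace ℝ (Fin n) → Matrix (Fin n) (Fin n) ℝ,
      FD g Dg ∧ ∫⁻ x in Ω, ENNReal.ofReal (KI Dg x ^ p) < ⊤) →
  ∀ (f : EuclideanSpace ℝ (Fin n) → EuclideanSpace ℝ (Fin n))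
    (Df : EuclideanSpace ℝ (Fin n) → Matrix (Fin n) (Fin n) ℝ),
    ContinuousOn f (closure Ω) → InjOn f (closure Ω) → f '' closure Ω = closure (g '' Ω) →
    (∀ x ∈ frontier Ω, f x = g x) → FD f Df →
    (∀ (h : EuclideanSpace ℝ (Fin n) → EuclideanSpace ℝ (Fin n))
       (Dh : EuclideanSpace ℝ (Fin n) → Matrix (Fin n) (Fin n) ℝ),
       ContinuousOn h (closure Ω) → InjOn h (closure Ω) → h '' closure Ω = closure (g '' Ω) →
       (∀ x ∈ frontier Ω, h x = g x) → FD h Dh →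
       ∫⁻ x in Ω, ENNReal.ofReal (KI Df x ^ p) ≤ ∫⁻ x in Ω, ENNReal.ofReal (KI Dh x ^ p)) →
    (f '' Ω = g '' Ω ∧ ContDiffOn ℝ ((⊤ : ℕ∞) : WithTop ℕ∞) f Ω ∧
      ∃ f' : EuclideanSpace ℝ (Fin n) → EuclideanSpace ℝ (Fin n),
        MapsTo f' (g '' Ω) Ω ∧ (∀ x ∈ Ω, f' (f x) = x) ∧ (∀ y ∈ g '' Ω, f (f' y) = y) ∧
        ContDiffOn ℝ ((⊤ : ℕ∞) : WithTop ℕ∞) f' (g '' Ω))) := by
  intro H
  open Pool.Agent.MP_6ded3d_an in
  have key := H 2 le_rfl Om isOpen_Om (Metric.isConnected_ball one_pos) Metric.isBounded_ball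
    opN (fun _ => rfl) (FDp Om) (fun _ _ => Iff.rfl) (fun Df x => KIm (Df x)) (fun _ _ => rfl)
    2 (by norm_num) fex (by rw [closure_Om]; exact fex_cont) (by rw [closure_Om]; exact fex_inj)
    fex_image_closure ⟨Dfex, fex_FD, fex_energy⟩ fex Dfex (by rw [closure_Om]; exact fex_cont)
    (by rw [closure_Om]; exact fex_inj) fex_image_closure (fun _ _ => rfl) fex_FD
    (fun h Dh h1 h2 h3 h4 h5 => minimal h1 h2 h3 h4 h5)
  exact Pool.Agent.MP_6ded3d_an.not_smooth key.2.1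

end Pool.Agent.S04980
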