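import Pool.Statements.S05053
import Pool.Agent.MP_739d9d_an.Concrete

set_option autoImplicit false
open Filter Topology
open Pool Pool.MP_739d9d_an

namespace Pool.Agent.S05053

open Pool.Agent.MP_739d9d_an in
/-- For a finite group acting with the weak tracial Rokhlin property on an infinite-dimensional simple unital C*-algebra of stable rank one, both the crossed product (as covariant G×G matrices over A) and the fixed point algebra have dense invertibles. -/
theorem result :
  ∀ (A : Type) [CStarAlgebra A],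
    (∀ I : TwoSidedIdeal A, IsClosed (I : Set A) → (∀ x ∈ I, x = 0) ∨ (1 : A) ∈ I) →
    ¬ FiniteDimensional ℂ A →
    Dense {b : A | IsUnit b} →
    ∀ (G : Type) [Group G] [Fintype G] [DecidableEq G] (α : G → (A ≃⋆ₐ[ℂ] A)),
      (∀ a : A, α 1 a = a) →
      (∀ (g h : G) (a : A), α (g * h) a = α g (α h a)) →
      (∀ ε : ℝ, 0 < ε → ∀ F : Finset A, ∀ x : A, (∃ y : A, x = star y * y) → ‖x‖ = 1 →
        ∃ f : G → A,
          (∀ g, (∃ y : A, f g = star y * y) ∧ ‖f g‖ ≤ 1) ∧
          (∀ g h, g ≠ h → f g * f h = 0) ∧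
          (∀ g h, ‖α g (f h) - f (g * h)‖ < ε) ∧
          (∀ a ∈ F, ∀ g, ‖f g * a - a * f g‖ < ε) ∧
          (∃ v : ℕ → A, Tendsto (fun n => v n * x * star (v n)) atTop (𝓝 (1 - ∑ g, f g))) ∧
          1 - ε < ‖(∑ g, f g) * x * (∑ g, f g)‖) →
      (∀ M : Matrix G G A, (∃ c : G → A, ∀ h g, M h g = α h⁻¹ (c (h * g⁻¹))) →
        M ∈ closure {N : Matrix G G A |
          (∃ c : G → A, ∀ h g, N h g = α h⁻¹ (c (h * g⁻¹))) ∧
          ∃ N' : Matrix G G A,
            (∃ c : G → A, ∀ h g, N' h g = α h⁻¹ (c (h * g⁻¹))) ∧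
            N * N' = 1 ∧ N' * N = 1}) ∧
      (∀ a : A, (∀ g, α g a = a) → ∀ ε : ℝ, 0 < ε → ∃ b c : A,
          (∀ g, α g b = b) ∧ (∀ g, α g c = c) ∧ b * c = 1 ∧ c * b = 1 ∧ ‖a - b‖ < ε) := by
  intro A _ hsimple _ hd G _ _ _ α hα1 hαm hW
  letI : PartialOrder A := CStarAlgebra.spectralOrder A
  haveI : StarOrderedRing A := CStarAlgebra.spectralOrderedRing A
  have hW' : WTRP α := hW
  -- matrices have dense units
  have hmat := matSR_of_dense hd G
  have hsr : Dense {b : CStarMatrix G G A | IsUnit b} := by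
    intro M
    have hex : ∀ n : ℕ, ∃ M' : Matrix G G A, IsUnit M' ∧
        ∀ i j, ‖(M : Matrix G G A) i j - M' i j‖ < 1 / ((n : ℝ) + 1) :=
      fun n => hmat M _ (by positivity)
    choose M' hM'u hM' using hex
    have ht : Tendsto (fun n => (CStarMatrix.ofMatrix (M' n) : CStarMatrix G G A)) atTop (𝓝 M) := by
      have h1 : Tendsto M' atTop (𝓝 (M : Matrix G G A)) := by
        refine tendsto_pi_nhds.2 fun i => tendsto_pi_nhds.2 fun j => ?_
        rw [tendsto_iff_norm_sub_tendsto_zero]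
        refine squeeze_zero (fun n => norm_nonneg _) (fun n => ?_)
          (tendsto_one_div_add_atTop_nhds_zero_nat (𝕜 := ℝ))
        rw [← norm_neg, neg_sub]
        exact (hM' n i j).le
      exact h1
    refine mem_closure_of_tendsto ht (Eventually.of_forall fun n => ?_)
    exact (hM'u n).map (CStarMatrix.ofMatrixRingEquiv (n := G) (A := A))
  set B := cov α hα1 hαm with hB
  letI : PartialOrder B := CStarAlgebra.spectralOrder B
  haveI : StarOrderedRing B := CStarAlgebra.spectralOrderedRing B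
  let cp : CP α B := cpc α hα1 hαm
  have hfin : ∀ x y : B, x * y = 1 → y * x = 1 := by
    intro x y hxy
    apply Subtype.ext
    exact finite_of_dense hsr (x : CStarMatrix G G A) y (congrArg Subtype.val hxy)
  have hLU : ∀ b : B, LU b := cp.all_LU hα1 hαm hsimple hd hsr hW' hfin
  refine ⟨?_, ?_⟩
  · intro M hM
    set m : B := ⟨CStarMatrix.ofMatrix M, hM⟩ with hm
    have hex : ∀ n : ℕ, ∃ w : B, IsUnit w ∧ ‖w - m‖ ≤ 1 / ((n : ℝ) + 1) :=
      fun n => hLU m _ (by positivity)
    choose w hwu hwn using hex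
    have ht : Tendsto w atTop (𝓝 m) := by
      rw [tendsto_iff_norm_sub_tendsto_zero]
      exact squeeze_zero (fun n => norm_nonneg _) hwn
        (tendsto_one_div_add_atTop_nhds_zero_nat (𝕜 := ℝ))
    have ht2 : Tendsto (fun n => ((w n : CStarMatrix G G A) : Matrix G G A)) atTop (𝓝 M) :=
      (continuous_subtype_val.tendsto m).comp ht
    refine mem_closure_of_tendsto ht2 (Eventually.of_forall fun n => ?_)
    obtain ⟨v, hv⟩ := hwu n
    refine ⟨(w n).2, ((↑v⁻¹ : B) : CStarMatrix G G A), (↑v⁻¹ : B).2, ?_, ?_⟩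
    · rw [← hv]; exact congrArg Subtype.val v.mul_inv
    · rw [← hv]; exact congrArg Subtype.val v.inv_mul
  · intro a ha ε hε
    refine cp.fixed_LU hαm ?_ hLU a ha hε
    intro b
    exact CStarMatrix.norm_entry_le_norm (M := (b : CStarMatrix G G A)) (i := 1) (j := 1⁻¹)

end Pool.Agent.S05053
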