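import Pool.Statements.S05202
import Pool.Agent.MP_7f688b_an.Complete

set_option autoImplicit false
open MeasureTheory
open Pool Pool.MP_7f688b_an

namespace Pool.Agent.S05202

/-- The negation of the preceding statement: For every measurable E in R^d of positive finite measure whose L2(E) has an orthogonal exponential basis, some set S of pairs (a,b) makes the functions 1_E(x-a)e^{-2πi x·b} an orthogonal basis of L2(R^d). -/
theorem result :
    ¬ (∀ (d : ℕ) (E : Set (EuclideanSpace ℝ (Fin d))),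
    MeasurableSet E → 0 < volume E → volume E < ⊤ →
    (∃ Λ : Set (EuclideanSpace ℝ (Fin d)),
      (∀ l ∈ Λ, ∀ l' ∈ Λ, l ≠ l' →
        ∫ x in E, Complex.exp (2 * (Real.pi : ℂ) * Complex.I * ((inner ℝ x (l - l') : ℝ) : ℂ)) = 0) ∧
      (∀ f : EuclideanSpace ℝ (Fin d) → ℂ, MemLp f 2 (volume.restrict E) →
        (∀ l ∈ Λ, ∫ x in E, f x * Complex.exp (-(2 * (Real.pi : ℂ) * Complex.I * ((inner ℝ x l : ℝ) : ℂ))) = 0) →
        f =ᵐ[volume.restrict E] 0)) →
    ∃ S : Set (EuclideanSpace ℝ (Fin d) × EuclideanSpace ℝ (Fin d)),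
      (∀ p ∈ S, ∀ q ∈ S, p ≠ q →
        ∫ x, (E.indicator (fun _ => (1 : ℂ)) (x - p.1) *
              Complex.exp (-(2 * (Real.pi : ℂ) * Complex.I * ((inner ℝ x p.2 : ℝ) : ℂ)))) *
            starRingEnd ℂ (E.indicator (fun _ => (1 : ℂ)) (x - q.1) *
              Complex.exp (-(2 * (Real.pi : ℂ) * Complex.I * ((inner ℝ x q.2 : ℝ) : ℂ)))) = 0) ∧
      (∀ f : EuclideanSpace ℝ (Fin d) → ℂ, MemLp f 2 volume →
        (∀ p ∈ S, ∫ x, f x * starRingEnd ℂ (E.indicator (fun _ => (1 : ℂ)) (x - p.1) *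
              Complex.exp (-(2 * (Real.pi : ℂ) * Complex.I * ((inner ℝ x p.2 : ℝ) : ℂ)))) = 0) →
        f =ᵐ[volume] 0)) := by
  intro h
  obtain ⟨hpos, hfin, hmeas⟩ := Pool.Agent.MP_7f688b_an.volume_pos_fin (M := 200) (by norm_num)
  obtain ⟨S, horth, hcomp⟩ := h 5 (Pool.Agent.MP_7f688b_an.Om 200) hmeas hpos hfin
    ⟨Pool.Agent.MP_7f688b_an.spec 200,
      fun l hl l' hl' hne => Pool.Agent.MP_7f688b_an.spec_orth (by norm_num) l l' hl hl' hne,
      fun f hf h0 => Pool.Agent.MP_7f688b_an.spec_complete (by norm_num) f hf h0⟩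
  exact Pool.Agent.MP_7f688b_an.no_gabor_basis S horth hcomp

end Pool.Agent.S05202
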