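import Pool.Statements.S06296

/-!
Disproof of the Eremenko and Levin type conjecture `Λ(pⁿ) ≥ dⁿ`.

Counterexample: `p(z) = z³ + (149/50) z`, `n = 3`.  (For `z³ + 3z`, which is conjugate to minus the
Chebyshev polynomial of degree 3, all fixed points of the third iterate have multiplier of modulus
exactly `27`; decreasing the coefficient `3` slightly decreases all of them.)

For a nonzero fixed point `x` of `p³` with orbit `x, y, w` put `s = x²+a`, `t = y²+a`, `u = w²+a`.
Then `t = s³-as²+a`, `u = t³-at²+a`, `s = u³-au²+a`, `stu = 1` and the multiplier is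
`(3s-2a)(3t-2a)(3u-2a)`.  Elimination gives the multiplier as a root of an explicit quartic.
-/

set_option autoImplicit false
open Pool Pool.MP_d5976f_an

namespace Pool.Agent.S06296

lemma small_cubic (e3 e2 e1 e0 : ℝ) (h3 : |e3| ≤ 1/1000) (h2 : |e2| ≤ 1/1000)
    (h1 : |e1| ≤ 1/1000) (h0 : |e0| ≤ 1/1000) (μ : ℂ) :
    ‖(e3 : ℂ) * μ^3 + (e2 : ℂ) * μ^2 + (e1 : ℂ) * μ + (e0 : ℂ)‖ ≤
      (1/1000) * ‖μ‖^3 + (1/1000) * ‖μ‖^2 + (1/1000) * ‖μ‖ + 1/1000 := by
  have a3 : ‖(e3 : ℂ) * μ^3‖ ≤ (1/1000) * ‖μ‖^3 := by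
    rw [norm_mul, norm_pow, Complex.norm_real, Real.norm_eq_abs]; gcongr
  have a2 : ‖(e2 : ℂ) * μ^2‖ ≤ (1/1000) * ‖μ‖^2 := by
    rw [norm_mul, norm_pow, Complex.norm_real, Real.norm_eq_abs]; gcongr
  have a1 : ‖(e1 : ℂ) * μ‖ ≤ (1/1000) * ‖μ‖ := by
    rw [norm_mul, Complex.norm_real, Real.norm_eq_abs]; gcongr
  have a0 : ‖(e0 : ℂ)‖ ≤ 1/1000 := by
    rw [Complex.norm_real, Real.norm_eq_abs]; exact h0
  have b1 := norm_add_le ((e3 : ℂ) * μ^3 + (e2 : ℂ) * μ^2 + (e1 : ℂ) * μ) (e0 : ℂ)
  have b2 := norm_add_le ((e3 : ℂ) * μ^3 + (e2 : ℂ) * μ^2) ((e1 : ℂ) * μ)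
  have b3 := norm_add_le ((e3 : ℂ) * μ^3) ((e2 : ℂ) * μ^2)
  linarith

/-- All roots of the (normalised) quartic of 3-cycle multipliers lie in the open unit disk. -/
lemma num_bound (μ : ℂ) (h : μ^4 - (134251/1687500) * μ^3 - (294880003539/355957031250) * μ^2
    + (45208894291642237/600677490234375000) * μ
    - (2824003398535404125039/31676352024078369140625) = 0) :
    ‖μ‖ < 1 := by
  by_contra hcon
  have hcon : 1 ≤ ‖μ‖ := not_lt.mp hcon
  set r := ‖μ‖ with hr
  have key : (μ^2 + (2/1000) * μ - (925/1000)) * (μ^2 - (81/1000) * μ + (96/1000)) =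
      ((134251/1687500 - 79/1000 : ℝ) : ℂ) * μ^3
      + ((294880003539/355957031250 + (2/1000)*(-81/1000) + 96/1000 - 925/1000 : ℝ) : ℂ) * μ^2
      + (((2/1000)*(96/1000) + (81/1000)*(925/1000)
          - 45208894291642237/600677490234375000 : ℝ) : ℂ) * μ
      + ((2824003398535404125039/31676352024078369140625 - (925/1000)*(96/1000) : ℝ) : ℂ) := by
    push_cast
    linear_combination h
  have hA : r^2 - (2/1000) * r - 925/1000 ≤ ‖μ^2 + (2/1000) * μ - (925/1000)‖ := by
    have h1 : ‖μ^2‖ ≤ ‖μ^2 + (2/1000) * μ - (925/1000)‖ + ‖(2/1000) * μ‖ + ‖(925/1000 : ℂ)‖ := by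
      calc ‖μ^2‖ = ‖(μ^2 + (2/1000) * μ - (925/1000)) - (2/1000) * μ + 925/1000‖ := by
            congr 1; ring
        _ ≤ ‖(μ^2 + (2/1000) * μ - (925/1000)) - (2/1000) * μ‖ + ‖(925/1000 : ℂ)‖ :=
            norm_add_le _ _
        _ ≤ _ := by gcongr; exact norm_sub_le _ _
    have h2 : ‖μ^2‖ = r^2 := by rw [norm_pow]
    have h3 : ‖(2/1000) * μ‖ = (2/1000) * r := by rw [norm_mul]; norm_num [hr]
    have h4 : ‖(925/1000 : ℂ)‖ = 925/1000 := by norm_num
    linarith
  have hB : r^2 - (81/1000) * r - 96/1000 ≤ ‖μ^2 - (81/1000) * μ + (96/1000)‖ := by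
    have h1 : ‖μ^2‖ ≤ ‖μ^2 - (81/1000) * μ + (96/1000)‖ + ‖(96/1000 : ℂ)‖ + ‖(81/1000) * μ‖ := by
      calc ‖μ^2‖ = ‖(μ^2 - (81/1000) * μ + (96/1000)) - (96/1000) + (81/1000) * μ‖ := by
            congr 1; ring
        _ ≤ ‖(μ^2 - (81/1000) * μ + (96/1000)) - (96/1000)‖ + ‖(81/1000) * μ‖ := norm_add_le _ _
        _ ≤ _ := by gcongr; exact norm_sub_le _ _
    have h2 : ‖μ^2‖ = r^2 := by rw [norm_pow]
    have h3 : ‖(81/1000) * μ‖ = (81/1000) * r := by rw [norm_mul]; norm_num [hr]
    have h4 : ‖(96/1000 : ℂ)‖ = 96/1000 := by norm_num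
    linarith
  have hC := small_cubic (134251/1687500 - 79/1000)
    (294880003539/355957031250 + (2/1000)*(-81/1000) + 96/1000 - 925/1000)
    ((2/1000)*(96/1000) + (81/1000)*(925/1000) - 45208894291642237/600677490234375000)
    (2824003398535404125039/31676352024078369140625 - (925/1000)*(96/1000))
    (by rw [abs_le]; constructor <;> norm_num) (by rw [abs_le]; constructor <;> norm_num)
    (by rw [abs_le]; constructor <;> norm_num) (by rw [abs_le]; constructor <;> norm_num) μ
  rw [← key, norm_mul] at hC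
  have hA0 : 0 < r^2 - (2/1000) * r - 925/1000 := by nlinarith
  have hB0 : 0 < r^2 - (81/1000) * r - 96/1000 := by nlinarith
  have h5 : (r^2 - (2/1000) * r - 925/1000) * (r^2 - (81/1000) * r - 96/1000)
      ≤ (1/1000) * r^3 + (1/1000) * r^2 + (1/1000) * r + 1/1000 :=
    le_trans (mul_le_mul hA hB hB0.le (norm_nonneg _)) hC
  have hA1 : (73/1000) * r^2 ≤ r^2 - (2/1000) * r - 925/1000 := by nlinarith
  have hB1 : (823/1000) * r^2 ≤ r^2 - (81/1000) * r - 96/1000 := by nlinarith
  have h6 : (73/1000) * r^2 * ((823/1000) * r^2) ≤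
      (r^2 - (2/1000) * r - 925/1000) * (r^2 - (81/1000) * r - 96/1000) :=
    mul_le_mul hA1 hB1 (by positivity) hA0.le
  have h7 : r ≤ r^2 := by nlinarith
  have h8 : r^2 ≤ r^3 := by nlinarith [sq_nonneg r]
  have h9 : r^3 ≤ r^4 := by nlinarith [pow_nonneg (by linarith : (0:ℝ) ≤ r) 3]
  nlinarith

/-- The algebraic heart: a bound for `(3s-2a)(3t-2a)(3u-2a)`, `a = 149/50`. -/
lemma alg_bound (s t u : ℂ) (h1 : t = s^3 - (149/50) * s^2 + 149/50)
    (h2 : u = t^3 - (149/50) * t^2 + 149/50) (h3 : s = u^3 - (149/50) * u^2 + 149/50)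
    (h4 : s * t * u = 1) :
    ‖(3*s - 2*(149/50)) * (3*t - 2*(149/50)) * (3*u - 2*(149/50))‖ < 27 := by
  obtain ⟨E, hE⟩ : ∃ E : ℂ, E = s + t + u := ⟨_, rfl⟩
  obtain ⟨F, hF⟩ : ∃ F : ℂ, F = s * t + t * u + u * s := ⟨_, rfl⟩
  -- Newton identities
  have eq1 : F * (3*E - 2*(149/50)) = E^3 - (149/50) * E^2 - E + 3 + 3*(149/50) := by
    have : s + t + u = (s^3 + t^3 + u^3) - (149/50) * (s^2 + t^2 + u^2) + 3 * (149/50) := by
      linear_combination h1 + h2 + h3
    rw [hE, hF]
    linear_combination this + 3 * h4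
  have eq2 : 2 * F^2 - F * (4*E^2 - 3*(149/50)*E + 1) + E^4 - (149/50) * E^3
      + (4 + 149/50) * E - 3 * (149/50) = 0 := by
    have : s * t + t * u + u * s = (s^4 + t^4 + u^4) - (149/50) * (s^3 + t^3 + u^3)
        + (149/50) * (s + t + u) := by
      linear_combination s * h1 + t * h2 + u * h3
    rw [hE, hF]
    linear_combination (-1) * this + (-4 * (s + t + u) + 3 * (149/50)) * h4
  have eq3 : (3*s - 2*(149/50)) * (3*t - 2*(149/50)) * (3*u - 2*(149/50)) =
      27 - 18 * (149/50) * F + 12 * (149/50)^2 * E - 8 * (149/50)^3 := by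
    rw [hE, hF]
    linear_combination 27 * h4
  obtain ⟨lam, hlam⟩ : ∃ lam : ℂ,
      lam = (3*s - 2*(149/50)) * (3*t - 2*(149/50)) * (3*u - 2*(149/50)) := ⟨_, rfl⟩
  rw [← hlam]
  rw [← hlam] at eq3
  -- elimination of `F`
  have sext : (E - 3) * (E + 2) * (E^4 - (273/25) * E^3 + (17241/500) * E^2
      - (857037/31250) * E + 403401/62500) = 0 := by
    linear_combination (-(3*E - 2*(149/50))^2) * eq2 +
      (2 * (F * (3*E - 2*(149/50)) + (E^3 - (149/50) * E^2 - E + 3 + 3*(149/50)))
        - (3*E - 2*(149/50)) * (4*E^2 - 3*(149/50)*E + 1)) * eq1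
  rcases mul_eq_zero.mp sext with hd | hQ
  · rcases mul_eq_zero.mp hd with hd | hd
    · -- `E = 3`
      have hE3 : E = 3 := by linear_combination hd
      have hF3 : F = 3 := by
        rw [hE3] at eq1
        linear_combination (25/76) * eq1
      have : lam = ((-(74/25)^3 : ℝ) : ℂ) := by
        rw [eq3, hE3, hF3]; push_cast; norm_num
      rw [this, Complex.norm_real, Real.norm_eq_abs]
      rw [abs_lt]; constructor <;> norm_num
    · -- `E = -2` is impossible
      exfalso
      have hE2 : E = -2 := by linear_combination hd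
      have hF2 : F = 1/2 := by
        rw [hE2] at eq1
        linear_combination (-25/299) * eq1
      have hEs : s + t + u = -2 := by rw [← hE, hE2]
      have hFs : s * t + t * u + u * s = 1/2 := by rw [← hF, hF2]
      have cs : s^3 = -2*s^2 - s/2 + 1 := by
        linear_combination s^2 * hEs - s * hFs + h4
      have ct : t^3 = -2*t^2 - t/2 + 1 := by
        linear_combination t^2 * hEs - t * hFs + h4
      have cu : u^3 = -2*u^2 - u/2 + 1 := by
        linear_combination u^2 * hEs - u * hFs + h4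
      have p2 : s^2 + t^2 + u^2 = 3 := by
        linear_combination (s + t + u - 2) * hEs - 2 * hFs
      have gen : ∀ x y : ℂ, y = x^3 - (149/50) * x^2 + 149/50 → x^3 = -2*x^2 - x/2 + 1 →
          y = -(249/50) * x^2 - x/2 + 199/50 := by
        intro x y hy hx
        linear_combination hy + hx
      have gen2 : ∀ x y : ℂ, y = x^3 - (149/50) * x^2 + 149/50 → x^3 = -2*x^2 - x/2 + 1 →
          y^2 = (249/50)^2 * (x * (-2*x^2 - x/2 + 1)) + (249/50) * (-2*x^2 - x/2 + 1)
            + (1/4 - 2 * (249/50) * (199/50)) * x^2 - (199/50) * x + (199/50)^2 := by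
        intro x y hy hx
        rw [gen x y hy hx]
        linear_combination ((249/50)^2 * x + (249/50)) * hx
      have q1 := gen2 s t h1 cs
      have q2 := gen2 t u h2 ct
      have q3 := gen2 u s h3 cu
      have r1 : s * (-2*s^2 - s/2 + 1) = (7/2)*s^2 + 2*s - 2 := by linear_combination (-2) * cs
      have r2 : t * (-2*t^2 - t/2 + 1) = (7/2)*t^2 + 2*t - 2 := by linear_combination (-2) * ct
      have r3 : u * (-2*u^2 - u/2 + 1) = (7/2)*u^2 + 2*u - 2 := by linear_combination (-2) * cu
      rw [r1] at q1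
      rw [r2] at q2
      rw [r3] at q3
      have hbad : (3 : ℂ) = ((249/50)^2 * (7/2) - 2 * (249/50) + (1/4 - 2 * (249/50) * (199/50))) * 3
          + (2 * (249/50)^2 - (249/50)/2 - 199/50) * (-2)
          + 3 * (-2 * (249/50)^2 + 249/50 + (199/50)^2) := by
        linear_combination q1 + q2 + q3 - p2
          + ((249/50)^2 * (7/2) - 2 * (249/50) + (1/4 - 2 * (249/50) * (199/50))) * p2
          + (2 * (249/50)^2 - (249/50)/2 - 199/50) * hEs
      norm_num at hbad
  · -- the generic case
    have hLM : lam * (3*E - 2*(149/50)) = -(1341/25)*E^3 + (599427/1250)*E^2 - (17743944/15625)*E + (359689427/781250) := by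
      rw [eq3]
      linear_combination (-18 * (149/50)) * eq1
    have hM : (3*E - 2*(149/50)) ≠ 0 := by
      intro hM
      have hE' : E = 149/75 := by linear_combination (1/3) * hM
      rw [hE'] at hQ
      norm_num at hQ
    have hchi : (3*E - 2*(149/50))^4 * (1*lam^4 - (134251/62500)*lam^3 - (294880003539/488281250)*lam^2 + (45208894291642237/30517578125000)*lam - (2824003398535404125039/59604644775390625)) = 0 := by
      have e1 : (3*E - 2*(149/50))^4 * (1*lam^4 - (134251/62500)*lam^3 - (294880003539/488281250)*lam^2 + (45208894291642237/30517578125000)*lam - (2824003398535404125039/59604644775390625)) =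
          (-2824003398535404125039/59604644775390625) * (lam * (3*E - 2*(149/50)))^0 * (3*E - 2*(149/50))^4 + (45208894291642237/30517578125000) * (lam * (3*E - 2*(149/50)))^1 * (3*E - 2*(149/50))^3 + (-294880003539/488281250) * (lam * (3*E - 2*(149/50)))^2 * (3*E - 2*(149/50))^2 + (-134251/62500) * (lam * (3*E - 2*(149/50)))^3 * (3*E - 2*(149/50))^1 + (1) * (lam * (3*E - 2*(149/50)))^4 * (3*E - 2*(149/50))^0 := by ring
      rw [e1, hLM]
      linear_combination ((3233814554961/390625)*E^8 - (2008198838630781/9765625)*E^7 + (1045374750356727717/488281250)*E^6 - (589806048915683738217/48828125000)*E^5 + (48558718891922007285027/1220703125000)*E^4 - (582609844132037582078889/7629394531250)*E^3 + (3048173528942679573048327/38146972656250)*E^2 - (737118743932405165907647827/19073486328125000)*E + (3060713366257503760941696237/476837158203125000)) * hQ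
    have hchi' : 1*lam^4 - (134251/62500)*lam^3 - (294880003539/488281250)*lam^2 + (45208894291642237/30517578125000)*lam - (2824003398535404125039/59604644775390625) = 0 := by
      rcases mul_eq_zero.mp hchi with h | h
      · exact absurd (pow_eq_zero_iff (by norm_num) |>.mp h) hM
      · exact h
    have hmu : (lam/27)^4 - (134251/1687500) * (lam/27)^3 - (294880003539/355957031250) * (lam/27)^2
        + (45208894291642237/600677490234375000) * (lam/27)
        - (2824003398535404125039/31676352024078369140625) = 0 := by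
      linear_combination (1/531441) * hchi'
    have hb := num_bound (lam/27) hmu
    rw [norm_div] at hb
    have h27 : ‖(27:ℂ)‖ = 27 := by norm_num
    rw [h27] at hb
    have : ‖lam‖ = 27 * (‖lam‖ / 27) := by ring
    rw [this]
    linarith

/-- Bound for the multiplier at every fixed point of the third iterate of `z³ + (149/50) z`. -/
lemma main_bound (x y w : ℂ) (hy : y = x^3 + (149/50) * x) (hw : w = y^3 + (149/50) * y)
    (hx : x = w^3 + (149/50) * w) :
    ‖(3*x^2 + 149/50) * (3*y^2 + 149/50) * (3*w^2 + 149/50)‖ < 27 := by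
  by_cases h0 : x = 0
  · have hy0 : y = 0 := by rw [hy, h0]; ring
    have hw0 : w = 0 := by rw [hw, hy0]; ring
    rw [h0, hy0, hw0]
    have : ((3*(0:ℂ)^2 + 149/50) * (3*0^2 + 149/50) * (3*0^2 + 149/50)) = (((149/50)^3 : ℝ) : ℂ) := by
      push_cast; ring
    rw [this, Complex.norm_real, Real.norm_eq_abs, abs_lt]
    constructor <;> norm_num
  · have key := alg_bound (x^2 + 149/50) (y^2 + 149/50) (w^2 + 149/50)
      (by rw [hy]; ring) (by rw [hw]; ring) (by
        have : x^2 = (w^3 + (149/50) * w)^2 := by rw [← hx]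
        rw [this]; ring) (by
        have h1 : x * ((x^2 + 149/50) * (y^2 + 149/50) * (w^2 + 149/50)) = x * 1 := by
          have e1 : x * (x^2 + 149/50) = y := by rw [hy]; ring
          have e2 : y * (y^2 + 149/50) = w := by rw [hw]; ring
          have e3 : w * (w^2 + 149/50) = x := by linear_combination (-1) * hx
          calc x * ((x^2 + 149/50) * (y^2 + 149/50) * (w^2 + 149/50))
              = (x * (x^2 + 149/50)) * (y^2 + 149/50) * (w^2 + 149/50) := by ring
            _ = w * (w^2 + 149/50) := by rw [e1, e2]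
            _ = x * 1 := by rw [e3, mul_one]
        exact mul_left_cancel₀ h0 h1)
    have : (3*(x^2 + 149/50) - 2*(149/50)) * (3*(y^2 + 149/50) - 2*(149/50)) *
        (3*(w^2 + 149/50) - 2*(149/50)) =
        (3*x^2 + 149/50) * (3*y^2 + 149/50) * (3*w^2 + 149/50) := by ring
    rw [← this]
    exact key

/-- The negation of the preceding statement: For every complex polynomial p of degree d ≥ 2 and every n ≥ 2, the n-th iterate of p has a fixed point whose multiplier has modulus at least d^n. -/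
theorem result :
    ¬ (∀ p : Polynomial ℂ, 2 ≤ p.natDegree → ∀ n : ℕ, 2 ≤ n →
      ∃ z : ℂ,
        ((fun q : Polynomial ℂ => p.comp q)^[n] Polynomial.X).eval z = z ∧
        ((p.natDegree : ℝ) ^ n ≤
          ‖(Polynomial.derivative
              ((fun q : Polynomial ℂ => p.comp q)^[n] Polynomial.X)).eval z‖)) := by
  intro h
  have hdeg : (Polynomial.X^3 + Polynomial.C (149/50) * Polynomial.X : Polynomial ℂ).natDegree = 3 := by
    compute_degree!
  obtain ⟨z, hz, hn⟩ := h (Polynomial.X^3 + Polynomial.C (149/50) * Polynomial.X)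
    (by rw [hdeg]; norm_num) 3 (by norm_num)
  rw [hdeg] at hn
  simp only [Function.iterate_succ, Function.iterate_zero, Function.comp_apply, id_eq,
    Polynomial.comp_X, Polynomial.derivative_comp, Polynomial.eval_mul, Polynomial.eval_comp,
    Polynomial.eval_add, Polynomial.eval_pow, Polynomial.eval_X, Polynomial.eval_C,
    Polynomial.derivative_add, Polynomial.derivative_X_pow, Polynomial.derivative_C_mul,
    Polynomial.derivative_X, mul_one] at hz hn
  have hb := main_bound z (z^3 + (149/50) * z)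
    ((z^3 + (149/50) * z)^3 + (149/50) * (z^3 + (149/50) * z)) rfl rfl hz.symm
  simp only [Nat.cast_ofNat, Nat.reduceSub] at hn
  have h27 : (3:ℝ)^3 = 27 := by norm_num
  rw [h27] at hn
  exact absurd hb (not_lt.mpr hn)

end Pool.Agent.S06296
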