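import Pool.Statements.S06444
import Pool.Agent.MP_e081a1_an.NotA
import Pool.Agent.MP_e081a1_an.OneOnl

set_option autoImplicit false
open MeasureTheory
open scoped ENNReal
open Pool Pool.MP_e081a1_an

namespace Pool.Agent.S06444

/-- The negation of the preceding statement: For every p in [1,∞) other than 2, every bounded geometry metric space with the p-operator norm localization property (ℓ^p-valued L^p, all nonzero locally finite Borel measures) has Yu's property A. -/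
theorem result :
    ¬ (∀ (p : ℝ≥0∞) [Fact (1 ≤ p)], p ≠ ⊤ → p ≠ 2 →
    ∀ (X : Type) [MetricSpace X] [MeasurableSpace X] [BorelSpace X],
      (∀ R : ℝ, 0 < R → ∃ N : ℕ, ∀ x : X,
          (Metric.ball x R).Finite ∧ (Metric.ball x R).ncard ≤ N) →
      (∃ c : ℝ, 0 < c ∧ c ≤ 1 ∧ ∃ f : ℕ → ℕ, Monotone f ∧
        ∀ (ν : Measure X) [IsLocallyFiniteMeasure ν], ν ≠ 0 → ∀ r : ℕ,
          ∀ T : Lp (lp (fun _ : ℕ => ℝ) p) p ν →L[ℝ] Lp (lp (fun _ : ℕ => ℝ) p) p ν,
            (∀ x y : X, (r : ℝ) < dist x y →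
              ∃ U V : Set X, IsOpen U ∧ IsOpen V ∧ x ∈ U ∧ y ∈ V ∧
                ∀ g : Lp (lp (fun _ : ℕ => ℝ) p) p ν,
                  (∀ᵐ z ∂ν, z ∉ U → ⇑g z = 0) → ∀ᵐ z ∂ν, z ∈ V → ⇑(T g) z = 0) →
            ∃ ξ : Lp (lp (fun _ : ℕ => ℝ) p) p ν, ξ ≠ 0 ∧
              (∃ S : Set X, (∀ a ∈ S, ∀ b ∈ S, dist a b ≤ (f r : ℝ)) ∧
                ∀ᵐ z ∂ν, z ∉ S → ⇑ξ z = 0) ∧
              c * ‖T‖ * ‖ξ‖ ≤ ‖T ξ‖) →
      (∀ R : ℝ, 0 < R → ∀ ε : ℝ, 0 < ε →
        ∃ S : ℝ, ∃ A : X → Set (X × ℕ),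
          (∀ x, (A x).Finite) ∧ (∀ x, (x, 0) ∈ A x) ∧
          (∀ x, ∀ w ∈ A x, dist w.1 x ≤ S) ∧
          ∀ x y, dist x y < R →
            ((symmDiff (A x) (A y)).ncard : ℝ) < ε * ((A x ∩ A y).ncard : ℝ))) := by
  intro H
  have hne : (1 : ℝ≥0∞) ≠ 2 := by norm_num
  let _ : MeasurableSpace Pool.Agent.MPe081a1.Box := borel _
  have : BorelSpace Pool.Agent.MPe081a1.Box := ⟨rfl⟩
  refine Pool.Agent.MPe081a1.box_not_A
    (H 1 ENNReal.one_ne_top hne Pool.Agent.MPe081a1.Box Pool.Agent.MPe081a1.box_bg ?_)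
  have hcount : Countable Pool.Agent.MPe081a1.Box := by
    rw [← Set.countable_univ_iff]
    have hu : (Set.univ : Set Pool.Agent.MPe081a1.Box) ⊆
        ⋃ n : ℕ, Metric.ball ⟨0, 1⟩ ((n : ℝ) + 1) := by
      intro z _
      obtain ⟨n, hn⟩ := exists_nat_gt (dist z ⟨0, 1⟩)
      exact Set.mem_iUnion.mpr ⟨n, by rw [Metric.mem_ball]; linarith⟩
    refine Set.Countable.mono hu (Set.countable_iUnion fun n => ?_)
    obtain ⟨N, hN⟩ := Pool.Agent.MPe081a1.box_bg ((n : ℝ) + 1) (by positivity)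
    exact (hN ⟨0, 1⟩).1.countable
  refine ⟨1 / 2, by norm_num, by norm_num, fun _ => 0, monotone_const, ?_⟩
  intro ν hν hν0 r T _
  by_cases hT : T = 0
  · -- a point mass
    have hex : ∃ x, ν {x} ≠ 0 := by
      by_contra hcon
      push Not at hcon
      apply hν0
      rw [← Measure.measure_univ_eq_zero]
      rw [← Set.biUnion_of_singleton (Set.univ : Set Pool.Agent.MPe081a1.Box)]
      exact (measure_biUnion_null_iff Set.countable_univ).mpr fun x _ => hcon x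
    obtain ⟨x, hx⟩ := hex
    have hfin : ν {x} ≠ ⊤ := measure_singleton_lt_top.ne
    let v : lp (fun _ : ℕ => ℝ) 1 := lp.single 1 0 1
    have hv : ‖v‖ = 1 := by
      simp [v, lp.norm_single]
    refine ⟨indicatorConstLp 1 (measurableSet_singleton x) hfin v, ?_, ⟨{x}, ?_, ?_⟩, ?_⟩
    · rw [← norm_pos_iff, norm_indicatorConstLp one_ne_zero ENNReal.one_ne_top, hv]
      have : 0 < ν.real {x} := ENNReal.toReal_pos hx hfin
      positivity
    · intro a ha b hb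
      rw [Set.mem_singleton_iff] at ha hb
      rw [ha, hb]
      simp
    · filter_upwards [indicatorConstLp_coeFn (p := 1) (hs := measurableSet_singleton x)
        (hμs := hfin) (c := v)] with z hz hzx
      rw [hz]
      simp [hzx]
    · rw [hT]; simp
  · obtain ⟨x, ξ, h1, h2, h3⟩ := Pool.Agent.MPe081a1.exists_localized_point ν T hT
    refine ⟨ξ, h1, ⟨{x}, ?_, h2⟩, h3⟩
    intro a ha b hb
    rw [Set.mem_singleton_iff] at ha hb
    rw [ha, hb]
    simp

end Pool.Agent.S06444
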