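import Pool.Statements.S06848
import Pool.Agent.MP_ff4374_an.Final

set_option autoImplicit false
open MeasureTheory
open Pool Pool.MP_ff4374_an

namespace Pool.Agent.S06848

/-- The negation of the preceding statement: For every Tonelli Lagrangian on the 2-torus whose Mather beta function (via closed measures) is C^1, every cohomology class c has its Mather set projecting onto the whole torus. -/
theorem result :
    ¬ (∀ (L : (Fin 2 → ℝ) × (Fin 2 → ℝ) → ℝ),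
    ContDiff ℝ 2 L →
    (∀ (x v : Fin 2 → ℝ) (k : Fin 2 → ℤ), L (x + (fun i => (k i : ℝ)), v) = L (x, v)) →
    (∀ x v w : Fin 2 → ℝ, w ≠ 0 →
      0 < fderiv ℝ (fun u => fderiv ℝ (fun u' => L (x, u')) u) v w w) →
    (∀ A : ℝ, ∃ B : ℝ, ∀ x v : Fin 2 → ℝ, A * ‖v‖ - B ≤ L (x, v)) →
    ∀ (Adm : Measure ((Fin 2 → ℝ) × (Fin 2 → ℝ)) → Prop),
    (∀ μ, Adm μ ↔ (IsProbabilityMeasure μ ∧ Integrable (fun p => ‖p.2‖) μ ∧ Integrable L μ ∧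
        ∀ φ : (Fin 2 → ℝ) → ℝ, ContDiff ℝ 1 φ →
          (∀ (x : Fin 2 → ℝ) (k : Fin 2 → ℤ), φ (x + (fun i => (k i : ℝ))) = φ x) →
          ∫ p, fderiv ℝ φ p.1 p.2 ∂μ = 0)) →
    ContDiff ℝ 1 (fun h : Fin 2 → ℝ =>
      sInf {r : ℝ | ∃ μ, Adm μ ∧ ∫ p, p.2 ∂μ = h ∧ ∫ p, L p ∂μ = r}) →
    ∀ c x : Fin 2 → ℝ, ∃ μ, Adm μ ∧
      (∀ ν, Adm ν → ∫ p, (L p - ∑ i, c i * p.2 i) ∂μ ≤ ∫ p, (L p - ∑ i, c i * p.2 i) ∂ν) ∧
      ∃ (k : Fin 2 → ℤ) (v : Fin 2 → ℝ), ∀ ε > 0,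
        0 < μ (Metric.ball (x + (fun i => (k i : ℝ)), v) ε)) := by
  exact Pool.Agent.MP_ff4374_an.ff_main

end Pool.Agent.S06848
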