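import Pool.Statements.S07214
import Pool.Agent.H76Green.Main

set_option autoImplicit false
open N18cfefb3
open Filter Function Real
open scoped Pointwise
open Pool Pool.MP_0f9876_co

namespace Pool.Agent.S07214

/-- The negation of the preceding statement: ∃ c : ℕ → ℕ, ∀ n K, every partition of F_2^n into K (possibly empty) classes has some class i and an affine subspace S ⊆ A_i + A_i with n ≤ dim(dir S) + c K -/
theorem result :
    ¬ (∃ (c : ℕ → ℕ), ∀ (n K : ℕ) (A : Fin K → Set (𝔽₂ n)), (⋃ i, A i) = Set.univ → Pairwise (Disjoint on A) → ∃ (i : Fin K) (S : AffineSubspace (ZMod 2) (𝔽₂ n)), (S : Set (𝔽₂ n)) ⊆ A i + A i ∧ n ≤ Module.finrank (ZMod 2) S.direction + c K) := by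
  rintro ⟨c, hc⟩
  obtain ⟨m, hm, f, hf⟩ := Pool.Agent.H76Green.exists_coloring (c 16)
  -- the dimension
  set n := 2 ^ (4 * m) * 2 ^ (6 * m) with hn
  have hfin : Module.finrank (ZMod 2) (𝔽₂ n) =
      Module.finrank (ZMod 2) (Fin (2 ^ (4 * m)) → Fin (2 ^ (6 * m)) → ZMod 2) := by
    rw [Pool.Agent.H76Green.finrank_blocks, Fintype.card_fin, Fintype.card_fin, ← hn]
    exact Module.finrank_fin_fun (ZMod 2)
  let e : 𝔽₂ n ≃ₗ[ZMod 2] (Fin (2 ^ (4 * m)) → Fin (2 ^ (6 * m)) → ZMod 2) :=
    LinearEquiv.ofFinrankEq _ _ hfin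
  have hcard : Fintype.card ((Fin 6 × Bool) ⊕ (Fin 2 ⊕ Fin 2)) = 16 := by decide
  let g : (Fin 6 × Bool) ⊕ (Fin 2 ⊕ Fin 2) ≃ Fin 16 := Fintype.equivFinOfCardEq hcard
  let A : Fin 16 → Set (𝔽₂ n) := fun i => {x | g (f (e x)) = i}
  have hA : ∀ i x, x ∈ A i ↔ g (f (e x)) = i := fun i x => Iff.rfl
  obtain ⟨i, S, hS, hdim⟩ := hc n 16 A (by
    ext x
    simp only [Set.mem_iUnion, hA, exists_eq', Set.mem_univ]) (by
    intro i j hij
    rw [Function.onFun, Set.disjoint_left]
    intro x hx hy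
    exact hij (((hA i x).1 hx).symm.trans ((hA j x).1 hy)))
  rcases Set.eq_empty_or_nonempty (S : Set (𝔽₂ n)) with hemp | hne
  · have hbot : S = ⊥ := by
      rw [← AffineSubspace.coe_eq_bot_iff]
      exact hemp
    rw [hbot, AffineSubspace.direction_bot, finrank_bot] at hdim
    omega
  · obtain ⟨s0, hs0⟩ := hne
    obtain ⟨H, hH, hH'⟩ := hf (g.symm i)
    -- the image of `S`
    obtain ⟨t, htH, htS⟩ := hH (S.map e.toLinearMap.toAffineMap)
      ⟨e s0, by rw [AffineSubspace.coe_map]; exact ⟨s0, hs0, rfl⟩⟩ (by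
        rw [AffineSubspace.map_direction, ← hfin]
        have h1 : Module.finrank (ZMod 2) (Submodule.map (e.toLinearMap.toAffineMap).linear
            S.direction) = Module.finrank (ZMod 2) S.direction := by
          have h2 : (e.toLinearMap.toAffineMap).linear = e.toLinearMap := rfl
          rw [h2]
          exact LinearEquiv.finrank_map_eq e S.direction
        rw [h1]
        have h3 : Module.finrank (ZMod 2) (𝔽₂ n) = n := Module.finrank_fin_fun (ZMod 2)
        rw [h3]
        exact hdim)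
    have htS' : t ∈ (S.map e.toLinearMap.toAffineMap : Set _) := htS
    rw [AffineSubspace.coe_map] at htS'
    obtain ⟨s, hs, rfl⟩ := htS'
    have hs' : s ∈ A i + A i := hS hs
    obtain ⟨x, hx, y, hy, hxy⟩ := Set.mem_add.1 hs'
    have hx' : f (e x) = g.symm i := by
      rw [Equiv.eq_symm_apply]
      exact (hA i x).1 hx
    have hy' : f (e y) = g.symm i := by
      rw [Equiv.eq_symm_apply]
      exact (hA i y).1 hy
    refine hH' (e x) (e y) hx' hy' ?_
    have h4 : e x + e y = e s := by rw [← hxy, map_add]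
    rw [h4]
    exact htH

end Pool.Agent.S07214
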