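import Pool.Statements.S07263
-- import your own Pool.Agent.* helpers here
import Pool.Agent.AMM.Final

set_option autoImplicit false
open Pool Pool.MP_127f79_co

namespace Pool.Agent.S07263

open Pool.Agent.AMM in
/-- a property closed under adjacency holds everywhere in a connected graph -/
lemma conn_closed {V : Type} {H : SimpleGraph V} (hH : H.Connected) (P : V → Prop)
    (hP : ∀ a b, H.Adj a b → P a → P b) {x : V} (hx : P x) (y : V) : P y := by
  obtain ⟨p⟩ := hH.preconnected x y
  induction p with
  | nil => exact hx
  | cons hadj _ ih => exact ih (hP _ _ hadj hx)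

/-- For every connected distance-regular graph other than K2 whose distance-i graphs are all connected, the sum of Schur squares of the adjacency matrix's spectral idempotents has rank equal to the number of vertices. -/
theorem result :
    ∀ (V : Type) [Fintype V] [DecidableEq V] (G : SimpleGraph V) [DecidableRel G.Adj],
      G.Connected →
      (∀ u v u' v' : V, G.dist u v = G.dist u' v' → ∀ j k : ℕ,
        (Finset.univ.filter (fun w => G.dist u w = j ∧ G.dist v w = k)).card =
        (Finset.univ.filter (fun w => G.dist u' w = j ∧ G.dist v' w = k)).card) →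
      (∀ i : ℕ, 1 ≤ i → i ≤ G.diam →
        (SimpleGraph.fromRel (fun u v : V => G.dist u v = i)).Connected) →
      Fintype.card V ≠ 2 →
      ∀ (s : Finset ℝ) (E : ℝ → Matrix V V ℝ),
        (∀ θ ∈ s, E θ * E θ = E θ) →
        (∀ θ ∈ s, ∀ θ' ∈ s, θ ≠ θ' → E θ * E θ' = 0) →
        (∑ θ ∈ s, E θ) = 1 →
        G.adjMatrix ℝ = ∑ θ ∈ s, θ • E θ →
        (∑ θ ∈ s, Matrix.hadamard (E θ) (E θ)).rank = Fintype.card V := by
  intro V _ _ G _ hc hd hprim hcard s E hidem horth hone hdec
  have h : Pool.Agent.AMM.Spec (G.adjMatrix ℝ) s E := ⟨hidem, horth, hone, hdec⟩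
  by_contra hrank
  have hne : Nonempty V := hc.nonempty
  -- a nonzero kernel vector
  have hdet : (∑ θ ∈ s, Matrix.hadamard (E θ) (E θ)).det = 0 := by
    by_contra hdet
    exact hrank (Matrix.rank_of_isUnit _
      ((Matrix.isUnit_iff_isUnit_det _).2 (isUnit_iff_ne_zero.2 hdet)))
  obtain ⟨z, hz0, hz⟩ := Matrix.exists_mulVec_eq_zero_iff.2 hdet
  -- the diameter
  set d := G.diam with hdiam
  have hle : ∀ x y, G.dist x y ≤ d := fun x y =>
    SimpleGraph.dist_le_diam (SimpleGraph.connected_iff_ediam_ne_top.1 hc)
  obtain ⟨a, b, hab⟩ : ∃ a b, G.dist a b = d := G.exists_dist_eq_diam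
  have hanti := fun x => h.antipode hc hd hle hab hz x
  have hkap : ∀ x, Pool.Agent.AMM.kap G x d ≠ 0 := by
    intro x
    rw [Pool.Agent.AMM.kap_eq hd x a, ← hab]
    exact (Pool.Agent.AMM.kap_pos a b).ne'
  -- the maximum of |z|
  obtain ⟨x0, _, hx0⟩ := Finset.exists_max_image Finset.univ (fun x => |z x|)
    ⟨a, Finset.mem_univ a⟩
  have hmax : ∀ y, |z y| ≤ |z x0| := fun y => hx0 y (Finset.mem_univ y)
  have hpos : 0 < |z x0| := by
    rcases lt_or_eq_of_le (abs_nonneg (z x0)) with h1 | h1
    · exact h1
    · exfalso; apply hz0; ext y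
      have := hmax y
      rw [← h1] at this
      exact abs_eq_zero.1 (le_antisymm this (abs_nonneg _))
  -- at a maximum all antipodes have the opposite value
  have hopp : ∀ x, |z x| = |z x0| → ∀ y, G.dist x y = d → z y = - z x := by
    intro x hx y hy
    by_contra hcon
    have e1 : ∑ y, (if G.dist x y = d then z x * (z y + z x) else 0) = 0 := by
      have e2 := hanti x
      have e3 : ∑ y, (if G.dist x y = d then z x * (z y + z x) else 0)
          = z x * (∑ y, (if G.dist x y = d then z y else 0))
            + z x * z x * Pool.Agent.AMM.kap G x d := by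
        rw [Pool.Agent.AMM.kap, Finset.mul_sum, Finset.mul_sum, ← Finset.sum_add_distrib]
        refine Finset.sum_congr rfl fun w _ => ?_
        split_ifs <;> ring
      rw [e3]
      have e4 : (∑ y, (if G.dist x y = d then z y else 0))
          = - (z x * Pool.Agent.AMM.kap G x d) := by
        have := hkap x
        field_simp at e2
        linarith
      rw [e4]; ring
    have hnn : ∀ w ∈ Finset.univ, 0 ≤ (if G.dist x w = d then z x * (z w + z x) else 0) := by
      intro w _
      split_ifs
      · have h1 : |z w| ≤ |z x| := by rw [hx]; exact hmax w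
        rcases le_or_gt 0 (z x) with h2 | h2
        · rw [abs_of_nonneg h2] at h1
          have := (abs_le.1 h1).1
          exact mul_nonneg h2 (by linarith)
        · rw [abs_of_neg h2] at h1
          have := (abs_le.1 h1).2
          exact mul_nonneg_of_nonpos_of_nonpos h2.le (by linarith)
      · exact le_rfl
    have e5 := (Finset.sum_eq_zero_iff_of_nonneg hnn).1 e1 y (Finset.mem_univ y)
    rw [if_pos hy] at e5
    rcases mul_eq_zero.1 e5 with h1 | h1
    · rw [h1, abs_zero] at hx; rw [← hx] at hpos; exact lt_irrefl _ hpos
    · exact hcon (by linarith)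
  rcases Nat.eq_zero_or_pos d with hd0 | hd0
  · -- one vertex
    have hy := hopp x0 rfl x0 (by rw [SimpleGraph.dist_self, hd0])
    have : z x0 = 0 := by linarith
    rw [this, abs_zero] at hpos; exact lt_irrefl _ hpos
  have hconn := hprim d hd0 le_rfl
  have hadjd : ∀ i x y, (SimpleGraph.fromRel (fun u v : V => G.dist u v = i)).Adj x y →
      G.dist x y = i := by
    intro i x y hxy
    rw [SimpleGraph.fromRel_adj] at hxy
    rcases hxy.2 with h1 | h1
    · exact h1
    · rw [SimpleGraph.dist_comm]; exact h1
  -- |z| is constant
  have habs : ∀ x, |z x| = |z x0| := by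
    intro x
    refine conn_closed hconn (fun x => |z x| = |z x0|) ?_ (x := x0) rfl x
    intro u v huv hu
    have := hopp u hu v (hadjd d u v huv)
    rw [this, abs_neg]; exact hu
  have hneg : ∀ x y, G.dist x y = d → z y = - z x := fun x y hxy => hopp x (habs x) y hxy
  by_cases hk : ∃ x y y', y ≠ y' ∧ G.dist x y = d ∧ G.dist x y' = d
  · obtain ⟨x, y, y', hyy, hxy, hxy'⟩ := hk
    set i := G.dist y y' with hi
    have hi1 : 1 ≤ i := by
      have := hc.pos_dist_of_ne hyy
      omega
    have hstep : ∀ u v, G.dist u v = i → z u = z v := by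
      intro u v huv
      have h1 := hd y y' u v (by rw [huv]) d d
      have h2 : 0 < (Finset.univ.filter (fun w => G.dist y w = d ∧ G.dist y' w = d)).card :=
        Finset.card_pos.2 ⟨x, by
          simp only [Finset.mem_filter, Finset.mem_univ, true_and]
          exact ⟨by rw [SimpleGraph.dist_comm]; exact hxy, by rw [SimpleGraph.dist_comm]; exact hxy'⟩⟩
      rw [h1] at h2
      obtain ⟨w, hw⟩ := Finset.card_pos.1 h2
      simp only [Finset.mem_filter, Finset.mem_univ, true_and] at hw
      have h3 := hneg u w hw.1
      have h4 := hneg v w hw.2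
      linarith
    have hci := hprim i hi1 (hle y y')
    have hconst : ∀ v, z v = z x0 := by
      intro v
      refine conn_closed hci (fun v => z v = z x0) ?_ (x := x0) rfl v
      intro u v huv hu
      rw [← hstep u v (hadjd i u v huv)]; exact hu
    have h5 := hneg a b hab
    rw [hconst a, hconst b] at h5
    have : z x0 = 0 := by linarith
    rw [this, abs_zero] at hpos; exact lt_irrefl _ hpos
  · push Not at hk
    -- the distance-d graph is a perfect matching
    have huniq : ∀ x y y', G.dist x y = d → G.dist x y' = d → y = y' := by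
      intro x y y' h1 h2
      by_contra hne
      exact hk x y y' hne h1 h2
    have hall : ∀ v, v = a ∨ v = b := by
      intro v
      refine conn_closed hconn (fun v => v = a ∨ v = b) ?_ (x := a) (Or.inl rfl) v
      intro u w huw hu
      have h1 := hadjd d u w huw
      rcases hu with hu | hu
      · right; rw [hu] at h1; exact huniq a w b h1 hab
      · left; rw [hu] at h1
        exact huniq b w a h1 (by rw [SimpleGraph.dist_comm]; exact hab)
    have hne : a ≠ b := by
      intro hab'
      rw [hab', SimpleGraph.dist_self] at hab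
      omega
    apply hcard
    have huniv : (Finset.univ : Finset V) = {a, b} := by
      ext v; simp only [Finset.mem_univ, Finset.mem_insert, Finset.mem_singleton, true_iff]
      exact hall v
    rw [← Finset.card_univ, huniv, Finset.card_pair hne]

end Pool.Agent.S07263
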