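import Pool.Statements.S07275
import Pool.Agent.Pst.Asm

set_option autoImplicit false
open Pool Pool.MP_12e063_co

namespace Pool.Agent.S07275

/-- There are constants C,k such that arbitrarily large connected simple graphs exist with at most C·diam^k vertices, each having perfect state transfer: for some distinct u,v and time t, the (u,v) entry of exp(-itA) has modulus 1. -/
theorem result :
    ∃ C k : ℕ, ∀ N : ℕ, ∃ (n : ℕ) (G : SimpleGraph (Fin n)) (_ : DecidableRel G.Adj),
      N < n ∧ G.Connected ∧ n ≤ C * G.diam ^ k ∧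
      ∃ (u v : Fin n) (t : ℝ), u ≠ v ∧
        ‖∑' m : ℕ, ((-(t : ℂ) * Complex.I) ^ m / (m.factorial : ℂ)) *
            ((G.adjMatrix ℂ) ^ m) u v‖ = 1 := by
  refine ⟨2, 5, fun N => ?_⟩
  obtain ⟨n, G, inst, h1, h2, h3, h4⟩ := Pool.Agent.Pst.family (N + 2) (by omega)
  exact ⟨n, G, inst, by omega, h2, h3, h4⟩

end Pool.Agent.S07275
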