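import Pool.Statements.S08113
import Pool.Agent.MP_376d35_co.Main

set_option autoImplicit false
open Pool Pool.MP_376d35_co

namespace Pool.Agent.S08113

/-- For finite graphic matroids M1, M2 on a common ground set, if their union (independent sets are unions of an M1-independent and an M2-independent set) is not graphic, then it is not binary. -/
theorem result :
    ∀ (α : Type) (M₁ M₂ N : Matroid α),
      M₁.E.Finite → M₂.E = M₁.E → N.E = M₁.E →
      (∀ I : Set α, N.Indep I ↔ ∃ I₁ I₂ : Set α, M₁.Indep I₁ ∧ M₂.Indep I₂ ∧ I = I₁ ∪ I₂) →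
      (∃ (V : Type) (u w : α → V), ∀ I : Set α, I ⊆ M₁.E →
        (M₁.Indep I ↔ LinearIndependent ℚ
          (fun e : ↥I => Finsupp.single (u e.1) (1 : ℚ) - Finsupp.single (w e.1) (1 : ℚ)))) →
      (∃ (V : Type) (u w : α → V), ∀ I : Set α, I ⊆ M₂.E →
        (M₂.Indep I ↔ LinearIndependent ℚ
          (fun e : ↥I => Finsupp.single (u e.1) (1 : ℚ) - Finsupp.single (w e.1) (1 : ℚ)))) →
      ¬ (∃ (V : Type) (u w : α → V), ∀ I : Set α, I ⊆ N.E →
        (N.Indep I ↔ LinearIndependent ℚ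
          (fun e : ↥I => Finsupp.single (u e.1) (1 : ℚ) - Finsupp.single (w e.1) (1 : ℚ)))) →
      ¬ (∃ (ι : Type) (f : α → ι → ZMod 2), ∀ I : Set α, I ⊆ N.E →
        (N.Indep I ↔ LinearIndependent (ZMod 2) (fun e : ↥I => f e.1))) := by
  intro α M₁ M₂ N hfin hE2 hEN hind hG₁ hG₂ hnG hB
  apply hnG
  obtain ⟨ι, f, hf⟩ := hB
  have hU : Recski.IsUnion N M₁ M₂ := ⟨hEN ▸ hfin, hEN.symm, hE2.trans hEN.symm, hind⟩
  exact Recski.recski hU hG₁ hG₂ ⟨ι → ZMod 2, inferInstance, inferInstance, f, hf⟩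

end Pool.Agent.S08113
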