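import Pool.Statements.S08302
-- import your own Pool.Agent.* helpers here
import Pool.Agent.MP_3f311b_co.Group
import Pool.Agent.MP_3f311b_co.NoSym2

set_option autoImplicit false
open Pool Pool.MP_3f311b_co

namespace Pool.Agent.S08302

open Pool.Agent.MP_3f311b_co in
/-- Facial subsets of an injectively labelled configuration are the exposed label sets. -/
theorem facial_iff (z : Fin 16 → (Fin 5 → ℝ)) (hz : Function.Injective z)
    (facial : Set (Fin 5 → ℝ) → Set (Fin 5 → ℝ) → Prop)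
    (hf : ∀ S A, facial S A ↔ ∃ ℓ : (Fin 5 → ℝ) →ₗ[ℝ] ℝ, ∃ c : ℝ,
          (∀ x ∈ S, ℓ x ≤ c) ∧ A = {x | x ∈ S ∧ ℓ x = c}) (A : Set (Fin 16)) :
    facial (Set.range z) (z '' A) ↔ Exposed z A := by
  rw [hf]
  constructor
  · rintro ⟨l, c, h1, h2⟩
    refine ⟨l, c, fun i => h1 _ ⟨i, rfl⟩, fun i => ?_⟩
    have h3 : z i ∈ z '' A ↔ i ∈ A := hz.mem_set_image
    rw [← h3, h2]
    constructor
    · rintro ⟨-, h⟩; exact h
    · intro h; exact ⟨⟨i, rfl⟩, h⟩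
  · rintro ⟨l, c, h1, h2⟩
    refine ⟨l, c, ?_, ?_⟩
    · rintro _ ⟨i, rfl⟩; exact h1 i
    · ext x
      constructor
      · rintro ⟨i, hi, rfl⟩
        exact ⟨⟨i, rfl⟩, (h2 i).1 hi⟩
      · rintro ⟨⟨i, rfl⟩, h⟩
        exact ⟨i, (h2 i).2 h, rfl⟩

open Pool.Agent.MP_3f311b_co in
/-- A label permutation that preserves exposed sets induces a permutation of the points. -/
theorem perm_affine (Y : Fin 16 → (Fin 5 → ℝ)) (hY : Function.Injective Y)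
    (facial : Set (Fin 5 → ℝ) → Set (Fin 5 → ℝ) → Prop)
    (hf : ∀ S A, facial S A ↔ ∃ ℓ : (Fin 5 → ℝ) →ₗ[ℝ] ℝ, ∃ c : ℝ,
          (∀ x ∈ S, ℓ x ≤ c) ∧ A = {x | x ∈ S ∧ ℓ x = c})
    (hXY : ∀ A : Set (Fin 16), Exposed xr A ↔ Exposed Y A)
    (hsym : ∀ σ : (Fin 5 → ℝ) → (Fin 5 → ℝ), Set.BijOn σ (Set.range Y) (Set.range Y) →
        (∀ A ⊆ Set.range Y, (facial (Set.range Y) A ↔ facial (Set.range Y) (σ '' A))) →
        ∃ T : (Fin 5 → ℝ) ≃ᵃ[ℝ] (Fin 5 → ℝ), ∀ x ∈ Set.range Y, T x = σ x)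
    (p : Equiv.Perm (Fin 16)) (hp : Inv p) (hp' : Inv p.symm) :
    ∃ T : (Fin 5 → ℝ) ≃ᵃ[ℝ] (Fin 5 → ℝ), ∀ i, T (Y i) = Y (p i) := by
  have hinv : ∀ i, Function.invFun Y (Y i) = i := Function.leftInverse_invFun hY
  have hs : ∀ i, (fun y => Y (p (Function.invFun Y y))) (Y i) = Y (p i) := by
    intro i; simp only [hinv]
  have hbij : Set.BijOn (fun y => Y (p (Function.invFun Y y))) (Set.range Y) (Set.range Y) := by
    refine ⟨?_, ?_, ?_⟩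
    · rintro _ ⟨i, rfl⟩
      exact ⟨p i, (hs i).symm⟩
    · rintro _ ⟨i, rfl⟩ _ ⟨j, rfl⟩ h
      rw [hs, hs] at h
      rw [p.injective (hY h)]
    · rintro _ ⟨i, rfl⟩
      exact ⟨Y (p.symm i), ⟨_, rfl⟩, by rw [hs]; simp⟩
  have hcomb : ∀ A ⊆ Set.range Y, (facial (Set.range Y) A ↔
      facial (Set.range Y) ((fun y => Y (p (Function.invFun Y y))) '' A)) := by
    intro A hA
    have hA' : A = Y '' (Y ⁻¹' A) := by
      rw [Set.image_preimage_eq_inter_range, Set.inter_eq_left.2 hA]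
    have hσ : (fun y => Y (p (Function.invFun Y y))) '' A = Y '' (p '' (Y ⁻¹' A)) := by
      conv_lhs => rw [hA']
      rw [Set.image_image, Set.image_image]
      exact Set.image_congr (fun i _ => hs i)
    rw [hσ]
    conv_lhs => rw [hA']
    rw [facial_iff Y hY facial hf, facial_iff Y hY facial hf, ← hXY, ← hXY]
    exact exposed_perm p hp hp' _
  obtain ⟨T, hT⟩ := hsym _ hbij hcomb
  exact ⟨T, fun i => (hT _ ⟨i, rfl⟩).trans (hs i)⟩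

open Pool.Agent.MP_3f311b_co in
/-- No orbit `O` can carry both the face structure and affine symmetries. -/
theorem core (O : Set (Fin 5 → ℝ)) (f : (Fin 5 → ℝ) → (Fin 5 → ℝ))
    (hf : Set.BijOn f (Set.range xr) O)
    (facial : Set (Fin 5 → ℝ) → Set (Fin 5 → ℝ) → Prop)
    (hfacial : ∀ S A, facial S A ↔ ∃ ℓ : (Fin 5 → ℝ) →ₗ[ℝ] ℝ, ∃ c : ℝ,
          (∀ x ∈ S, ℓ x ≤ c) ∧ A = {x | x ∈ S ∧ ℓ x = c})
    (hfac : ∀ A ⊆ Set.range xr, (facial (Set.range xr) A ↔ facial O (f '' A)))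
    (hsym : ∀ σ : (Fin 5 → ℝ) → (Fin 5 → ℝ), Set.BijOn σ O O →
        (∀ A ⊆ O, (facial O A ↔ facial O (σ '' A))) →
        ∃ T : (Fin 5 → ℝ) ≃ᵃ[ℝ] (Fin 5 → ℝ), ∀ x ∈ O, T x = σ x) : False := by
  have hY : Function.Injective (fun i => f (xr i)) := by
    intro i j h
    exact xr_inj (hf.injOn ⟨i, rfl⟩ ⟨j, rfl⟩ h)
  have hrange : O = Set.range (fun i => f (xr i)) := by
    rw [← hf.image_eq]
    ext x
    constructor
    · rintro ⟨_, ⟨i, rfl⟩, rfl⟩; exact ⟨i, rfl⟩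
    · rintro ⟨i, rfl⟩; exact ⟨_, ⟨i, rfl⟩, rfl⟩
  rw [hrange] at hfac hsym
  have hXY : ∀ A : Set (Fin 16), Exposed xr A ↔ Exposed (fun i => f (xr i)) A := by
    intro A
    rw [← facial_iff xr xr_inj facial hfacial, ← facial_iff _ hY facial hfacial]
    rw [hfac _ (Set.image_subset_range _ _), Set.image_image]
  have hperm := perm_affine (fun i => f (xr i)) hY facial hfacial hXY hsym
  obtain ⟨Tr, hTr⟩ := hperm rE inv_r inv_r'
  obtain ⟨Ts, hTs⟩ := hperm sE inv_s inv_s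
  obtain ⟨Tt, hTt⟩ := hperm tE inv_t inv_t
  exact no_sym (fun i => f (xr i)) (fun A hA => (hXY A).1 hA.exposed) Tr Ts Tt hTr hTs hTt

open Pool.Agent.MP_3f311b_co in
/-- The negation of the preceding statement: For every finite matrix group G and full-dimensional orbit polytope conv(Gv), some v0 gives a combinatorially equivalent orbit polytope conv(Gv0) all of whose face-preserving vertex permutations are restrictions of affine bijections. -/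
theorem result :
    ¬ (∀ (d : ℕ) (G : Subgroup (Matrix.GeneralLinearGroup (Fin d) ℝ)),
    (G : Set (Matrix.GeneralLinearGroup (Fin d) ℝ)).Finite →
    ∀ (orb : (Fin d → ℝ) → Set (Fin d → ℝ)),
      (∀ w, orb w = {x | ∃ g ∈ G, x = Matrix.mulVec (g : Matrix (Fin d) (Fin d) ℝ) w}) →
    ∀ (facial : Set (Fin d → ℝ) → Set (Fin d → ℝ) → Prop),
      (∀ S A, facial S A ↔ ∃ ℓ : (Fin d → ℝ) →ₗ[ℝ] ℝ, ∃ c : ℝ,
          (∀ x ∈ S, ℓ x ≤ c) ∧ A = {x | x ∈ S ∧ ℓ x = c}) →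
    ∀ v : Fin d → ℝ, affineSpan ℝ (orb v) = ⊤ →
    ∃ v₀ : Fin d → ℝ,
      (∃ f : (Fin d → ℝ) → (Fin d → ℝ), Set.BijOn f (orb v) (orb v₀) ∧
        ∀ A ⊆ orb v, (facial (orb v) A ↔ facial (orb v₀) (f '' A))) ∧
      ∀ σ : (Fin d → ℝ) → (Fin d → ℝ), Set.BijOn σ (orb v₀) (orb v₀) →
        (∀ A ⊆ orb v₀, (facial (orb v₀) A ↔ facial (orb v₀) (σ '' A))) →
        ∃ T : (Fin d → ℝ) ≃ᵃ[ℝ] (Fin d → ℝ), ∀ x ∈ orb v₀, T x = σ x) := by
  intro H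
  obtain ⟨v₀, ⟨f, hf, hfac⟩, hsym⟩ := H 5 G G_finite
    (fun w => {x | ∃ g ∈ G, x = Matrix.mulVec (g : Matrix (Fin 5) (Fin 5) ℝ) w}) (fun _ => rfl)
    (fun S A => ∃ ℓ : (Fin 5 → ℝ) →ₗ[ℝ] ℝ, ∃ c : ℝ,
          (∀ x ∈ S, ℓ x ≤ c) ∧ A = {x | x ∈ S ∧ ℓ x = c}) (fun _ _ => Iff.rfl)
    (xr 0) (orbit_eq.symm ▸ affine_top)
  refine core _ f ?_ (fun S A => ∃ ℓ : (Fin 5 → ℝ) →ₗ[ℝ] ℝ, ∃ c : ℝ,
          (∀ x ∈ S, ℓ x ≤ c) ∧ A = {x | x ∈ S ∧ ℓ x = c}) (fun _ _ => Iff.rfl) ?_ hsym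
  · rw [← orbit_eq]; exact hf
  · rw [← orbit_eq]; exact hfac

end Pool.Agent.S08302
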