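import Pool.Statements.S08570
import Pool.Agent.MP_49949b_co.Final

set_option autoImplicit false
open Pool Pool.MP_49949b_co

namespace Pool.Agent.S08570

/-- The negation of the preceding statement: Some finite projective plane of order n=k² has a quasiregular collineation group G with 2∣G∣>n²+n+1, ∣G∣=(n−k+1)², exactly 2k+1 point orbits, and no point or line fixed by all of G. -/
theorem result :
    ¬ (∃ (P L : Type) (_ : Membership P L) (_ : Configuration.ProjectivePlane P L)
      (_ : Finite P) (G : Type) (_ : Group G) (_ : Finite G)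
      (_ : MulAction G P) (_ : MulAction G L) (k : ℕ),
      Configuration.ProjectivePlane.order P L = k ^ 2 ∧
      FaithfulSMul G P ∧
      (∀ (g : G) (p : P) (l : L), p ∈ l ↔ g • p ∈ g • l) ∧
      (∀ (g : G) (p q : P), q ∈ MulAction.orbit G p → g • p = p → g • q = q) ∧
      (∀ (g : G) (l m : L), m ∈ MulAction.orbit G l → g • l = l → g • m = m) ∧
      2 * Nat.card G > (k ^ 2) ^ 2 + k ^ 2 + 1 ∧
      Nat.card G = (k ^ 2 - k + 1) ^ 2 ∧
      Nat.card (MulAction.orbitRel.Quotient G P) = 2 * k + 1 ∧
      (¬ ∃ p : P, ∀ g : G, g • p = p) ∧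
      (¬ ∃ l : L, ∀ g : G, g • l = l)) := by
  rintro ⟨P, L, hmem, hpp, hP, G, hG, hGfin, hGP, hGL, k, hord, hfaith, hinc, hqrP, -, hgt, hcard,
    horb, hnofP, hnofL⟩
  classical
  have hLfin : Finite L := by
    have hinj : Function.Injective (fun l : L => {p : P | p ∈ l}) := by
      intro l m hlm
      by_contra hne
      have hlm' : ∀ q : P, q ∈ l → q ∈ m := by
        intro q hq
        have h1 : q ∈ {p : P | p ∈ l} := hq
        have h2 : {p : P | p ∈ l} = {p : P | p ∈ m} := hlm
        rw [h2] at h1
        exact h1
      have hp := Configuration.HasPoints.mkPoint_ax (P := P) hne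
      obtain ⟨l', hl'⟩ := Configuration.Nondegenerate.exists_line (P := P) (L := L)
        (Configuration.HasPoints.mkPoint hne)
      have hne' : l ≠ l' := by
        intro h
        exact hl' (h ▸ hp.1)
      have hq := Configuration.HasPoints.mkPoint_ax (P := P) hne'
      have h3 := hlm' _ hq.1
      have h4 := (Configuration.Nondegenerate.eq_or_eq hp.1 hq.1 hp.2 h3).resolve_right hne
      apply hl'
      rw [h4]
      exact hq.2
    exact Finite.of_injective _ hinj
  have hPf : Fintype P := Fintype.ofFinite P
  have hLf : Fintype L := Fintype.ofFinite L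
  have hGf : Fintype G := Fintype.ofFinite G
  have h1lt := Configuration.ProjectivePlane.one_lt_order P L
  rw [hord] at h1lt
  have hk2 : 2 ≤ k := by
    by_contra h
    have : k = 0 ∨ k = 1 := by omega
    rcases this with rfl | rfl <;> omega
  have hkk : k ≤ k ^ 2 := by nlinarith
  set v := k ^ 2 - k + 1 with hv
  have hvk : v + k = k ^ 2 + 1 := by omega
  have hk3 : 3 ≤ k := by
    by_contra h
    have hk : k = 2 := by omega
    subst hk
    have : v = 3 := by omega
    rw [this] at hcard
    rw [hcard] at hgt
    norm_num at hgt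
  have S : Pool.Agent.MP_49949b_co.Setup P L G k v := by
    refine ⟨hord, ?_, hinc, hqrP, hk3, hvk, ?_, horb, hnofP, hnofL⟩
    · intro g hg
      apply hfaith.eq_of_smul_eq_smul
      intro p
      rw [hg p, one_smul]
    · rw [← Nat.card_eq_fintype_card]
      exact hcard
  exact Pool.Agent.MP_49949b_co.setup_false S

end Pool.Agent.S08570
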