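import Pool.Statements.S09431
import Pool.Agent.C44.Final

set_option autoImplicit false
open Pool Pool.MP_70f273_co

namespace Pool.Agent.S09431

/-- The Turán density of the expanded 4-clique (8 vertices in four pairs, edges = unions of two pairs) equals 9/14: for large n, the max edges of a 4-graph on n vertices with no such copy is (9/14+o(1)) times n choose 4. -/
theorem result :
    ∀ ε : ℝ, 0 < ε → ∃ N : ℕ, ∀ n : ℕ, N ≤ n →
      (∀ H : Finset (Finset (Fin n)), (∀ e ∈ H, e.card = 4) →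
        (¬ ∃ f : Fin 4 × Fin 2 → Fin n, Function.Injective f ∧
            ∀ i j : Fin 4, i ≠ j →
              ({f (i, 0), f (i, 1), f (j, 0), f (j, 1)} : Finset (Fin n)) ∈ H) →
        (H.card : ℝ) ≤ (9 / 14 + ε) * ((n.choose 4 : ℕ) : ℝ)) ∧
      (∃ H : Finset (Finset (Fin n)), (∀ e ∈ H, e.card = 4) ∧
        (¬ ∃ f : Fin 4 × Fin 2 → Fin n, Function.Injective f ∧
            ∀ i j : Fin 4, i ≠ j →
              ({f (i, 0), f (i, 1), f (j, 0), f (j, 1)} : Finset (Fin n)) ∈ H) ∧
        (9 / 14 - ε) * ((n.choose 4 : ℕ) : ℝ) ≤ (H.card : ℝ)) := by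
  exact Pool.Agent.C44.final

end Pool.Agent.S09431
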