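import Pool.Statements.S09572
import Pool.Agent.MP_769135_co.Final

set_option autoImplicit false
open Pointwise
open Pool Pool.MP_769135_co

namespace Pool.Agent.S09572

/-- The negation of the preceding statement: For a finite group acting affinely on ℤⁿ and preserving a full-dimensional lattice polytope, if every coefficient of the equivariant h*-series is a genuine character, then the sum of the coefficients is the character of a permutation action on a finite set. -/
theorem result :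
    ¬ (∀ (n : ℕ) (G : Type) [Group G] [Fintype G]
    (ρ : G →* ((Fin n → ℤ) ≃ᵃ[ℤ] (Fin n → ℤ)))
    (S : Finset (Fin n → ℤ)) (P : Set (Fin n → ℝ)),
    P = convexHull ℝ ((fun x : Fin n → ℤ => fun k => (x k : ℝ)) '' (S : Set (Fin n → ℤ))) →
    (interior P).Nonempty →
    (∀ (g : G) (x : Fin n → ℤ), (fun k => (x k : ℝ)) ∈ P →
        (fun k => ((ρ g x) k : ℝ)) ∈ P) →
    ∀ (h : ℕ → G → ℤ),
    (∀ (i : ℕ) (g : G), h i g =
        ∑ j ∈ Finset.range (i + 1),
          Polynomial.coeff ((1 - Polynomial.X) *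
              Matrix.det (1 - (Polynomial.X : Polynomial ℤ) •
                ((LinearMap.toMatrix'
                  ((ρ g).linear : (Fin n → ℤ) →ₗ[ℤ] (Fin n → ℤ))).map Polynomial.C))) j *
            (({x : Fin n → ℤ | (fun k => (x k : ℝ)) ∈ ((i - j : ℕ) : ℝ) • P ∧
                (ρ g).linear x + (i - j : ℕ) • (ρ g 0) = x}.ncard : ℕ) : ℤ)) →
    (∀ i : ℕ, ∃ V : FDRep ℂ G, ∀ g : G, V.character g = ((h i g : ℤ) : ℂ)) →
    ∃ (X : Type) (_ : Finite X) (_ : MulAction G X), ∀ g : G,
      ∑ i ∈ Finset.range (n + 1), ((h i g : ℤ) : ℂ) =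
        ((Nat.card {x : X // g • x = x} : ℕ) : ℂ)) := by
  intro H
  obtain ⟨Y, hfin, hact, hY⟩ := H 8 Pool.Agent.PermEhr.S4 Pool.Agent.PermEhr.rho
    Pool.Agent.PermEhr.verts Pool.Agent.PermEhr.Pt rfl Pool.Agent.PermEhr.interior_Pt
    Pool.Agent.PermEhr.Pt_act Pool.Agent.PermEhr.T
    (fun i g => (Pool.Agent.PermEhr.formula i g).symm)
    (fun i => Pool.Agent.PermEhr.genuine_fdrep (Pool.Agent.PermEhr.genuine_T i))
  have key : ∀ (g : Equiv.Perm (Fin 4)) (c : ℕ), Pool.Agent.PermEhr.Tot g = (c : ℤ) →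
      Nat.card {x : Y // g • x = x} = c := by
    intro g c hc
    have h1 := hY g
    have h2 : ((Pool.Agent.PermEhr.Tot g : ℤ) : ℂ)
        = ((Nat.card {x : Y // g • x = x} : ℕ) : ℂ) := by
      rw [← h1, Pool.Agent.PermEhr.Tot]
      push_cast
      rfl
    rw [hc] at h2
    have h3 : ((c : ℕ) : ℂ) = ((Nat.card {x : Y // g • x = x} : ℕ) : ℂ) := by
      rw [← h2]
      push_cast
      rfl
    exact (Nat.cast_injective h3).symm
  exact Pool.Agent.PermEhr.no_action Y
    (key _ 24 Pool.Agent.PermEhr.tot0) (key _ 6 Pool.Agent.PermEhr.tot1)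
    (key _ 12 Pool.Agent.PermEhr.tota) (key _ 12 Pool.Agent.PermEhr.totb)
    (key _ 12 Pool.Agent.PermEhr.totc) (key _ 12 Pool.Agent.PermEhr.tott)

end Pool.Agent.S09572
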