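import Pool.Statements.S10582

set_option autoImplicit false
open Pool Pool.MP_a55b46_co

namespace Pool.Agent.S10582

/-- Adjacency of the counterexample graph on `40` vertices for `ℓ = 6`, `m = 15`:
the vertices `0, …, 14` form a clique `K`, the vertices `15, …, 39` form an independent set `W`,
and the vertex `15 + j` of `W` is joined to the six consecutive vertices
`6 j, 6 j + 1, …, 6 j + 5` (modulo `15`) of `K`. -/
def adjN (i j : ℕ) : Bool :=
  (decide (i < 15) && decide (j < 15) && !(decide (i = j))) ||
  (decide (i < 15) && decide (15 ≤ j) && decide ((i + 150 - 6 * (j - 15)) % 15 < 6)) ||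
  (decide (j < 15) && decide (15 ≤ i) && decide ((j + 150 - 6 * (i - 15)) % 15 < 6))

theorem adjN_symm : ∀ i j : Fin 40, adjN i j = true → adjN j i = true := by
  decide +kernel

theorem adjN_irrefl : ∀ i : Fin 40, ¬ adjN i i = true := by
  decide +kernel

/-- The counterexample graph. -/
def G : SimpleGraph (Fin 40) where
  Adj i j := adjN i j = true
  symm := ⟨fun i j h => adjN_symm i j h⟩
  loopless := ⟨fun i h => adjN_irrefl i h⟩

instance : DecidableRel G.Adj := fun i j => inferInstanceAs (Decidable (adjN i j = true))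

theorem adj_def (i j : Fin 40) : G.Adj i j ↔ adjN i j = true := Iff.rfl

/-- Two vertices of the independent part are never adjacent. -/
theorem not_adj_of_ge : ∀ i j : Fin 40, 15 ≤ (i : ℕ) → 15 ≤ (j : ℕ) → ¬ G.Adj i j := by
  intro i j hi hj h
  rw [adj_def] at h
  simp [adjN] at h
  omega

/-- Two different vertices of the clique part are adjacent. -/
theorem adj_of_lt : ∀ i j : Fin 40, (i : ℕ) < 15 → (j : ℕ) < 15 → i ≠ j → G.Adj i j := by
  intro i j hi hj h
  rw [adj_def]
  have : (i : ℕ) ≠ (j : ℕ) := fun h' => h (Fin.ext h')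
  simp [adjN, hi, hj, this]

/-- The closed neighbourhood of `w`. -/
def clN (w : Fin 40) : Finset (Fin 40) := Finset.univ.filter (fun v => v = w ∨ adjN w v = true)

/-- The closed non-neighbourhood of `v` inside the independent part. -/
def clM (v : Fin 40) : Finset (Fin 40) :=
  Finset.univ.filter (fun w => w = v ∨ (15 ≤ (w : ℕ) ∧ adjN v w = false))

theorem card_clN : ∀ w : Fin 40, 15 ≤ (w : ℕ) → 6 < (clN w).card := by
  decide +kernel

theorem card_clM : ∀ v : Fin 40, (v : ℕ) < 15 → 15 < (clM v).card := by
  decide +kernel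

theorem card_K : 6 < (Finset.univ.filter (fun v : Fin 40 => (v : ℕ) < 15)).card := by
  decide +kernel

theorem card_W : 15 < (Finset.univ.filter (fun v : Fin 40 => 15 ≤ (v : ℕ))).card := by
  decide +kernel

/-- Every maximal clique of `G` has more than six vertices. -/
theorem cliques (s : Finset (Fin 40))
    (hs : Maximal (fun t : Finset (Fin 40) => G.IsClique (t : Set (Fin 40))) s) : 6 < s.card := by
  by_cases h : ∃ w ∈ s, 15 ≤ (w : ℕ)
  · obtain ⟨w, hws, hw⟩ := h
    have hclique : G.IsClique ((clN w : Finset (Fin 40)) : Set (Fin 40)) := by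
      intro a ha b hb hab
      have ha' : a = w ∨ G.Adj w a := by simpa [clN, adj_def] using ha
      have hb' : b = w ∨ G.Adj w b := by simpa [clN, adj_def] using hb
      have key : ∀ c : Fin 40, G.Adj w c → (c : ℕ) < 15 := by
        intro c hc
        by_contra hc'
        exact not_adj_of_ge w c hw (by omega) hc
      rcases ha' with rfl | ha'
      · rcases hb' with rfl | hb'
        · exact absurd rfl hab
        · exact hb'
      · rcases hb' with rfl | hb'
        · exact ha'.symm
        · exact adj_of_lt a b (key a ha') (key b hb') hab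
    have hsub : s ≤ clN w := by
      intro a ha
      by_cases haw : a = w
      · simp [clN, haw]
      · have := hs.prop (by simpa using hws) (by simpa using ha) (Ne.symm haw)
        simp [clN]
        exact Or.inr this
    have := hs.le_of_ge hclique hsub
    exact lt_of_lt_of_le (card_clN w hw) (Finset.card_le_card this)
  · push Not at h
    have hclique : G.IsClique
        ((Finset.univ.filter (fun v : Fin 40 => (v : ℕ) < 15) : Finset (Fin 40)) :
          Set (Fin 40)) := by
      intro a ha b hb hab
      exact adj_of_lt a b (by simpa using ha) (by simpa using hb) hab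
    have hsub : s ≤ Finset.univ.filter (fun v : Fin 40 => (v : ℕ) < 15) := by
      intro a ha
      simpa using h a ha
    have := hs.le_of_ge hclique hsub
    exact lt_of_lt_of_le card_K (Finset.card_le_card this)

/-- Every maximal independent set of `G` has more than fifteen vertices. -/
theorem indeps (s : Finset (Fin 40))
    (hs : Maximal (fun t : Finset (Fin 40) => G.IsIndepSet (t : Set (Fin 40))) s) :
    15 < s.card := by
  by_cases h : ∃ v ∈ s, (v : ℕ) < 15
  · obtain ⟨v, hvs, hv⟩ := h
    have hind : G.IsIndepSet ((clM v : Finset (Fin 40)) : Set (Fin 40)) := by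
      intro a ha b hb hab
      have ha' : a = v ∨ (15 ≤ (a : ℕ) ∧ ¬ G.Adj v a) := by
        simpa [clM, adj_def] using ha
      have hb' : b = v ∨ (15 ≤ (b : ℕ) ∧ ¬ G.Adj v b) := by
        simpa [clM, adj_def] using hb
      rcases ha' with rfl | ⟨ha1, ha2⟩
      · rcases hb' with rfl | ⟨hb1, hb2⟩
        · exact absurd rfl hab
        · exact hb2
      · rcases hb' with rfl | ⟨hb1, hb2⟩
        · exact fun h => ha2 h.symm
        · exact not_adj_of_ge a b ha1 hb1
    have hsub : s ≤ clM v := by
      intro a ha
      by_cases hav : a = v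
      · simp [clM, hav]
      · have h1 : ¬ G.Adj v a := hs.prop (by simpa using hvs) (by simpa using ha) (Ne.symm hav)
        have h2 : 15 ≤ (a : ℕ) := by
          by_contra h3
          exact h1 (adj_of_lt v a hv (by omega) (Ne.symm hav))
        have h1' : adjN v a = false := by simpa [adj_def] using h1
        simp [clM, h2, h1']
    have := hs.le_of_ge hind hsub
    exact lt_of_lt_of_le (card_clM v hv) (Finset.card_le_card this)
  · push Not at h
    have hind : G.IsIndepSet
        ((Finset.univ.filter (fun v : Fin 40 => 15 ≤ (v : ℕ)) : Finset (Fin 40)) :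
          Set (Fin 40)) := by
      intro a ha b hb hab
      exact not_adj_of_ge a b (by simpa using ha) (by simpa using hb)
    have hsub : s ≤ Finset.univ.filter (fun v : Fin 40 => 15 ≤ (v : ℕ)) := by
      intro a ha
      simpa using h a ha
    have := hs.le_of_ge hind hsub
    exact lt_of_lt_of_le card_W (Finset.card_le_card this)

/-- For `m = 15` and `ℓ = 6` the pair `(2, 7)` minimises `|a ℓ - b|` over `N_m`. -/
theorem minimal_pair (a b : ℕ) (ha : 0 < a) (hab : a ≤ b) (h1 : a * b ≤ 15)
    (h2 : 15 ≤ a * (b + 1)) :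
    |((2 * 6 : ℕ) : ℤ) - ((7 : ℕ) : ℤ)| ≤ |((a * 6 : ℕ) : ℤ) - (b : ℤ)| := by
  have ha4 : a ≤ 3 := by
    by_contra h
    have : 4 * 4 ≤ a * b := Nat.mul_le_mul (by omega) (by omega)
    omega
  have hb : b ≤ 15 := by
    have : 1 * b ≤ a * b := Nat.mul_le_mul_right b ha
    omega
  have h5 : |((2 * 6 : ℕ) : ℤ) - ((7 : ℕ) : ℤ)| = 5 := by norm_num
  rw [h5, le_abs]
  push_cast
  interval_cases a <;> omega

/-- The negation of the preceding statement: For 2 ≤ ℓ < ⌊m/2⌋ and any (α,β) in N_m minimizing the gap between αℓ and β, the least order of a graph whose maximal cliques all exceed ℓ vertices and maximal independent sets all exceed m vertices is ℓ+m+β+αℓ, plus 1 if m≠αβ. -/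
theorem result :
    ¬ (∀ ℓ m : ℕ, 2 ≤ ℓ → ℓ < m / 2 →
      ∀ α β : ℕ, (0 < α ∧ α ≤ β ∧ α * β ≤ m ∧ m ≤ α * (β + 1)) →
        (∀ a b : ℕ, 0 < a → a ≤ b → a * b ≤ m → m ≤ a * (b + 1) →
          |((α * ℓ : ℕ) : ℤ) - (β : ℤ)| ≤ |((a * ℓ : ℕ) : ℤ) - (b : ℤ)|) →
        IsLeast
          {n : ℕ | ∃ G : SimpleGraph (Fin n),
            (∀ s : Finset (Fin n),
              Maximal (fun t : Finset (Fin n) => G.IsClique (t : Set (Fin n))) s → ℓ < s.card) ∧
            (∀ s : Finset (Fin n),
              Maximal (fun t : Finset (Fin n) => G.IsIndepSet (t : Set (Fin n))) s → m < s.card)}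
          (ℓ + m + β + α * ℓ + (if m = α * β then 0 else 1))) := by
  intro H
  have h := H 6 15 (by norm_num) (by norm_num) 2 7 (by norm_num) minimal_pair
  have h2 := h.2 (show (40 : ℕ) ∈ _ from ⟨G, cliques, indeps⟩)
  norm_num at h2

end Pool.Agent.S10582
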