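import Pool.Statements.S10628
-- import your own Pool.Agent.* helpers here

set_option autoImplicit false
open Pool Pool.MP_a76d3a_co

namespace Pool.Agent.S10628

open Finset

/-- Product over the edges of a functional graph without 2-cycles. -/
theorem prod_edges {W : Type} [Fintype W] [DecidableEq W] (f : W → W)
    (hf2 : ∀ w, f (f w) ≠ w) (K : SimpleGraph W) [DecidableRel K.Adj]
    (hK : ∀ u v, K.Adj u v ↔ (v = f u ∨ u = f v)) (F : Sym2 W → ℝ) :
    ∏ e ∈ K.edgeFinset, F e = ∏ w, F s(w, f w) := by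
  have h : K.edgeFinset = Finset.univ.image (fun w => s(w, f w)) := by
    ext e
    induction e using Sym2.ind with
    | _ u v =>
      simp only [SimpleGraph.mem_edgeFinset, SimpleGraph.mem_edgeSet, Finset.mem_image,
        Finset.mem_univ, true_and, Sym2.eq_iff, hK]
      constructor
      · rintro (h | h)
        · exact ⟨u, Or.inl ⟨rfl, h.symm⟩⟩
        · exact ⟨v, Or.inr ⟨rfl, h.symm⟩⟩
      · rintro ⟨w, (⟨rfl, h⟩ | ⟨rfl, h⟩)⟩
        · exact Or.inl h.symm
        · exact Or.inr h.symm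
  rw [h, Finset.prod_image]
  intro w _ w' _ hww
  simp only [Sym2.eq_iff] at hww
  rcases hww with ⟨h, _⟩ | ⟨h1, h2⟩
  · exact h
  · exfalso
    apply hf2 w'
    rw [← h1, h2]

/-- Summing out the leaves. -/
theorem sum_split {W C L : Type} [Fintype W] [DecidableEq W] [Fintype C] [DecidableEq C]
    [Fintype L] [DecidableEq L] (e : C ⊕ L ≃ W) (f : W → W) (g : C → C) (ρ : L → C)
    (hc : ∀ c, f (e (Sum.inl c)) = e (Sum.inl (g c)))
    (hl : ∀ l, f (e (Sum.inr l)) = e (Sum.inl (ρ l))) (n : ℕ) (a : Fin n → Fin n → ℕ) :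
    ∑ φ : W → Fin n, ∏ w, a (φ w) (φ (f w)) =
      ∑ x : C → Fin n, (∏ c, a (x c) (x (g c))) * ∏ l, ∑ y, a y (x (ρ l)) := by
  rw [← Equiv.sum_comp (Equiv.arrowCongr e (Equiv.refl (Fin n)))]
  rw [← Equiv.sum_comp (Equiv.sumArrowEquivProdArrow C L (Fin n)).symm]
  rw [Fintype.sum_prod_type]
  apply Finset.sum_congr rfl
  intro x _
  rw [Finset.prod_univ_sum, Finset.mul_sum]
  simp only [Fintype.piFinset_univ]
  apply Finset.sum_congr rfl
  intro y _
  rw [← Equiv.prod_comp e, Fintype.prod_sum_type]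
  congr 1
  · apply Finset.prod_congr rfl
    intro c _
    simp [Equiv.arrowCongr, hc, Equiv.sumArrowEquivProdArrow]
  · apply Finset.prod_congr rfl
    intro l _
    simp [Equiv.arrowCongr, hl, Equiv.sumArrowEquivProdArrow]

/-- The weighted target graph on six vertices. -/
def a : Fin 6 → Fin 6 → ℕ :=
  ![![0, 1, 20, 0, 20, 0], ![1, 0, 0, 20, 0, 20], ![20, 0, 10, 0, 0, 0],
    ![0, 20, 0, 10, 0, 0], ![20, 0, 0, 0, 0, 0], ![0, 20, 0, 0, 0, 0]]

theorem a_symm : ∀ i j, a i j = a j i := by decide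

/-- The weight matrix as a function on unordered pairs. -/
def A : Sym2 (Fin 6) → ℝ :=
  Sym2.lift ⟨fun i j => (a i j : ℝ), fun i j => congrArg (fun n : ℕ => (n : ℝ)) (a_symm i j)⟩

theorem A_mk (i j : Fin 6) : A s(i, j) = (a i j : ℝ) := rfl

theorem A_nonneg : ∀ z, 0 ≤ A z := by
  intro z
  induction z using Sym2.ind with
  | _ u v => rw [A_mk]; positivity

/-- The two cycle vertices carrying pendant edges. -/
def r : Bool → Fin 4 := fun b => if b then 1 else 0

/-- Vertices: a 4-cycle, and 40 leaves attached to each of two adjacent vertices. -/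
abbrev V : Type := Fin 4 ⊕ (Bool × Fin 40)

/-- The functional graph structure: each vertex points to its successor on the cycle, each leaf
points to its root. -/
def f : V → V
  | Sum.inl i => Sum.inl (i + 1)
  | Sum.inr l => Sum.inl (r l.1)

/-- The graph. -/
def G : SimpleGraph V where
  Adj u v := v = f u ∨ u = f v
  symm := ⟨fun _ _ h => h.symm⟩
  loopless := by
    refine ⟨fun u h => ?_⟩
    have h' : u = f u := h.elim id id
    rcases u with i | l
    · simp [f] at h'
    · simp [f] at h'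

theorem f_f_ne (w : V) : f (f w) ≠ w := by
  rcases w with i | l
  · simp only [f, ne_eq, Sum.inl.injEq]
    revert i; decide
  · simp [f]

/-- The signing of the edges: only the edge between cycle vertices 3 and 0 is crossed. -/
def s (u v : V) : Bool :=
  decide ((u = Sum.inl 3 ∧ v = Sum.inl 0) ∨ (u = Sum.inl 0 ∧ v = Sum.inl 3))

theorem s_symm (u v : V) : s u v = s v u := by
  unfold s
  congr 1
  apply propext
  tauto

/-- The functional graph structure on the 2-lift. -/
def fH (w : V × Bool) : V × Bool := (f w.1, xor w.2 (s w.1 (f w.1)))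

/-- The 2-lift. -/
def H : SimpleGraph (V × Bool) where
  Adj u v := v = fH u ∨ u = fH v
  symm := ⟨fun _ _ h => h.symm⟩
  loopless := by
    refine ⟨fun u h => ?_⟩
    have h' : u = fH u := h.elim id id
    have h1 : u.1 = f u.1 := congrArg Prod.fst h'
    generalize u.1 = w at h1
    rcases w with i | l
    · simp [f] at h1
    · simp [f] at h1

theorem fH_fH_ne (w : V × Bool) : fH (fH w) ≠ w := by
  intro h
  exact f_f_ne w.1 (congrArg Prod.fst h)

theorem lift_H : ∃ s : V → V → Bool, (∀ u v, s u v = s v u) ∧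
    ∀ u v : V, ∀ i j : Bool, H.Adj (u, i) (v, j) ↔ (G.Adj u v ∧ j = xor i (s u v)) := by
  refine ⟨s, s_symm, fun u v i j => ?_⟩
  simp only [H, G, fH, Prod.mk.injEq]
  constructor
  · rintro (⟨h1, h2⟩ | ⟨h1, h2⟩)
    · exact ⟨Or.inl h1, by rw [h1, h2]⟩
    · refine ⟨Or.inr h1, ?_⟩
      rw [← h1] at h2
      rw [s_symm u v, h2]
      cases j <;> cases s v u <;> rfl
  · rintro ⟨h1 | h1, h2⟩
    · left
      exact ⟨h1, by rw [h2, ← h1]⟩
    · right
      refine ⟨h1, ?_⟩
      rw [← h1, h2, s_symm u v]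
      cases i <;> cases s v u <;> rfl

theorem col_G : G.Colorable 2 := by
  let c : V → Bool := fun v => match v with
    | Sum.inl i => decide (i = 0 ∨ i = 2)
    | Sum.inr l => l.1
  have hc : ∀ u : V, c u ≠ c (f u) := by
    rintro (i | ⟨b, l⟩)
    · simp only [c, f]
      revert i; decide
    · simp only [c, f, r]
      cases b <;> simp
  have : G.Coloring Bool := SimpleGraph.Coloring.mk c (by
    intro u v huv
    rcases huv with h | h
    · rw [h]; exact hc u
    · rw [h]; exact (hc v).symm)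
  simpa using this.colorable

/-- natural number valued partition function of `G`. -/
def zG : ℕ := ∑ φ : V → Fin 6, ∏ w, a (φ w) (φ (f w))

/-- natural number valued partition function of `H`. -/
def zH : ℕ := ∑ φ : V × Bool → Fin 6, ∏ w, a (φ w) (φ (fH w))

/-- The special map on the 8-cycle. -/
def x0 : Fin 4 × Bool → Fin 6 := fun c =>
  if c.2 then ![1, 0, 2, 2] c.1 else ![0, 1, 3, 3] c.1

theorem zH_ge : 16000000 * 41 ^ 160 ≤ zH := by
  have h := sum_split (n := 6) (Equiv.sumProdDistrib (Fin 4) (Bool × Fin 40) Bool).symm fH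
    (fun c : Fin 4 × Bool => (c.1 + 1, xor c.2 (decide (c.1 = 3))))
    (fun l : (Bool × Fin 40) × Bool => (r l.1.1, l.2))
    (by
      rintro ⟨i, b⟩
      change (Sum.inl (i + 1), xor b (s (Sum.inl i) (Sum.inl (i + 1)))) =
        (Sum.inl (i + 1), xor b (decide (i = 3)))
      congr 2
      simp only [s, Sum.inl.injEq, decide_eq_decide]
      revert i; decide)
    (by
      rintro ⟨⟨b, k⟩, b'⟩
      change (Sum.inl (r b), xor b' (s (Sum.inr (b, k)) (Sum.inl (r b)))) =
        (Sum.inl (r b), b')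
      simp [s]) a
  unfold zH
  rw [h]
  refine le_trans ?_ (Finset.single_le_sum (fun _ _ => Nat.zero_le _) (Finset.mem_univ x0))
  have h1 : ∏ c : Fin 4 × Bool, a (x0 c) (x0 (c.1 + 1, xor c.2 (decide (c.1 = 3)))) = 16000000 := by
    decide
  have h2 : ∏ l : (Bool × Fin 40) × Bool, ∑ y, a y (x0 (r l.1.1, l.2)) = 41 ^ 160 := by
    rw [Finset.prod_congr rfl (g := fun _ => 41)]
    · rw [Finset.prod_const]
      simp
    · rintro ⟨⟨b, k⟩, b'⟩ _
      have : ∀ b b' : Bool, ∑ y, a y (x0 (r b, b')) = 41 := by decide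
      exact this b b'
  rw [h1, h2]

/-- Weighted degree. -/
def dg (i : Fin 6) : ℕ := ∑ y, a y i

/-- Table of numbers of weighted 3-walks. -/
theorem zG_eq : zG = ∑ i : Fin 6, ∑ j : Fin 6,
    (a i j * ∑ k : Fin 6, ∑ l : Fin 6, a j k * a k l * a l i) * (dg i ^ 40 * dg j ^ 40) := by
  have h := sum_split (n := 6) (Equiv.refl (Fin 4 ⊕ (Bool × Fin 40))) f
    (fun c : Fin 4 => c + 1) (fun l : Bool × Fin 40 => r l.1)
    (fun c => rfl) (fun l => rfl) a
  unfold zG
  rw [h]
  let e : (Fin 4 → Fin 6) ≃ Fin 6 × Fin 6 × Fin 6 × Fin 6 :=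
    { toFun := fun x => (x 0, x 1, x 2, x 3)
      invFun := fun p => ![p.1, p.2.1, p.2.2.1, p.2.2.2]
      left_inv := fun x => by ext i; fin_cases i <;> rfl
      right_inv := fun p => rfl }
  rw [← Equiv.sum_comp e.symm]
  rw [Fintype.sum_prod_type]
  refine Finset.sum_congr rfl fun i _ => ?_
  rw [Fintype.sum_prod_type]
  refine Finset.sum_congr rfl fun j _ => ?_
  rw [Fintype.sum_prod_type, Finset.mul_sum, Finset.sum_mul]
  refine Finset.sum_congr rfl fun k _ => ?_
  rw [Finset.mul_sum, Finset.sum_mul]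
  refine Finset.sum_congr rfl fun l _ => ?_
  rw [Fintype.prod_prod_type, Fintype.prod_bool]
  simp only [Finset.prod_const, Finset.card_univ, Fintype.card_fin, Fin.prod_univ_four]
  change (a i j * a j k * a k l * a l i) * (dg j ^ 40 * dg i ^ 40) = _
  ring

theorem zG_lt : zG ^ 2 < 16000000 * 41 ^ 160 := by
  rw [zG_eq]
  decide +kernel

/-- The negation of the preceding statement: For every finite bipartite graph G, every 2-lift H of G, and every nonnegative symmetric weight matrix A, the weighted homomorphism count of H into A is at most that of G squared, i.e. that of two disjoint copies of G. -/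
theorem result :
    ¬ (∀ (V : Type) [Fintype V] [DecidableEq V] (G : SimpleGraph V) [DecidableRel G.Adj],
      G.Colorable 2 →
      ∀ (H : SimpleGraph (V × Bool)) [DecidableRel H.Adj],
        (∃ s : V → V → Bool, (∀ u v, s u v = s v u) ∧
          ∀ u v : V, ∀ i j : Bool,
            H.Adj (u, i) (v, j) ↔ (G.Adj u v ∧ j = xor i (s u v))) →
        ∀ (n : ℕ) (A : Sym2 (Fin n) → ℝ), (∀ z, 0 ≤ A z) →
          (∑ φ : V × Bool → Fin n, ∏ e ∈ H.edgeFinset, A (Sym2.map φ e)) ≤
            (∑ φ : V → Fin n, ∏ e ∈ G.edgeFinset, A (Sym2.map φ e)) ^ 2) := by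
  intro hall
  classical
  have h := hall V G col_G H lift_H 6 A A_nonneg
  have hG : ∑ φ : V → Fin 6, ∏ e ∈ G.edgeFinset, A (Sym2.map φ e) = (zG : ℝ) := by
    unfold zG
    rw [Nat.cast_sum]
    refine Finset.sum_congr rfl fun φ _ => ?_
    rw [prod_edges f f_f_ne G (fun u v => Iff.rfl) (fun e => A (Sym2.map φ e)), Nat.cast_prod]
    rfl
  have hH : ∑ φ : V × Bool → Fin 6, ∏ e ∈ H.edgeFinset, A (Sym2.map φ e) = (zH : ℝ) := by
    unfold zH
    rw [Nat.cast_sum]
    refine Finset.sum_congr rfl fun φ _ => ?_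
    rw [prod_edges fH fH_fH_ne H (fun u v => Iff.rfl) (fun e => A (Sym2.map φ e)), Nat.cast_prod]
    rfl
  rw [hG, hH] at h
  have h' : zH ≤ zG ^ 2 := by exact_mod_cast h
  exact absurd (lt_of_lt_of_le zG_lt zH_ge) (not_lt.mpr h')

end Pool.Agent.S10628
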