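import Pool.Statements.S11328
import Pool.Agent.EvenGame.Final

set_option autoImplicit false
open Pool Pool.MP_c5aac2_co

namespace Pool.Agent.S11328

/-- The negation of the preceding statement: For every k at least 4, Player 1 has a strategy of fresh k-sets of integers such that Player 2, who must answer each set with a new even integer between its min and max, is eventually left with no legal answer. -/
theorem result :
    ¬ (∀ k : ℕ, 4 ≤ k →
      ∃ σ : List ℤ → Finset ℤ,
        ∀ b : ℕ → ℤ, ∃ n : ℕ,
          (∀ i ≤ n,
              (σ (List.ofFn (fun j : Fin i => b j))).card = k ∧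
              ∀ i' < i,
                Disjoint (σ (List.ofFn (fun j : Fin i => b j)))
                  (σ (List.ofFn (fun j : Fin i' => b j)))) ∧
          ¬ (Even (b n) ∧
              (∃ a ∈ σ (List.ofFn (fun j : Fin n => b j)),
                ∃ c ∈ σ (List.ofFn (fun j : Fin n => b j)),
                  a ≤ b n ∧ b n ≤ c) ∧
              ∀ i < n, b i ≠ b n)) := by
  intro h
  obtain ⟨σ, hσ⟩ := h (10 * Pool.Agent.EvenGame.KK) (by unfold Pool.Agent.EvenGame.KK; norm_num)
  obtain ⟨b, hb⟩ := Pool.Agent.EvenGame.survive σ
  obtain ⟨n, hn1, hn2⟩ := hσ b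
  exact hn2 (hb n hn1)

end Pool.Agent.S11328
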