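import Pool.Statements.S11470
import Pool.Agent.MPcc1856.Final

set_option autoImplicit false
open Pool Pool.MP_cc1856_co

namespace Pool.Agent.S11470

/-- The negation of the preceding statement: For every ε>0, every large enough 2-colored point set in R^3 with no four coplanar points splits into at most ε times its size monochromatic classes whose convex hulls are pairwise disjoint. -/
theorem result :
    ¬ (∀ ε : ℝ, 0 < ε → ∃ N : ℕ, ∀ X : Finset (EuclideanSpace ℝ (Fin 3)), N ≤ X.card →
      (∀ S : Finset (EuclideanSpace ℝ (Fin 3)), S ⊆ X → S.card = 4 →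
        AffineIndependent ℝ (fun p : S => (p : EuclideanSpace ℝ (Fin 3)))) →
      ∀ c : EuclideanSpace ℝ (Fin 3) → Bool,
        ∃ k : ℕ, (k : ℝ) ≤ ε * (X.card : ℝ) ∧
          ∃ f : EuclideanSpace ℝ (Fin 3) → Fin k,
            (∀ x ∈ X, ∀ y ∈ X, f x = f y → c x = c y) ∧
            ∀ i j : Fin k, i ≠ j →
              Disjoint (convexHull ℝ {x | x ∈ X ∧ f x = i})
                       (convexHull ℝ {x | x ∈ X ∧ f x = j})) := by
  intro h
  obtain ⟨N, hN⟩ := h (1 / 55) (by norm_num)
  obtain ⟨X, hcard, hgen, c, hc⟩ := Pool.Agent.MPcc1856.main (N + 1)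
  obtain ⟨k, hk, f, hmono, hdisj⟩ := hN X (by omega) hgen c
  have h1 := hc k f hmono hdisj
  have h2 : (2 * ((N : ℝ) + 1)) ≤ 54 * (k : ℝ) := by exact_mod_cast h1
  rw [hcard] at hk
  push_cast at hk
  have h3 : (0 : ℝ) ≤ N := Nat.cast_nonneg N
  linarith

end Pool.Agent.S11470
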