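import Pool.Statements.S12060
import Pool.Agent.MP_e3c312_co.Motion

set_option autoImplicit false
open Pool Pool.MP_e3c312_co

namespace Pool.Agent.S12060

open Pool.Agent.MP_e3c312_co

/-- The negation of the preceding statement: For any Γ-symmetric framework in ℝ^d, every expansive motion tracing one half-branch of a neighbourhood of [p] homeomorphic to an interval in the configuration space mod isometries can be moved by continuous isometries so it stays Γ-symmetric. -/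
theorem result :
    ¬ (∀ (d : ℕ) (V : Type) [Fintype V] (G : SimpleGraph V) (p : V → EuclideanSpace ℝ (Fin d))
    (Γ : Subgroup (EuclideanSpace ℝ (Fin d) ≃ᵢ EuclideanSpace ℝ (Fin d))) [Finite Γ]
    (θ : Γ →* Equiv.Perm V),
    (∀ γ : Γ, ∀ u v : V, G.Adj u v ↔ G.Adj (θ γ u) (θ γ v)) →
    (∀ γ : Γ, ∀ i : V,
      (γ : EuclideanSpace ℝ (Fin d) ≃ᵢ EuclideanSpace ℝ (Fin d)) (p i) = p (θ γ i)) →
    ∀ m : ℝ → V → EuclideanSpace ℝ (Fin d),
      ContinuousOn m (Set.Icc 0 1) → m 0 = p →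
      (∀ t ∈ Set.Icc (0:ℝ) 1, ∀ i j : V, G.Adj i j → dist (m t i) (m t j) = dist (p i) (p j)) →
      (∀ i j : V, MonotoneOn (fun t => dist (m t i) (m t j)) (Set.Icc (0:ℝ) 1)) →
      (∃ t ∈ Set.Icc (0:ℝ) 1, ∃ i j : V, dist (m t i) (m t j) ≠ dist (p i) (p j)) →
      Set.InjOn (fun t => Quot.mk (fun q q' : V → EuclideanSpace ℝ (Fin d) =>
          ∃ T : EuclideanSpace ℝ (Fin d) ≃ᵢ EuclideanSpace ℝ (Fin d), ∀ i, T (q i) = q' i) (m t))
        (Set.Icc (0:ℝ) 1) →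
      (∃ O : Set (Quot (fun q q' : V → EuclideanSpace ℝ (Fin d) =>
          ∃ T : EuclideanSpace ℝ (Fin d) ≃ᵢ EuclideanSpace ℝ (Fin d), ∀ i, T (q i) = q' i)),
        IsOpen O ∧
        ∃ h : ↥(O ∩ {x : Quot (fun q q' : V → EuclideanSpace ℝ (Fin d) =>
              ∃ T : EuclideanSpace ℝ (Fin d) ≃ᵢ EuclideanSpace ℝ (Fin d), ∀ i, T (q i) = q' i) |
              ∃ q : V → EuclideanSpace ℝ (Fin d),
                Quot.mk (fun q q' : V → EuclideanSpace ℝ (Fin d) =>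
                  ∃ T : EuclideanSpace ℝ (Fin d) ≃ᵢ EuclideanSpace ℝ (Fin d), ∀ i, T (q i) = q' i) q = x ∧
                ∀ i j : V, G.Adj i j → dist (q i) (q j) = dist (p i) (p j)}) ≃ₜ ↥(Set.Ioo (0:ℝ) 1),
        ∃ a : Set.Ioo (0:ℝ) 1,
          (h.symm a).1 = Quot.mk (fun q q' : V → EuclideanSpace ℝ (Fin d) =>
            ∃ T : EuclideanSpace ℝ (Fin d) ≃ᵢ EuclideanSpace ℝ (Fin d), ∀ i, T (q i) = q' i) p ∧
          ((∀ t ∈ Set.Ioc (0:ℝ) 1, ∃ b : Set.Ioo (0:ℝ) 1,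
              (h.symm b).1 = Quot.mk (fun q q' : V → EuclideanSpace ℝ (Fin d) =>
                ∃ T : EuclideanSpace ℝ (Fin d) ≃ᵢ EuclideanSpace ℝ (Fin d), ∀ i, T (q i) = q' i) (m t) ∧
              (a : ℝ) < (b : ℝ)) ∨
           (∀ t ∈ Set.Ioc (0:ℝ) 1, ∃ b : Set.Ioo (0:ℝ) 1,
              (h.symm b).1 = Quot.mk (fun q q' : V → EuclideanSpace ℝ (Fin d) =>
                ∃ T : EuclideanSpace ℝ (Fin d) ≃ᵢ EuclideanSpace ℝ (Fin d), ∀ i, T (q i) = q' i) (m t) ∧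
              (b : ℝ) < (a : ℝ)))) →
      ∃ T : ℝ → (EuclideanSpace ℝ (Fin d) ≃ᵢ EuclideanSpace ℝ (Fin d)),
        (∀ x, T 0 x = x) ∧
        (∀ x, ContinuousOn (fun t => T t x) (Set.Icc (0:ℝ) 1)) ∧
        ∀ t ∈ Set.Icc (0:ℝ) 1, ∀ γ : Γ, ∀ i : V,
          (γ : EuclideanSpace ℝ (Fin d) ≃ᵢ EuclideanSpace ℝ (Fin d)) (T t (m t i))
            = T t (m t (θ γ i))) := by
  intro H
  have hmem0 : (0 : ℝ) ∈ Set.Icc (0 : ℝ) 1 := ⟨le_rfl, zero_le_one⟩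
  have hmem1 : (1 : ℝ) ∈ Set.Icc (0 : ℝ) 1 := ⟨zero_le_one, le_rfl⟩
  have key := H 2 (Fin 4) G4 (K 0 0) Gam th adj_th mirror_K00' KK
    (continuousOn_KK.mono fun t ht => lt_four_of_mem ht) KK_zero
    (fun t ht i j hij => sides_K _ _ (pA_nonneg t (lt_four_of_mem ht))
      (pB_nonneg t (lt_four_of_mem ht)) (by rw [pA_add_pB]; exact lt_four_of_mem ht)
      (curve_pA_pB t (lt_four_of_mem ht)) i j hij)
    mono_KK
    ⟨1, hmem1, 0, 2, by
      intro h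
      have h1 : dist (KK 1 0) (KK 1 2) ^ 2 = dist (K 0 0 0) (K 0 0 2) ^ 2 := by rw [h]
      have h4 := lt_four_of_mem hmem1
      unfold KK at h1
      rw [K02 _ _ (pA_nonneg 1 h4) (pA_le 1 h4), K02 0 0 le_rfl (by norm_num)] at h1
      linarith [pA_one_pos]⟩
    injOn_KK
    ⟨OO, isOpen_OO, homeo, ⟨1 / 2, by norm_num, by norm_num⟩, by
      change Quot.mk Rel (KK (8 * ((1 / 2 : ℝ) - 1 / 2))) = Quot.mk Rel (K 0 0)
      rw [sub_self, mul_zero, KK_zero], Or.inl (by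
        intro t ht
        refine ⟨⟨t / 8 + 1 / 2, by linarith [ht.1], by linarith [ht.2]⟩, ?_, ?_⟩
        · change Quot.mk Rel (KK (8 * ((t / 8 + 1 / 2 : ℝ) - 1 / 2))) = Quot.mk Rel (KK t)
          have e : 8 * ((t / 8 + 1 / 2 : ℝ) - 1 / 2) = t := by ring
          rw [e]
        · change (1 / 2 : ℝ) < t / 8 + 1 / 2
          linarith [ht.1])⟩
  obtain ⟨T, -, -, hT⟩ := key
  have hT1 := hT 1 hmem1 ⟨mirror, Or.inr rfl⟩
  rw [th_mirror] at hT1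
  have s0 : sg 0 = 1 := by decide
  have s2 : sg 2 = 3 := by decide
  have e0 := hT1 0
  have e2 := hT1 2
  rw [s0] at e0
  rw [s2] at e2
  have hd : dist (KK 1 0) (KK 1 2) = dist (KK 1 1) (KK 1 3) := by
    rw [← (T 1).isometry.dist_eq (KK 1 0) (KK 1 2), ← (T 1).isometry.dist_eq (KK 1 1) (KK 1 3),
      ← e0, ← e2]
    exact (mirror.isometry.dist_eq _ _).symm
  have hd2 : dist (KK 1 0) (KK 1 2) ^ 2 = dist (KK 1 1) (KK 1 3) ^ 2 := by rw [hd]
  have h4 := lt_four_of_mem hmem1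
  unfold KK at hd2
  rw [K02 _ _ (pA_nonneg 1 h4) (pA_le 1 h4), K13 _ _ (pB_nonneg 1 h4) (pB_le 1 h4)] at hd2
  exact pA_one_ne (by linarith)

end Pool.Agent.S12060
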