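-- Disproof of the edge-addition monotonicity of the positive p-energy at p = 7/2.
-- The graph: 47 vertices in five cells of sizes 1, 16, 13, 16, 1; two distinct vertices are
-- adjacent when their cells are equal or consecutive.  The added edge joins the two end vertices.
import Pool.Statements.S12216

set_option autoImplicit false
open Classical
open Pool Pool.MP_eaf560_co

namespace Pool.Agent.S12216

open Polynomial Matrix


noncomputable def S (P : ℝ[X]) : ℝ :=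
  ((P.roots.filter (fun x => 0 < x)).map (fun x => x ^ (7 / 2 : ℝ))).sum

lemma S_mul {P Q : ℝ[X]} (h : P * Q ≠ 0) : S (P * Q) = S P + S Q := by
  unfold S
  rw [roots_mul h, Multiset.filter_add, Multiset.map_add, Multiset.sum_add]

lemma S_lin_pos {a : ℝ} (h : 0 < a) : S (X - C a) = a ^ (7 / 2 : ℝ) := by
  unfold S
  rw [roots_X_sub_C, Multiset.filter_singleton, if_pos h]
  simp

lemma S_lin_neg {a : ℝ} (h : a ≤ 0) : S (X - C a) = 0 := by
  unfold S
  rw [roots_X_sub_C, Multiset.filter_singleton, if_neg (not_lt.2 h)]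
  simp

lemma S_pow {P : ℝ[X]} (h : P ≠ 0) (h0 : S P = 0) (k : ℕ) : S (P ^ k) = 0 := by
  induction k with
  | zero => unfold S; simp
  | succ k ih =>
    rw [pow_succ, S_mul (mul_ne_zero (pow_ne_zero _ h) h), ih, h0, add_zero]

/-- path pattern (with loops) -/
def pat0 : Matrix (Fin 5) (Fin 5) ℝ :=
  !![1, 1, 0, 0, 0; 1, 1, 1, 0, 0; 0, 1, 1, 1, 0; 0, 0, 1, 1, 1; 0, 0, 0, 1, 1]

/-- cycle pattern (with loops) -/
def pat1 : Matrix (Fin 5) (Fin 5) ℝ :=
  !![1, 1, 0, 0, 1; 1, 1, 1, 0, 0; 0, 1, 1, 1, 0; 0, 0, 1, 1, 1; 1, 0, 0, 1, 1]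

def M0 : Matrix (Fin 5) (Fin 5) ℝ :=
  !![1, 16, 0, 0, 0; 1, 16, 13, 0, 0; 0, 16, 13, 16, 0; 0, 0, 13, 16, 1; 0, 0, 0, 16, 1]

def M1 : Matrix (Fin 5) (Fin 5) ℝ :=
  !![1, 16, 0, 0, 1; 1, 16, 13, 0, 0; 0, 16, 13, 16, 0; 0, 0, 13, 16, 1; 1, 0, 0, 16, 1]

set_option maxRecDepth 10000 in
lemma charpoly_M0 : M0.charpoly =
    (X ^ 2 - C 17 * X) * (X ^ 3 - C 30 * X ^ 2 - C 195 * X + C 416) := by
  unfold M0
  rw [Matrix.charpoly, Matrix.charmatrix]
  simp [Matrix.det_succ_row_zero, Fin.sum_univ_succ, Matrix.submatrix, Fin.succAbove, Fin.succ,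
    Matrix.diagonal]
  simp only [map_ofNat]
  ring

set_option maxRecDepth 10000 in
lemma charpoly_M1 : M1.charpoly =
    (X ^ 2 - C 16 * X - C 16) * (X ^ 3 - C 31 * X ^ 2 - C 166 * X + C 624) := by
  unfold M1
  rw [Matrix.charpoly, Matrix.charmatrix]
  simp [Matrix.det_succ_row_zero, Fin.sum_univ_succ, Matrix.submatrix, Fin.succAbove, Fin.succ,
    Matrix.diagonal]
  simp only [map_ofNat]
  ring

lemma cubic_factor {p q r a b c : ℝ} (hab : a ≠ b) (hac : a ≠ c) (hbc : b ≠ c)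
    (ha : a ^ 3 - p * a ^ 2 - q * a + r = 0) (hb : b ^ 3 - p * b ^ 2 - q * b + r = 0)
    (hc : c ^ 3 - p * c ^ 2 - q * c + r = 0) :
    (X ^ 3 - C p * X ^ 2 - C q * X + C r : ℝ[X]) = (X - C a) * (X - C b) * (X - C c) := by
  have h1 : a ^ 2 + a * b + b ^ 2 - p * (a + b) - q = 0 := by
    have : (a - b) * (a ^ 2 + a * b + b ^ 2 - p * (a + b) - q) = 0 := by linear_combination ha - hb
    exact (mul_eq_zero.1 this).resolve_left (sub_ne_zero.2 hab)
  have h2 : a ^ 2 + a * c + c ^ 2 - p * (a + c) - q = 0 := by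
    have : (a - c) * (a ^ 2 + a * c + c ^ 2 - p * (a + c) - q) = 0 := by linear_combination ha - hc
    exact (mul_eq_zero.1 this).resolve_left (sub_ne_zero.2 hac)
  have h3 : a + b + c - p = 0 := by
    have : (b - c) * (a + b + c - p) = 0 := by linear_combination h1 - h2
    exact (mul_eq_zero.1 this).resolve_left (sub_ne_zero.2 hbc)
  have hp : p = a + b + c := by linarith
  have hq : q = -(a * b + a * c + b * c) := by
    rw [hp] at h1; linarith
  have hr : r = - (a * b * c) := by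
    rw [hp, hq] at ha; linarith
  rw [hp, hq, hr]
  simp only [C_add, C_neg, C_mul]
  ring

/-- sum for a shifted cubic with roots `a < 1 < b < c`. -/
lemma S_shift {a b c : ℝ} (ha : a ≤ 1) (hb : 1 < b) (hc : 1 < c) :
    S (((X - C a) * (X - C b) * (X - C c)).comp (X + C 1)) =
      (b - 1) ^ (7 / 2 : ℝ) + (c - 1) ^ (7 / 2 : ℝ) := by
  have e : ∀ t : ℝ, (X - C t).comp (X + C 1) = X - C (t - 1) := by
    intro t; simp; ring
  rw [mul_comp, mul_comp, e, e, e]
  have n : ∀ t : ℝ, (X - C t : ℝ[X]) ≠ 0 := fun t => X_sub_C_ne_zero t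
  rw [S_mul (mul_ne_zero (mul_ne_zero (n _) (n _)) (n _)), S_mul (mul_ne_zero (n _) (n _)),
    S_lin_neg (by linarith), S_lin_pos (by linarith), S_lin_pos (by linarith), zero_add]

lemma rpow_le_of_sq {x s : ℝ} (hx : 0 ≤ x) (hs : 0 ≤ s) (h : x ≤ s ^ 2) :
    x ^ (7 / 2 : ℝ) ≤ s ^ 7 := by
  have h2 : (s ^ 2) ^ (7 / 2 : ℝ) = s ^ 7 := by
    rw [← Real.rpow_natCast s 2, ← Real.rpow_mul hs, ← Real.rpow_natCast s 7]
    norm_num
  rw [← h2]
  exact Real.rpow_le_rpow hx h (by norm_num)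

lemma le_rpow_of_sq {x s : ℝ} (hs : 0 ≤ s) (h : s ^ 2 ≤ x) :
    s ^ 7 ≤ x ^ (7 / 2 : ℝ) := by
  have h2 : (s ^ 2) ^ (7 / 2 : ℝ) = s ^ 7 := by
    rw [← Real.rpow_natCast s 2, ← Real.rpow_mul hs, ← Real.rpow_natCast s 7]
    norm_num
  rw [← h2]
  exact Real.rpow_le_rpow (by positivity) h (by norm_num)

lemma root_between {p q r lo hi : ℝ} (hlo : lo ≤ hi)
    (h1 : 0 ≤ lo ^ 3 - p * lo ^ 2 - q * lo + r) (h2 : hi ^ 3 - p * hi ^ 2 - q * hi + r ≤ 0) :
    ∃ x, lo ≤ x ∧ x ≤ hi ∧ x ^ 3 - p * x ^ 2 - q * x + r = 0 := by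
  have hcont : ContinuousOn (fun x : ℝ => x ^ 3 - p * x ^ 2 - q * x + r) (Set.Icc lo hi) := by
    fun_prop
  obtain ⟨x, hx, hfx⟩ := intermediate_value_Icc' hlo hcont ⟨h2, h1⟩
  exact ⟨x, hx.1, hx.2, hfx⟩

lemma root_between' {p q r lo hi : ℝ} (hlo : lo ≤ hi)
    (h1 : lo ^ 3 - p * lo ^ 2 - q * lo + r ≤ 0) (h2 : 0 ≤ hi ^ 3 - p * hi ^ 2 - q * hi + r) :
    ∃ x, lo ≤ x ∧ x ≤ hi ∧ x ^ 3 - p * x ^ 2 - q * x + r = 0 := by
  have hcont : ContinuousOn (fun x : ℝ => x ^ 3 - p * x ^ 2 - q * x + r) (Set.Icc lo hi) := by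
    fun_prop
  obtain ⟨x, hx, hfx⟩ := intermediate_value_Icc hlo hcont ⟨h1, h2⟩
  exact ⟨x, hx.1, hx.2, hfx⟩

/-- lower bound for the original graph -/
lemma S0_ge : (4 : ℝ) ^ 7 + (0.84225 : ℝ) ^ 7 + (5.848379 : ℝ) ^ 7 ≤
    S (((X ^ 2 - C 17 * X) * (X ^ 3 - C 30 * X ^ 2 - C 195 * X + C 416) : ℝ[X]).comp (X + C 1)) := by
  obtain ⟨a, ha1, ha2, ha⟩ := root_between' (p := 30) (q := 195) (r := 416) (lo := -20) (hi := 0)
    (by norm_num) (by norm_num) (by norm_num)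
  obtain ⟨b, hb1, hb2, hb⟩ := root_between (p := 30) (q := 195) (r := 416)
    (lo := 1 + 0.84225 ^ 2) (hi := 2) (by norm_num) (by norm_num) (by norm_num)
  obtain ⟨c, hc1, hc2, hc⟩ := root_between' (p := 30) (q := 195) (r := 416)
    (lo := 1 + 5.848379 ^ 2) (hi := 40) (by norm_num) (by norm_num) (by norm_num)
  have hb1' : 1 < b := by norm_num at hb1; linarith
  have hc1' : 34 < c := by norm_num at hc1; linarith
  have hfac := cubic_factor (a := a) (b := b) (c := c) (by linarith) (by linarith) (by linarith)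
    ha hb hc
  have hquad : (X ^ 2 - C 17 * X : ℝ[X]) = (X - C 0) * (X - C 17) := by
    simp only [map_zero]; ring
  have n : ∀ t : ℝ, (X - C t : ℝ[X]) ≠ 0 := fun t => X_sub_C_ne_zero t
  have e : ∀ t : ℝ, (X - C t).comp (X + C 1) = X - C (t - 1) := by
    intro t; simp; ring
  rw [mul_comp, hfac, hquad, mul_comp, e, e, S_mul, S_mul, S_shift (by linarith) hb1'
    (by linarith), S_lin_neg (by norm_num), S_lin_pos (by norm_num)]
  · have h1 : (4 : ℝ) ^ 7 ≤ (17 - 1 : ℝ) ^ (7 / 2 : ℝ) := le_rpow_of_sq (by norm_num) (by norm_num)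
    have h2 : (0.84225 : ℝ) ^ 7 ≤ (b - 1 : ℝ) ^ (7 / 2 : ℝ) :=
      le_rpow_of_sq (by norm_num) (by linarith)
    have h3 : (5.848379 : ℝ) ^ 7 ≤ (c - 1 : ℝ) ^ (7 / 2 : ℝ) :=
      le_rpow_of_sq (by norm_num) (by linarith)
    linarith
  · exact mul_ne_zero (n _) (n _)
  · rw [mul_comp, mul_comp, e, e, e]
    exact mul_ne_zero (mul_ne_zero (n _) (n _)) (mul_ne_zero (mul_ne_zero (n _) (n _)) (n _))

/-- upper bound for the graph with the added edge -/
lemma S1_le : S (((X ^ 2 - C 16 * X - C 16) * (X ^ 3 - C 31 * X ^ 2 - C 166 * X + C 624) : ℝ[X]).comp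
      (X + C 1)) ≤ (3.99303 : ℝ) ^ 7 + (1.26545 : ℝ) ^ 7 + (5.849028 : ℝ) ^ 7 := by
  obtain ⟨a, ha1, ha2, ha⟩ := root_between' (p := 31) (q := 166) (r := 624) (lo := -20) (hi := 0)
    (by norm_num) (by norm_num) (by norm_num)
  obtain ⟨b, hb1, hb2, hb⟩ := root_between (p := 31) (q := 166) (r := 624)
    (lo := 2) (hi := 1 + 1.26545 ^ 2) (by norm_num) (by norm_num) (by norm_num)
  obtain ⟨c, hc1, hc2, hc⟩ := root_between' (p := 31) (q := 166) (r := 624)
    (lo := 30) (hi := 1 + 5.849028 ^ 2) (by norm_num) (by norm_num) (by norm_num)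
  have hb2' : b < 4 := by norm_num at hb2; linarith
  have hfac := cubic_factor (a := a) (b := b) (c := c) (by linarith) (by linarith) (by linarith)
    ha hb hc
  have h80 : (Real.sqrt 80) ^ 2 = 80 := Real.sq_sqrt (by norm_num)
  have hs0 : 0 ≤ Real.sqrt 80 := Real.sqrt_nonneg _
  have hs1 : 8 ≤ Real.sqrt 80 := by
    apply Real.le_sqrt_of_sq_le; norm_num
  have hs2 : Real.sqrt 80 ≤ 3.99303 ^ 2 - 7 := by
    rw [Real.sqrt_le_left (by norm_num)]; norm_num
  have hquad : (X ^ 2 - C 16 * X - C 16 : ℝ[X]) =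
      (X - C (8 - Real.sqrt 80)) * (X - C (8 + Real.sqrt 80)) := by
    have : (C (8 - Real.sqrt 80) * C (8 + Real.sqrt 80) : ℝ[X]) = C (-16) := by
      rw [← C_mul]; congr 1; ring_nf; rw [h80]; norm_num
    have h2 : (C (8 - Real.sqrt 80) + C (8 + Real.sqrt 80) : ℝ[X]) = C 16 := by
      rw [← C_add]; congr 1; ring
    have h3 : (C (-16) : ℝ[X]) = - C 16 := by rw [C_neg]
    linear_combination -this - h3 + X * h2
  have n : ∀ t : ℝ, (X - C t : ℝ[X]) ≠ 0 := fun t => X_sub_C_ne_zero t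
  have e : ∀ t : ℝ, (X - C t).comp (X + C 1) = X - C (t - 1) := by
    intro t; simp; ring
  rw [mul_comp, hfac, hquad, mul_comp, e, e, S_mul, S_mul, S_shift (by linarith) (by linarith)
    (by linarith), S_lin_neg (by linarith), S_lin_pos (by linarith)]
  · have h1 : (8 + Real.sqrt 80 - 1 : ℝ) ^ (7 / 2 : ℝ) ≤ (3.99303 : ℝ) ^ 7 :=
      rpow_le_of_sq (by linarith) (by norm_num) (by linarith)
    have h2 : (b - 1 : ℝ) ^ (7 / 2 : ℝ) ≤ (1.26545 : ℝ) ^ 7 :=
      rpow_le_of_sq (by linarith) (by norm_num) (by linarith)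
    have h3 : (c - 1 : ℝ) ^ (7 / 2 : ℝ) ≤ (5.849028 : ℝ) ^ 7 :=
      rpow_le_of_sq (by linarith) (by norm_num) (by linarith)
    linarith
  · exact mul_ne_zero (n _) (n _)
  · rw [mul_comp, mul_comp, e, e, e]
    exact mul_ne_zero (mul_ne_zero (n _) (n _)) (mul_ne_zero (mul_ne_zero (n _) (n _)) (n _))

/-- The cell of a vertex. -/
def cell (i : Fin 47) : Fin 5 :=
  if i.val < 1 then 0 else if i.val < 17 then 1 else if i.val < 30 then 2
    else if i.val < 46 then 3 else 4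

def Bm : Matrix (Fin 47) (Fin 5) ℝ := Matrix.of fun i c => if cell i = c then 1 else 0

lemma gram : (Bmᵀ * Bm) = Matrix.diagonal ![1, 16, 13, 16, 1] := by
  have h : ∀ c : Fin 5, ((Finset.univ.filter (fun i : Fin 47 => cell i = c)).card) =
      ![1, 16, 13, 16, 1] c := by decide +kernel
  ext c d
  rw [Matrix.mul_apply]
  simp only [Matrix.transpose_apply, Bm, Matrix.of_apply]
  by_cases hcd : c = d
  · subst hcd
    rw [Matrix.diagonal_apply_eq]
    simp only [mul_ite, mul_one, mul_zero]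
    have : ∀ x : Fin 47, (if cell x = c then (if cell x = c then (1:ℝ) else 0) else 0) =
        if cell x = c then 1 else 0 := by
      intro x; split_ifs <;> rfl
    simp_rw [this]
    rw [Finset.sum_boole]
    rw [h c]
    fin_cases c <;> simp
  · rw [Matrix.diagonal_apply_ne _ hcd]
    apply Finset.sum_eq_zero
    intro x _
    by_cases h1 : cell x = c
    · have : cell x ≠ d := fun h2 => hcd (h1.symm.trans h2)
      simp [this]
    · simp [h1]

lemma blowup (P : Matrix (Fin 5) (Fin 5) ℝ) (i j : Fin 47) :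
    (Bm * (P * Bmᵀ)) i j = P (cell i) (cell j) := by
  rw [Matrix.mul_apply]
  simp only [Bm, Matrix.of_apply, ite_mul, one_mul, zero_mul]
  rw [Finset.sum_ite_eq]
  simp only [Finset.mem_univ, if_true]
  rw [Matrix.mul_apply]
  simp only [Matrix.transpose_apply, Matrix.of_apply, mul_ite, mul_one, mul_zero]
  rw [Finset.sum_ite_eq]
  simp

lemma charpoly_blowup (P Q : Matrix (Fin 5) (Fin 5) ℝ)
    (hPQ : P * Matrix.diagonal ![1, 16, 13, 16, 1] = Q) (A : Matrix (Fin 47) (Fin 47) ℝ)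
    (hA : ∀ i j, A i j = P (cell i) (cell j) - (1 : Matrix (Fin 47) (Fin 47) ℝ) i j) :
    A.charpoly = (X - C (-1)) ^ 42 * Q.charpoly.comp (X + C 1) := by
  have hA' : A = Bm * (P * Bmᵀ) - Matrix.scalar (Fin 47) 1 := by
    ext i j
    rw [hA i j, Matrix.sub_apply, blowup]
    simp
  rw [hA', Matrix.charpoly_sub_scalar, Matrix.charpoly_mul_comm_of_le _ _ (by simp),
    Matrix.mul_assoc, gram, hPQ, mul_comp]
  simp


lemma cell_zero : ∀ i : Fin 47, cell i = 0 ↔ i = 0 := by decide +kernel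

lemma cell_four : ∀ i : Fin 47, cell i = 4 ↔ i = 46 := by decide +kernel

/-- The clique blow-up of the path on five vertices with cell sizes `1, 16, 13, 16, 1`. -/
def gr : SimpleGraph (Fin 47) where
  Adj a b := a ≠ b ∧ (cell a).val ≤ (cell b).val + 1 ∧ (cell b).val ≤ (cell a).val + 1
  symm := ⟨fun _ _ h => ⟨h.1.symm, h.2.2, h.2.1⟩⟩
  loopless := ⟨fun _ h => h.1 rfl⟩

lemma pat0_eq (c d : Fin 5) :
    pat0 c d = if c.val ≤ d.val + 1 ∧ d.val ≤ c.val + 1 then 1 else 0 := by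
  fin_cases c <;> fin_cases d <;> simp [pat0]

lemma pat1_eq (c d : Fin 5) :
    pat1 c d = if (c.val ≤ d.val + 1 ∧ d.val ≤ c.val + 1) ∨ (c = 0 ∧ d = 4) ∨ (c = 4 ∧ d = 0)
      then 1 else 0 := by
  fin_cases c <;> fin_cases d <;> simp [pat1]

lemma pat0_M0 : pat0 * Matrix.diagonal ![1, 16, 13, 16, 1] = M0 := by
  ext i j
  rw [Matrix.mul_diagonal]
  fin_cases i <;> fin_cases j <;> simp [pat0, M0]

lemma pat1_M1 : pat1 * Matrix.diagonal ![1, 16, 13, 16, 1] = M1 := by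
  ext i j
  rw [Matrix.mul_diagonal]
  fin_cases i <;> fin_cases j <;> simp [pat1, M1]

lemma adj0 (i j : Fin 47) : gr.adjMatrix ℝ i j =
    pat0 (cell i) (cell j) - (1 : Matrix (Fin 47) (Fin 47) ℝ) i j := by
  rw [SimpleGraph.adjMatrix_apply, pat0_eq, Matrix.one_apply]
  by_cases h : i = j
  · subst h
    simp
  · simp only [gr, ne_eq, h, not_false_eq_true, true_and, if_false, sub_zero]

lemma adj1 (i j : Fin 47) : (gr ⊔ SimpleGraph.edge 0 46).adjMatrix ℝ i j =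
    pat1 (cell i) (cell j) - (1 : Matrix (Fin 47) (Fin 47) ℝ) i j := by
  rw [SimpleGraph.adjMatrix_apply, pat1_eq, Matrix.one_apply]
  by_cases h : i = j
  · subst h
    simp
  · have key : (gr ⊔ SimpleGraph.edge 0 46).Adj i j ↔
        ((cell i).val ≤ (cell j).val + 1 ∧ (cell j).val ≤ (cell i).val + 1) ∨
          (cell i = 0 ∧ cell j = 4) ∨ (cell i = 4 ∧ cell j = 0) := by
      rw [SimpleGraph.sup_adj, SimpleGraph.edge_adj, cell_zero, cell_zero, cell_four, cell_four]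
      simp only [gr, ne_eq, h, not_false_eq_true, true_and, and_true]
    simp only [key, h, if_false, sub_zero]

lemma S_total {Q : ℝ[X]} (hQ : Q ≠ 0) : S ((X - C (-1)) ^ 42 * Q) = S Q := by
  have h1 : (X - C (-1) : ℝ[X]) ≠ 0 := X_sub_C_ne_zero _
  rw [S_mul (mul_ne_zero (pow_ne_zero _ h1) hQ), S_pow h1 (S_lin_neg (by norm_num)), zero_add]

lemma comp_ne_zero {Q : ℝ[X]} (hQ : Q.Monic) : Q.comp (X + C 1) ≠ 0 :=
  (hQ.comp_X_add_C 1).ne_zero

/-- The negation of the preceding statement: For every real p ≥ 3, every finite simple graph G and distinct non-adjacent vertices u, v, the sum of p-th powers of positive adjacency eigenvalues of G plus edge uv is at least that of G. -/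
theorem result :
    ¬ (∀ p : ℝ, 3 ≤ p → ∀ (n : ℕ) (G : SimpleGraph (Fin n)) (u v : Fin n), u ≠ v → ¬ G.Adj u v →
      ((((G ⊔ SimpleGraph.edge u v).adjMatrix ℝ).charpoly.roots.filter (fun x => 0 < x)).map
          (fun x => x ^ p)).sum ≥
        (((G.adjMatrix ℝ).charpoly.roots.filter (fun x => 0 < x)).map (fun x => x ^ p)).sum) := by
  intro H
  have h := H (7 / 2) (by norm_num) 47 gr 0 46 (by decide) (by
    intro hadj
    have h0 : cell 0 = 0 := (cell_zero 0).2 rfl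
    have h4 : cell 46 = 4 := (cell_four 46).2 rfl
    have h5 := hadj.2.2
    rw [h0, h4] at h5
    revert h5
    decide)
  have e1 : ((gr ⊔ SimpleGraph.edge 0 46).adjMatrix ℝ).charpoly =
      (X - C (-1)) ^ 42 * M1.charpoly.comp (X + C 1) :=
    charpoly_blowup pat1 M1 pat1_M1 _ adj1
  have e0 : (gr.adjMatrix ℝ).charpoly = (X - C (-1)) ^ 42 * M0.charpoly.comp (X + C 1) :=
    charpoly_blowup pat0 M0 pat0_M0 _ adj0
  have h' : S (gr.adjMatrix ℝ).charpoly ≤
      S ((gr ⊔ SimpleGraph.edge 0 46).adjMatrix ℝ).charpoly := h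
  rw [e0, e1, S_total (comp_ne_zero (Matrix.charpoly_monic _)),
    S_total (comp_ne_zero (Matrix.charpoly_monic _)), charpoly_M0, charpoly_M1] at h'
  have h0 := S0_ge
  have h1 := S1_le
  have h2 := (h0.trans h').trans h1
  norm_num at h2

end Pool.Agent.S12216
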