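import Pool.Statements.S12933
import Pool.Agent.CpPN.LemA
import Pool.Agent.CpPN.Dich
import Pool.Agent.CpPN.CaseHL
import Pool.Agent.CpPN.CaseHS
import Pool.Agent.CpPN.Final

set_option autoImplicit false
open Pool Pool.MP_2a4eb4_gt

namespace Pool.Agent.S12933

/-- For every Tychonoff space X: if the span of point evaluations in the pointwise-topology space of real functions on C_p(X) (that is, L_p(X)) is perfectly normal, then C_p(C_p(X)) is perfectly normal. -/
theorem result :
    ∀ (X : Type) [TopologicalSpace X] [T35Space X],
      PerfectlyNormalSpace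
          ↥(Submodule.span ℝ
            (Set.range (fun (x : X) (f : {f : X → ℝ // Continuous f}) => f.1 x))) →
        PerfectlyNormalSpace {g : {f : X → ℝ // Continuous f} → ℝ // Continuous g} := by
  intro X _ _ h
  have hc := Pool.Agent.CpPN.countProp_of_pn h
  refine Pool.Agent.CpPN.pn_of_sep fun m E hE => ?_
  rcases Pool.Agent.CpPN.dichotomy hc with h1 | h1
  · exact Pool.Agent.CpPN.sep_of_hl h1 E
  · exact Pool.Agent.CpPN.sep_of_hs hc h1 E hE

end Pool.Agent.S12933
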