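import Pool.Statements.S13049
-- import your own Pool.Agent.* helpers here
import Pool.Agent.CDim.TwMk
import Pool.Agent.CDim.LimCov
import Pool.Agent.CDim.PlanMk
import Pool.Agent.CDim.NoPlan

set_option autoImplicit false
open TopologicalSpace
open Pool Pool.MP_3d1901_gt

namespace Pool.Agent.S13049

/-- There is a metric space with a base of clopen sets (ind = 0) that cannot be covered by countably many subspaces in each of which disjoint closed sets are separated by a clopen set (dim 0 pieces). -/
theorem result :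
    ∃ (X : Type) (_ : MetricSpace X),
      IsTopologicalBasis {s : Set X | IsClopen s} ∧
      ¬ ∃ Y : ℕ → Set X, (⋃ n, Y n) = Set.univ ∧
          ∀ n, ∀ A B : Set (Y n), IsClosed A → IsClosed B → Disjoint A B →
            ∃ C : Set (Y n), IsClopen C ∧ A ⊆ C ∧ Disjoint C B := by
  obtain ⟨T⟩ := Pool.Agent.CDim.exists_tw
  refine ⟨T.U, inferInstance, T.cb_U, ?_⟩
  rintro ⟨Z, hc, hZ⟩
  obtain ⟨p⟩ := Pool.Agent.CDim.exists_plan (Pool.Agent.CDim.toTS T)
    (Pool.Agent.CDim.toTS_cov T) Z hZ hc
  exact Pool.Agent.CDim.no_plan p (T.sec 0 T.y0)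

end Pool.Agent.S13049
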