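-- Proof of the positive answer.  All the work is in the files of `Pool/Agent/MP_47df8f_gt/`.
import Pool.Statements.S13109
import Pool.Agent.MP_47df8f_gt.Nilpotent
import Pool.Agent.MP_47df8f_gt.Completion

set_option autoImplicit false
open scoped Pointwise
open Pool Pool.MP_47df8f_gt

namespace Pool.Agent.S13109

open Pool.Agent.MP_47df8f_gt in
/-- Every Hausdorff nilpotent topological group that is precompact, minimal (no strictly coarser Hausdorff group topology) and of countable tightness is metrizable. -/
theorem result :
    ∀ (G : Type) [Group G] [t : TopologicalSpace G] [IsTopologicalGroup G] [T2Space G],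
      Group.IsNilpotent G →
      (∀ U ∈ nhds (1 : G), ∃ F : Finset G, ∀ x : G, ∃ g ∈ F, x ∈ g • U) →
      (∀ t' : TopologicalSpace G, t ≤ t' → @IsTopologicalGroup G t' _ → @T2Space G t' → t' = t) →
      (∀ (A : Set G) (x : G), x ∈ closure A → ∃ B ⊆ A, B.Countable ∧ x ∈ closure B) →
      TopologicalSpace.MetrizableSpace G := by
  intro G _ t _ _ hnil hpc hmin htight
  obtain ⟨K, _, _, _, _, _, f, hf, hd⟩ := exists_compactification G hpc
  have hess := fun N hN hNc hne => essential_of_minimal hmin hf hd N hN hNc hne
  have htightK : ∀ A : Set K, A ⊆ f.range → (1 : K) ∈ closure A →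
      ∃ B ⊆ A, B.Countable ∧ (1 : K) ∈ closure B := by
    intro A hA h1
    have hfA : f '' (f ⁻¹' A) = A := by
      apply Set.image_preimage_eq_of_subset
      intro a ha
      exact hA ha
    have h1' : (1 : G) ∈ closure (f ⁻¹' A) := by
      rw [hf.closure_eq_preimage_closure_image, hfA, Set.mem_preimage, map_one]
      exact h1
    obtain ⟨B, hBA, hBc, hB1⟩ := htight _ _ h1'
    refine ⟨f '' B, ?_, hBc.image f, ?_⟩
    · rintro _ ⟨b, hb, rfl⟩
      exact hBA hb
    · rw [hf.closure_eq_preimage_closure_image, Set.mem_preimage, map_one] at hB1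
      exact hB1
  have hK : IsGδ ({1} : Set K) :=
    isGdelta_one_of_center (nilpotent_of_dense hnil f hd) (isGdelta_one_center hess htightK)
  have hcg : (nhds (1 : K)).IsCountablyGenerated := nhds_isCountablyGenerated_of_isGdelta hK
  apply metrizable_of_isCountablyGenerated
  rw [hf.isInducing.nhds_eq_comap, map_one]
  infer_instance

end Pool.Agent.S13109
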