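import Pool.Statements.S13350
import Pool.Agent.Lib77.MetaLindelofSpace

set_option autoImplicit false
open Pool Pool.MP_6dddf9_gt

namespace Pool.Agent.S13350

/-- The negation of the preceding statement: Every space that embeds in C_p(K) for some compact Hausdorff K, is hereditarily meta-Lindelöf and is scattered, is a countable union of discrete subspaces. -/
theorem result :
    ¬ (∀ (X : Type) [TopologicalSpace X],
      (∃ (K : Type) (_ : TopologicalSpace K) (_ : CompactSpace K) (_ : T2Space K)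
          (f : X → K → ℝ), Topology.IsEmbedding f ∧ ∀ x, Continuous (f x)) →
      (∀ S : Set X, ∀ 𝒰 : Set (Set S), (∀ U ∈ 𝒰, IsOpen U) → ⋃₀ 𝒰 = Set.univ →
          ∃ 𝒱 : Set (Set S), (∀ V ∈ 𝒱, IsOpen V) ∧ ⋃₀ 𝒱 = Set.univ ∧
            (∀ V ∈ 𝒱, ∃ U ∈ 𝒰, V ⊆ U) ∧
            ∀ x : S, {V | V ∈ 𝒱 ∧ x ∈ V}.Countable) →
      (∀ S : Set X, S.Nonempty → ∃ x ∈ S, ∃ U : Set X, IsOpen U ∧ U ∩ S = {x}) →
      ∃ D : ℕ → Set X, (⋃ n, D n) = Set.univ ∧ ∀ n, DiscreteTopology (D n)) := by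
  intro h
  exact Pool.Agent.Lib77.ML.Pt.not_sigma_discrete
    (h Pool.Agent.Lib77.ML.Pt
      ⟨Ultrafilter Pool.Agent.Lib77.ML.Pt, inferInstance, inferInstance, inferInstance,
        Pool.Agent.Lib77.ML.Pt.emb, Pool.Agent.Lib77.ML.Pt.isEmbedding_emb,
        Pool.Agent.Lib77.ML.Pt.continuous_emb⟩
      Pool.Agent.Lib77.ML.Pt.metaLindelof Pool.Agent.Lib77.ML.Pt.scattered)

end Pool.Agent.S13350
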