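import Pool.Statements.S14700
import Pool.Agent.MP_52db1d_lc.Pump

set_option autoImplicit false
open Pool Pool.MP_52db1d_lc

namespace Pool.Agent.S14700

open Pool.Agent.MP_52db1d_lc

theorem coPref_isContextFree : CoPref.IsContextFree := by
  refine ⟨cg, ?_⟩
  ext w
  rw [mem_language_iff_gen]
  constructor
  · intro h
    obtain ⟨u, v, rfl, h1, h2⟩ := csemL_of_gen h
    have h2' : v = [] := h2
    subst h2'
    rw [List.append_nil]
    exact h1
  · exact gen_of_coPref

theorem coPref_not_isRegular : ¬ CoPref.IsRegular := by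
  intro h
  have h1 : Pref.IsRegular := by
    have e : Pref = CoPrefᶜ := by
      ext w
      change w ∈ Pref ↔ ¬ ¬ w ∈ Pref
      rw [not_not]
    rw [e]
    exact h.compl
  obtain ⟨σ, hσ, A, hA⟩ := h1
  have hw : (List.range (Fintype.card σ)).map pw ∈ A.accepts := by
    rw [hA]
    intro i hi
    simp
  obtain ⟨a, b, c, h2, h3, h4, h5⟩ := A.pumping_lemma hw (by simp)
  have h6 : a ++ b ++ b ++ c ∈ A.accepts := by
    apply h5
    refine ⟨a ++ (b ++ b), ⟨a, rfl, b ++ b, ?_, rfl⟩, c, rfl, by simp⟩
    refine ⟨[b, b], by simp, ?_⟩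
    intro y hy
    simp at hy
    subst hy
    rfl
  rw [hA] at h6
  exact Pref.no_square h4 h6

/-- The preimage of a regular language under a morphism is regular. -/
theorem isRegular_preimage {m n : ℕ} (g : Fin m → List (Fin n)) {R : Language (Fin n)}
    (hR : R.IsRegular) : Language.IsRegular ({w : List (Fin m) | w.flatMap g ∈ R} : Set _) := by
  obtain ⟨σ, hσ, A, rfl⟩ := hR
  refine ⟨σ, hσ, ⟨fun s a => (g a).foldl A.step s, A.start, A.accept⟩, ?_⟩
  ext w
  have key : ∀ (w : List (Fin m)) (s : σ),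
      w.foldl (fun s a => (g a).foldl A.step s) s = (w.flatMap g).foldl A.step s := by
    intro w
    induction w with
    | nil => intro s; rfl
    | cons a w ih =>
      intro s
      rw [List.foldl_cons, ih, List.flatMap_cons, List.foldl_append]
  rw [DFA.mem_accepts]
  change w.foldl (fun s a => (g a).foldl A.step s) A.start ∈ A.accept ↔
    (w.flatMap g).foldl A.step A.start ∈ A.accept
  rw [key]

theorem isRegular_univ : Language.IsRegular (⊤ : Language (Fin 4)) := by
  refine ⟨Unit, inferInstance, ⟨fun _ _ => (), (), Set.univ⟩, ?_⟩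
  ext w
  exact ⟨fun _ => trivial, fun _ => trivial⟩

/-- The cylinder generated by `CoPref`. -/
def Cyl (n : ℕ) : Set (Language (Fin n)) :=
  {L | ∃ (h : Fin n → List (Fin 4)) (R : Language (Fin n)), R.IsRegular ∧
    L = ({w : List (Fin n) | w.flatMap h ∈ CoPref ∧ w ∈ R} : Set (List (Fin n)))}

/-- The negation of the preceding statement: Any family of languages closed under inverse morphisms and intersection with regular languages, all of whose members are context-free and one-locally-linear (marked-position iteration property), contains only regular languages. -/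
theorem result :
    ¬ (∀ F : ∀ n : ℕ, Set (Language (Fin n)),
      (∀ (m n : ℕ) (g : Fin m → List (Fin n)) (L : Language (Fin n)), L ∈ F n →
          ({w : List (Fin m) | w.flatMap g ∈ L} : Set (List (Fin m))) ∈ F m) →
      (∀ (n : ℕ) (L R : Language (Fin n)), L ∈ F n → R.IsRegular →
          ({w : List (Fin n) | w ∈ L ∧ w ∈ R} : Set (List (Fin n))) ∈ F n) →
      (∀ (n : ℕ) (L : Language (Fin n)), L ∈ F n →
          L.IsContextFree ∧
          ∃ N₀ : ℕ, ∀ f : List (Fin n), f ∈ L → ∀ M : Finset ℕ,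
            (∀ i ∈ M, i < f.length) → N₀ ≤ M.card →
            ∃ x u y : List (Fin n), f = x ++ u ++ y ∧
              (∀ k : ℕ, x ++ (List.replicate k u).flatten ++ y ∈ L) ∧
              (∃ i ∈ M, i < x.length) ∧
              (∃ i ∈ M, x.length ≤ i ∧ i < x.length + u.length) ∧
              (∃ i ∈ M, x.length + u.length ≤ i)) →
      ∀ (n : ℕ) (L : Language (Fin n)), L ∈ F n → L.IsRegular) := by
  intro H
  have hmem : CoPref ∈ Cyl 4 := by
    refine ⟨fun a => [a], ⊤, isRegular_univ, ?_⟩
    ext w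
    change w ∈ CoPref ↔ (w.flatMap fun a => [a]) ∈ CoPref ∧ w ∈ (⊤ : Language (Fin 4))
    have e : (w.flatMap fun a => [a]) = w := by
      induction w with
      | nil => rfl
      | cons a w ih => rw [List.flatMap_cons, ih]; rfl
    rw [e]
    exact ⟨fun h => ⟨h, trivial⟩, fun h => h.1⟩
  refine coPref_not_isRegular (H Cyl ?_ ?_ ?_ 4 CoPref hmem)
  · rintro m n g L ⟨h, R, hR, rfl⟩
    refine ⟨fun a => (g a).flatMap h, _, isRegular_preimage g hR, ?_⟩
    ext w
    change (w.flatMap g).flatMap h ∈ CoPref ∧ w.flatMap g ∈ R ↔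
      (w.flatMap fun a => (g a).flatMap h) ∈ CoPref ∧ w.flatMap g ∈ R
    rw [List.flatMap_assoc]
  · rintro n L R' ⟨h, R, hR, rfl⟩ hR'
    refine ⟨h, R ⊓ R', hR.inf hR', ?_⟩
    ext w
    change (w.flatMap h ∈ CoPref ∧ w ∈ R) ∧ w ∈ R' ↔ w.flatMap h ∈ CoPref ∧ (w ∈ R ∧ w ∈ R')
    tauto
  · rintro n L ⟨h, R, hR, rfl⟩
    refine ⟨isContextFree_inverse_inter h coPref_isContextFree hR, ?_⟩
    exact oneLocallyLinear h R hR

end Pool.Agent.S14700
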