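import Pool.Statements.S14705
import Pool.Agent.MP_5436b5_lc.Words

set_option autoImplicit false
open Pool Pool.MP_5436b5_lc

namespace Pool.Agent.S14705

open Relation Pool.Agent.AM1LA

/-- transfer of runs along maps of states and letters -/
theorem run_map {Q Q' A A' : Type} {eL eR : Q → Finset (Q × Bool)}
    {eU eM : Q → A → Finset (Q × Bool)} {fL fR : Q' → Finset (Q' × Bool)}
    {fU fM : Q' → A' → Finset (Q' × Bool)} (g : Q → Q') (h : A → A')
    (hL : ∀ s s' d, (s', d) ∈ eL s → (g s', d) ∈ fL (g s))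
    (hR : ∀ s s' d, (s', d) ∈ eR s → (g s', d) ∈ fR (g s))
    (hU : ∀ s s' d a, (s', d) ∈ eU s a → (g s', d) ∈ fU (g s) (h a))
    (hM : ∀ s s' d a, (s', d) ∈ eM s a → (g s', d) ∈ fM (g s) (h a))
    (w : List A) {c c' : Q × ℕ × ℕ} (hr : ReflTransGen (run eL eR eU eM w) c c') :
    ReflTransGen (run fL fR fU fM (w.map h)) (g c.1, c.2) (g c'.1, c'.2) := by
  induction hr with
  | refl => exact ReflTransGen.refl
  | tail _ hst ih =>
    refine ih.tail ?_
    rcases hst with ⟨h1, h2, h3, h4⟩ | ⟨h1, h2, h3, h4⟩ | ⟨a, h1, h2, d, h3, h4, h5⟩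
    · exact Or.inl ⟨h1, hL _ _ _ h2, h3, h4⟩
    · exact Or.inr (Or.inl ⟨by simpa using h1, hR _ _ _ h2, by simpa using h3, h4⟩)
    · refine Or.inr (Or.inr ⟨h a, h1, ?_, d, ?_, h4, h5⟩)
      · simp only [List.getElem?_map, h2, Option.map_some]
      · simp only at h3 ⊢
        split at h3
        · rw [if_pos (by assumption)]; exact hM _ _ _ _ h3
        · rw [if_neg (by assumption)]; exact hU _ _ _ _ h3

theorem acc_map {Q Q' A A' : Type} {eL eR : Q → Finset (Q × Bool)}
    {eU eM : Q → A → Finset (Q × Bool)} {fL fR : Q' → Finset (Q' × Bool)}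
    {fU fM : Q' → A' → Finset (Q' × Bool)} {pI : Q} {G : Finset Q} {G' : Finset Q'}
    (g : Q → Q') (h : A → A')
    (hL : ∀ s s' d, (s', d) ∈ eL s → (g s', d) ∈ fL (g s))
    (hR : ∀ s s' d, (s', d) ∈ eR s → (g s', d) ∈ fR (g s))
    (hU : ∀ s s' d a, (s', d) ∈ eU s a → (g s', d) ∈ fU (g s) (h a))
    (hM : ∀ s s' d a, (s', d) ∈ eM s a → (g s', d) ∈ fM (g s) (h a))
    (hG : ∀ s ∈ G, g s ∈ G')
    (w : List A) (ha : acc eL eR eU eM pI G w) :
    acc fL fR fU fM (g pI) G' (w.map h) := by
  obtain ⟨q, i, j, hr, hi, q', hq', hq⟩ := ha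
  refine ⟨g q, i, j, run_map g h hL hR hU hM w hr, by simpa using hi, g q', hG _ hq', hR _ _ _ hq⟩

/-- There is c>0 such that for all large n some n-state always-marking 1-limited automaton has the property that every equivalent deterministic always-marking 1-limited automaton has at least 2^(cn) states. -/
theorem result :
    ∃ c : ℝ, 0 < c ∧ ∃ N : ℕ, ∀ n : ℕ, N ≤ n →
      ∃ k : ℕ,
      ∃ δL : Fin n → Finset (Fin n × Bool),
      ∃ δR : Fin n → Finset (Fin n × Bool),
      ∃ δU : Fin n → Fin k → Finset (Fin n × Bool),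
      ∃ δM : Fin n → Fin k → Finset (Fin n × Bool),
      ∃ qI : Fin n, ∃ F : Finset (Fin n),
      ∀ m : ℕ,
      ∀ eL : Fin m → Finset (Fin m × Bool),
      ∀ eR : Fin m → Finset (Fin m × Bool),
      ∀ eU : Fin m → Fin k → Finset (Fin m × Bool),
      ∀ eM : Fin m → Fin k → Finset (Fin m × Bool),
      ∀ pI : Fin m, ∀ G : Finset (Fin m),
        (∀ p, (eL p).card ≤ 1) → (∀ p, (eR p).card ≤ 1) →
        (∀ p a, (eU p a).card ≤ 1) → (∀ p a, (eM p a).card ≤ 1) →
        (∀ w : List (Fin k),
          (∃ q : Fin n, ∃ i j : ℕ,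
            Relation.ReflTransGen
              (fun x y : Fin n × ℕ × ℕ =>
                (x.2.1 = 0 ∧ (y.1, true) ∈ δL x.1 ∧ y.2.1 = 1 ∧ y.2.2 = x.2.2) ∨
                (x.2.1 = w.length + 1 ∧ (y.1, false) ∈ δR x.1 ∧
                  y.2.1 = w.length ∧ y.2.2 = x.2.2) ∨
                (∃ a : Fin k, 1 ≤ x.2.1 ∧ w[x.2.1 - 1]? = some a ∧
                  ∃ b : Bool,
                    (y.1, b) ∈ (if x.2.1 ≤ x.2.2 then δM x.1 a else δU x.1 a) ∧
                    y.2.1 = (if b then x.2.1 + 1 else x.2.1 - 1) ∧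
                    y.2.2 = max x.2.2 x.2.1))
              (qI, 1, 0) (q, i, j) ∧
            i = w.length + 1 ∧ ∃ q' ∈ F, (q', true) ∈ δR q)
          ↔
          (∃ q : Fin m, ∃ i j : ℕ,
            Relation.ReflTransGen
              (fun x y : Fin m × ℕ × ℕ =>
                (x.2.1 = 0 ∧ (y.1, true) ∈ eL x.1 ∧ y.2.1 = 1 ∧ y.2.2 = x.2.2) ∨
                (x.2.1 = w.length + 1 ∧ (y.1, false) ∈ eR x.1 ∧
                  y.2.1 = w.length ∧ y.2.2 = x.2.2) ∨
                (∃ a : Fin k, 1 ≤ x.2.1 ∧ w[x.2.1 - 1]? = some a ∧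
                  ∃ b : Bool,
                    (y.1, b) ∈ (if x.2.1 ≤ x.2.2 then eM x.1 a else eU x.1 a) ∧
                    y.2.1 = (if b then x.2.1 + 1 else x.2.1 - 1) ∧
                    y.2.2 = max x.2.2 x.2.1))
              (pI, 1, 0) (q, i, j) ∧
            i = w.length + 1 ∧ ∃ q' ∈ G, (q', true) ∈ eR q)) →
        (2 : ℝ) ^ (c * (n : ℝ)) ≤ (m : ℝ) := by
  refine ⟨1 / 12, by norm_num, 22, ?_⟩
  intro n hn
  -- number of bits and number of useless states
  obtain ⟨b, r, hbr, hb⟩ : ∃ b r : ℕ, 3 * b + 3 + r = n ∧ n ≤ 3 * b + 5 :=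
    ⟨(n - 3) / 3, n - (3 * ((n - 3) / 3) + 3), by omega, by omega⟩
  let e : Sta b r ≃ Fin n := (Fintype.equivFin (Sta b r)).trans
    (finCongr (by rw [card_sta]; exact hbr))
  let f : Let b ≃ Fin (Fintype.card (Let b)) := Fintype.equivFin (Let b)
  let e2 : Sta b r × Bool ≃ Fin n × Bool := e.prodCongr (Equiv.refl Bool)
  refine ⟨Fintype.card (Let b), fun s => (mL (e.symm s)).map e2.toEmbedding,
    fun s => (mR (e.symm s)).map e2.toEmbedding,
    fun s a => (mU (e.symm s) (f.symm a)).map e2.toEmbedding,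
    fun s a => (mM (e.symm s) (f.symm a)).map e2.toEmbedding,
    e .st, {e .ok}, ?_⟩
  intro m eL eR eU eM pI G hL hR hU hM heq
  have hmain : ∀ w : List (Let b), acc (mL : Sta b r → _) mR mU mM .st {.ok} w ↔
      acc eL eR (fun p a => eU p (f a)) (fun p a => eM p (f a)) pI G w := by
    intro w
    have h1 : acc (mL : Sta b r → _) mR mU mM .st {.ok} w ↔
        acc (fun s => (mL (e.symm s)).map e2.toEmbedding)
          (fun s => (mR (e.symm s)).map e2.toEmbedding)
          (fun s a => (mU (e.symm s) (f.symm a)).map e2.toEmbedding)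
          (fun s a => (mM (e.symm s) (f.symm a)).map e2.toEmbedding)
          (e .st) {e .ok} (w.map f) := by
      constructor
      · intro h
        refine acc_map e f ?_ ?_ ?_ ?_ ?_ w h
        · intro s s' d hm
          simp only [Equiv.symm_apply_apply, Finset.mem_map_equiv]
          simpa [e2] using hm
        · intro s s' d hm
          simp only [Equiv.symm_apply_apply, Finset.mem_map_equiv]
          simpa [e2] using hm
        · intro s s' d a hm
          simp only [Equiv.symm_apply_apply, Finset.mem_map_equiv]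
          simpa [e2] using hm
        · intro s s' d a hm
          simp only [Equiv.symm_apply_apply, Finset.mem_map_equiv]
          simpa [e2] using hm
        · intro s hs
          simp only [Finset.mem_singleton] at hs ⊢
          rw [hs]
      · intro h
        have := acc_map (fL := (mL : Sta b r → _)) (fR := mR) (fU := mU) (fM := mM)
          (G' := {.ok}) e.symm f.symm ?_ ?_ ?_ ?_ ?_ (w.map f) h
        · simpa using this
        · intro s s' d hm
          rw [Finset.mem_map_equiv] at hm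
          simpa [e2] using hm
        · intro s s' d hm
          rw [Finset.mem_map_equiv] at hm
          simpa [e2] using hm
        · intro s s' d a hm
          rw [Finset.mem_map_equiv] at hm
          simpa [e2] using hm
        · intro s s' d a hm
          rw [Finset.mem_map_equiv] at hm
          simpa [e2] using hm
        · intro s hs
          simp only [Finset.mem_singleton] at hs ⊢
          rw [hs]; simp
    have h2 : acc eL eR (fun p a => eU p (f a)) (fun p a => eM p (f a)) pI G w ↔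
        acc eL eR eU eM pI G (w.map f) := by
      constructor
      · intro h
        exact acc_map id f (fun _ _ _ h => h) (fun _ _ _ h => h) (fun _ _ _ _ h => h)
          (fun _ _ _ _ h => h) (fun _ h => h) w h
      · intro h
        have := acc_map (fL := eL) (fR := eR) (fU := fun p a => eU p (f a))
          (fM := fun p a => eM p (f a)) (G' := G) id f.symm (fun _ _ _ h => h)
          (fun _ _ _ h => h) (fun _ _ _ _ h => by simpa using h)
          (fun _ _ _ _ h => by simpa using h) (fun _ h => h) (w.map f) h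
        simpa using this
    rw [h1, h2]
    exact heq (w.map f)
  have hbound := det_bound (r := r) eL eR (fun p a => eU p (f a)) (eM := fun p a => eM p (f a))
    pI G hL hR (fun p a => hU p (f a)) (fun p a => hM p (f a)) hmain
  rw [Fintype.card_fin] at hbound
  -- arithmetic
  have hreal : (2 : ℝ) ^ (b : ℝ) ≤ (2 * (m : ℝ)) ^ 2 := by
    rw [Real.rpow_natCast]
    exact_mod_cast hbound
  have hexp : ((2 : ℝ) ^ ((1 / 12 : ℝ) * (n : ℝ))) ^ 2 * 4 ≤ (2 : ℝ) ^ (b : ℝ) := by
    have h4 : (4 : ℝ) = (2 : ℝ) ^ (2 : ℝ) := by norm_num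
    rw [h4, ← Real.rpow_natCast, ← Real.rpow_mul (by norm_num), ← Real.rpow_add (by norm_num)]
    apply Real.rpow_le_rpow_of_exponent_le (by norm_num)
    have hn' : (22 : ℝ) ≤ n := by exact_mod_cast hn
    have hb' : (n : ℝ) ≤ 3 * b + 5 := by exact_mod_cast hb
    push_cast
    linarith
  have hm0 : (0 : ℝ) ≤ m := Nat.cast_nonneg m
  have hp0 : (0 : ℝ) ≤ (2 : ℝ) ^ ((1 / 12 : ℝ) * (n : ℝ)) := by positivity
  have hsq : ((2 : ℝ) ^ ((1 / 12 : ℝ) * (n : ℝ))) ^ 2 ≤ (m : ℝ) ^ 2 := by nlinarith
  exact le_of_sq_le_sq hsq hm0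

end Pool.Agent.S14705
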