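import Pool.Statements.S14852
import Pool.Agent.MP_6aa20f_lc.Chain

set_option autoImplicit false
open Pool Pool.MP_6aa20f_lc

namespace Pool.Agent.S14852

/-- The negation of the preceding statement: For every countable M, every proper subgroup of Sym(M) that is closed in the pointwise topology lies in some closed proper subgroup F such that no closed subgroup sits strictly between F and Sym(M). -/
theorem result :
    ¬ (∀ (M : Type) [Countable M] (G : Subgroup (Equiv.Perm M)),
      (∀ σ : Equiv.Perm M,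
        (∀ A : Finset M, ∃ g ∈ G, ∀ a ∈ A, g a = σ a) → σ ∈ G) →
      G ≠ ⊤ →
      ∃ F : Subgroup (Equiv.Perm M),
        (∀ σ : Equiv.Perm M,
          (∀ A : Finset M, ∃ g ∈ F, ∀ a ∈ A, g a = σ a) → σ ∈ F) ∧
        G ≤ F ∧ F ≠ ⊤ ∧
        ∀ F' : Subgroup (Equiv.Perm M),
          (∀ σ : Equiv.Perm M,
            (∀ A : Finset M, ∃ g ∈ F', ∀ a ∈ A, g a = σ a) → σ ∈ F') →
          F ≤ F' → F' = F ∨ F' = ⊤) :=
  Pool.Agent.MP_6aa20f_lc.main

end Pool.Agent.S14852
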