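-- Proof of frozen statement S14880: jumping context-sensitive grammars are as powerful as jumping
-- monotone grammars (a single roaming token carries the last inserted right side).
import Pool.Statements.S14880
import Pool.Agent.MP_708d71_lc.Token

set_option autoImplicit false
open Pool Pool.MP_708d71_lc

namespace Pool.Agent.S14880

/-- The negation of the preceding statement: There is a monotone grammar whose language under jumping derivations (delete a rule's left side anywhere, insert its right side anywhere) is generated by no context-sensitive grammar under jumping derivations. -/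
theorem result :
    ¬ (∃ (T : Type) (_ : Fintype T) (N : Type) (_ : Fintype N) (S : N)
      (P : Finset (List (Symbol T N) × List (Symbol T N))),
      (∀ r ∈ P, (∃ A : N, Symbol.nonterminal A ∈ r.1) ∧ r.1.length ≤ r.2.length) ∧
      ∀ (N' : Type) (_ : Fintype N') (S' : N')
        (P' : Finset (List (Symbol T N') × List (Symbol T N'))),
        (∀ r ∈ P', ∃ (α β γ : List (Symbol T N')) (A : N'), γ ≠ [] ∧
            r.1 = α ++ [Symbol.nonterminal A] ++ β ∧ r.2 = α ++ γ ++ β) →
        {w : List T | Relation.ReflTransGen
            (fun (x y : List (Symbol T N)) => ∃ r ∈ P, ∃ (u v u' v' : List (Symbol T N)),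
              x = u ++ r.1 ++ v ∧ y = u' ++ r.2 ++ v' ∧ u ++ v = u' ++ v')
            [Symbol.nonterminal S] (w.map Symbol.terminal)} ≠
        {w : List T | Relation.ReflTransGen
            (fun (x y : List (Symbol T N')) => ∃ r ∈ P', ∃ (u v u' v' : List (Symbol T N')),
              x = u ++ r.1 ++ v ∧ y = u' ++ r.2 ++ v' ∧ u ++ v = u' ++ v')
            [Symbol.nonterminal S'] (w.map Symbol.terminal)}) := by
  rintro ⟨T, hT, N, hN, S, P, hP, hall⟩
  obtain ⟨N1, hN1, S1, Q, hQf, hQ, hL⟩ :=
    Pool.Agent.MP_708d71_lc.main S (↑P : Set (List (Symbol T N) × List (Symbol T N)))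
      P.finite_toSet (fun r hr => hP r (Finset.mem_coe.mp hr))
  refine hall N1 hN1 S1 hQf.toFinset (fun r hr => hQ r (hQf.mem_toFinset.mp hr)) ?_
  have h1 : {w : List T | Relation.ReflTransGen
            (fun (x y : List (Symbol T N)) => ∃ r ∈ P, ∃ (u v u' v' : List (Symbol T N)),
              x = u ++ r.1 ++ v ∧ y = u' ++ r.2 ++ v' ∧ u ++ v = u' ++ v')
            [Symbol.nonterminal S] (w.map Symbol.terminal)} =
      Pool.Agent.MP_708d71_lc.JLang (↑P : Set (List (Symbol T N) × List (Symbol T N))) S := rfl
  have h2 : {w : List T | Relation.ReflTransGen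
            (fun (x y : List (Symbol T N1)) => ∃ r ∈ hQf.toFinset,
              ∃ (u v u' v' : List (Symbol T N1)),
              x = u ++ r.1 ++ v ∧ y = u' ++ r.2 ++ v' ∧ u ++ v = u' ++ v')
            [Symbol.nonterminal S1] (w.map Symbol.terminal)} =
      Pool.Agent.MP_708d71_lc.JLang Q S1 := by
    have h3 : (fun (x y : List (Symbol T N1)) => ∃ r ∈ hQf.toFinset,
              ∃ (u v u' v' : List (Symbol T N1)),
              x = u ++ r.1 ++ v ∧ y = u' ++ r.2 ++ v' ∧ u ++ v = u' ++ v') =
        Pool.Agent.MP_708d71_lc.JStep Q := by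
      funext x y
      simp only [hQf.mem_toFinset]
      rfl
    rw [h3]
    rfl
  rw [h1, h2, hL]

end Pool.Agent.S14880
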