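import Pool.Statements.S15202
import Pool.Agent.MP_abf483_lc.CaseOne

set_option autoImplicit false
open Pool Pool.MP_abf483_lc

namespace Pool.Agent.S15202

/-- The negation of the preceding statement: Under generic reducibility, defined via enumeration operators acting on partial descriptions correct on a density-one domain, there is a set A above the least degree such that every set reducible to A is either generically computable or equivalent to A. -/
theorem result :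
    ¬ (∀ GD : Set ℕ → Set (ℕ × ℕ) → Prop,
      (∀ (A : Set ℕ) (G : Set (ℕ × ℕ)), GD A G ↔
        ((∀ x y : ℕ, (x, y) ∈ G → ((x ∈ A ∧ y = 1) ∨ (x ∉ A ∧ y = 0))) ∧
          Filter.Tendsto
            (fun n : ℕ => ((({x : ℕ | ∃ y : ℕ, (x, y) ∈ G} ∩ Set.Iio n).ncard : ℝ) / (n : ℝ)))
            Filter.atTop (nhds 1))) →
    ∀ Red : Set ℕ → Set ℕ → Prop,
      (∀ A B : Set ℕ, Red A B ↔
        ∃ W : List (ℕ × ℕ) × (ℕ × ℕ) → Prop, REPred W ∧
          ∀ G : Set (ℕ × ℕ), GD B G →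
            GD A {p : ℕ × ℕ | ∃ l : List (ℕ × ℕ), (∀ q ∈ l, q ∈ G) ∧ W (l, p)}) →
    ∃ A : Set ℕ, ¬ Red A ∅ ∧ ∀ C : Set ℕ, Red C A → (Red C ∅ ∨ Red A C)) := by
  intro H
  have hGD : ∀ (A : Set ℕ) (G : Set (ℕ × ℕ)), Pool.Agent.MP_abf483_lc.Desc A G ↔
      ((∀ x y : ℕ, (x, y) ∈ G → ((x ∈ A ∧ y = 1) ∨ (x ∉ A ∧ y = 0))) ∧
        Filter.Tendsto
          (fun n : ℕ => ((({x : ℕ | ∃ y : ℕ, (x, y) ∈ G} ∩ Set.Iio n).ncard : ℝ) / (n : ℝ)))
          Filter.atTop (nhds 1)) := by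
    intro A G
    rw [Pool.Agent.MP_abf483_lc.tendsto_iff_Z0]
    have h1 : {x : ℕ | ∃ y : ℕ, (x, y) ∈ G}ᶜ = {x | ∀ y, (x, y) ∉ G} := by
      ext x
      simp
    rw [h1]
    exact Iff.rfl
  obtain ⟨A, hA, hmin⟩ := H Pool.Agent.MP_abf483_lc.Desc hGD Pool.Agent.MP_abf483_lc.Red
    (fun A B => Iff.rfl)
  have hnc : ¬ Pool.Agent.MP_abf483_lc.GenComp A := by
    rintro ⟨V, hV, hVA⟩
    apply hA
    refine ⟨fun x => V x.2, Pool.Agent.MP_abf483_lc.re_comp hV Computable.snd, fun G _ => ?_⟩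
    have h2 : Pool.Agent.MP_abf483_lc.opApp (fun x => V x.2) G = {p | V p} := by
      ext p
      exact ⟨fun ⟨_, _, h⟩ => h, fun h => ⟨[], by simp, h⟩⟩
    rw [h2]
    exact hVA
  obtain ⟨C, h1, h2, h3⟩ := Pool.Agent.MP_abf483_lc.final_step hnc
    (Pool.Agent.MP_abf483_lc.bounding hnc)
  rcases hmin C h1 with h | h
  · exact h2 h
  · exact h3 h

end Pool.Agent.S15202
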