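import Pool.Statements.S15534
import Pool.Agent.MP_e5f80e_lc.Final

set_option autoImplicit false
open Pool Pool.MP_e5f80e_lc

namespace Pool.Agent.S15534

/-- The negation of the preceding statement: There is a computable procedure that, for every morphism prolongable on a letter, coding, k ≥ 2 and p ≥ 1, correctly says whether the coded fixed point contains no abelian k-th power whose period is at least p. -/
theorem result :
    ¬ (∃ f : List (List ℕ) × List ℕ × ℕ × ℕ × ℕ → Bool, Computable f ∧
      ∀ (hm : List (List ℕ)) (τ : List ℕ) (a k p : ℕ),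
        (∀ w ∈ hm, ∀ c ∈ w, c < hm.length) →
        τ.length = hm.length →
        a < hm.length →
        2 ≤ k → 1 ≤ p →
        (hm.getD a []).head? = some a →
        2 ≤ (hm.getD a []).length →
        (∀ m : ℕ, (fun w : List ℕ => w.flatMap (fun c => hm.getD c []))^[m]
            (hm.getD a []).tail ≠ []) →
        (f (hm, τ, a, k, p) = true ↔
          ¬ ∃ i ℓ : ℕ, p ≤ ℓ ∧ ∀ j < k, ∀ b : ℕ,
            ((Finset.range ℓ).filter (fun t =>
                τ.getD (((fun w : List ℕ => w.flatMap (fun c => hm.getD c []))^[i + j * ℓ + t + 1]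
                  [a]).getD (i + j * ℓ + t) 0) 0 = b)).card =
            ((Finset.range ℓ).filter (fun t =>
                τ.getD (((fun w : List ℕ => w.flatMap (fun c => hm.getD c []))^[i + t + 1]
                  [a]).getD (i + t) 0) 0 = b)).card)) := by
  rintro ⟨f, hf, hspec⟩
  obtain ⟨k, hk, hred⟩ := Pool.Agent.AbPow.reduction
  obtain ⟨hmF, tF, hh, ht, hall⟩ := hred k le_rfl
  apply Pool.Agent.AbPow.TMsim.univ_undecidable
  have hcomp : Computable (fun n : ℕ => !(f (hmF n, tF n, 0, k, 1))) := by
    apply Primrec.not.to_comp.comp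
    apply hf.comp
    exact (hh.pair (ht.pair ((Primrec.const 0).pair ((Primrec.const k).pair
      (Primrec.const 1))))).to_comp
  refine ComputablePred.computable_iff.2 ⟨_, hcomp, ?_⟩
  funext n
  apply propext
  obtain ⟨h1, h2, h3, h4, h5, h6, h7⟩ := hall n
  have h8 := hspec (hmF n) (tF n) 0 k 1 h1 h2 h3 hk le_rfl h4 h5 h6
  have h9 := h7 1 le_rfl
  rw [Pool.Agent.AbPow.HasPow] at h9
  rw [h9] at h8
  cases hv : f (hmF n, tF n, 0, k, 1)
  · rw [hv] at h8
    simp only [Bool.false_eq_true, false_iff, not_not] at h8
    simp [h8]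
  · rw [hv] at h8
    simp only [true_iff] at h8
    simp [h8]

end Pool.Agent.S15534
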