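import Pool.Statements.S18882
import Pool.Agent.MP_ed6ba5_nt.Dyadic23

set_option autoImplicit false
open Pool Pool.MP_ed6ba5_nt

namespace Pool.Agent.S18882

open Pool.Agent.MP_ed6ba5_nt

/-- The negation of the preceding statement: For any positive initial terms a₀<…<a_{k−1}, if each later term is the least integer above the previous one that is not a sum of two earlier terms with distinct indices, then the gaps a_{n+1}−a_n are eventually periodic. -/
theorem result :
    ¬ (∀ (k : ℕ) (a : ℕ → ℕ), 1 ≤ k → 1 ≤ a 0 → StrictMono a →
      (∀ n, k ≤ n →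
        (¬ ∃ i j, i < j ∧ j < n ∧ a i + a j = a n) ∧
        (∀ m, a (n - 1) < m → m < a n → ∃ i j, i < j ∧ j < n ∧ a i + a j = m)) →
      ∃ p : ℕ, 0 < p ∧ ∃ N : ℕ, ∀ n, N ≤ n →
        a (n + p + 1) - a (n + p) = a (n + 1) - a n) := by
  classical
  intro H
  set a : ℕ → ℕ := Nat.nth inA with ha
  have hmono : StrictMono a := Nat.nth_strictMono infinite_inA
  have hmem : ∀ n, inA (a n) := fun n => Nat.nth_mem_of_infinite infinite_inA n
  have hsurj : ∀ m, inA m → ∃ n, a n = m := by
    intro m hm
    exact ⟨Nat.count inA m, Nat.nth_count hm⟩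
  set K : ℕ := Nat.count inA 3640 with hK
  have hKge : 3640 ≤ a K := Nat.le_nth_count infinite_inA 3640
  obtain ⟨p, hp, N, hN⟩ := H (K + 1) a (by omega)
    (by
      rcases Nat.eq_zero_or_pos (a 0) with h0 | h0
      · exact absurd (h0 ▸ hmem 0) not_inA_zero
      · exact h0)
    hmono
    (by
      intro n hn
      have hlow : 3640 ≤ a (n - 1) := le_trans hKge (hmono.monotone (by omega))
      have hstep : a (n - 1) < a n := hmono (by omega)
      refine ⟨?_, ?_⟩
      · rintro ⟨i, j, hij, -, hs⟩
        exact (greedy (m := a n) (by omega)).mp (hmem n) ⟨a i, a j, hmono hij, hmem i, hmem j, hs⟩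
      · intro m h1 h2
        have hnot : ¬ inA m := by
          intro hm
          obtain ⟨i, rfl⟩ := hsurj m hm
          have h3 := hmono.lt_iff_lt.mp h1
          have h4 := hmono.lt_iff_lt.mp h2
          omega
        have h3 := mt (greedy (m := m) (by omega)).mpr hnot
        rw [not_not] at h3
        obtain ⟨x, y, hxy, hx, hy, hs⟩ := h3
        obtain ⟨i, rfl⟩ := hsurj x hx
        obtain ⟨j, rfl⟩ := hsurj y hy
        exact ⟨i, j, hmono.lt_iff_lt.mp hxy, hmono.lt_iff_lt.mp (by omega), hs⟩)
  -- the sequence is eventually invariant under translation by `D`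
  have hD : ∀ n, N ≤ n → a (n + p) + a N = a n + a (N + p) := by
    intro n hn
    induction n, hn using Nat.le_induction with
    | base => omega
    | succ n hn ih =>
      have h1 := hN n hn
      have h2 : a (n + p) < a (n + p + 1) := hmono (by omega)
      have h3 : a n < a (n + 1) := hmono (by omega)
      rw [show n + 1 + p = n + p + 1 by omega]
      omega
  have hDpos : a N < a (N + p) := hmono (by omega)
  set D : ℕ := a (N + p) - a N with hDdef
  have hstep : ∀ m, inA m → a N ≤ m → inA (m + D) := by
    intro m hm hge
    obtain ⟨n, rfl⟩ := hsurj m hm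
    have hn : N ≤ n := hmono.le_iff_le.mp hge
    have h1 := hD n hn
    have h2 : a n + D = a (n + p) := by omega
    rw [h2]
    exact hmem _
  have hiter : ∀ t m, inA m → a N ≤ m → inA (m + t * D) := by
    intro t
    induction t with
    | zero => intro m hm _; simpa using hm
    | succ t ih =>
      intro m hm hge
      have h1 := hstep _ (ih m hm hge) (by omega)
      rw [show m + (t + 1) * D = m + t * D + D by ring]
      exact h1
  -- choose a late block of the first class
  set k : ℕ := D + a N with hk
  have hSk : k < S k := lt_S k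
  have hSs := S_succ k
  have hx : P1 (8 * S k - 4) := Or.inr ⟨k, by omega, by omega⟩
  set x : ℕ := 8 * S k - 4 with hxdef
  have e1 : (455 * x + 65) % 455 = 65 := by omega
  have e2 : (455 * x + 65) / 455 = x := by omega
  have h1 : inA (455 * x + 65) := by rw [inA_65 e1, e2]; exact hx
  have h2 := hiter 455 (455 * x + 65) h1 (by omega)
  have e3 : (455 * x + 65 + 455 * D) % 455 = 65 := by omega
  have e4 : (455 * x + 65 + 455 * D) / 455 = x + D := by omega
  rw [inA_65 e3, e4] at h2
  exact not_P1_gap (k := k) (x := x + D) (by omega) (by omega) h2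

end Pool.Agent.S18882
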