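-- Proof of the smoothed tail bound for the condition number (absolute constant 430).
-- Helpers: Pool/Agent/MP_7b591b_pr/{Basic,Column,Norm,Final}.lean
import Pool.Statements.S19429
import Pool.Agent.MP_7b591b_pr.Final

set_option autoImplicit false
open MeasureTheory ProbabilityTheory
open Pool Pool.MP_7b591b_pr

namespace Pool.Agent.S19429

open Pool.Agent.CondNum WithLp

/-- unit vector attached to a sign pattern -/
noncomputable def signVec {k : ℕ} (ε : Fin (k + 1) → Bool) : E (k + 1) :=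
  toLp 2 (fun i => (√((k + 1 : ℕ) : ℝ))⁻¹ * sg (ε i))

lemma norm_signVec {k : ℕ} (ε : Fin (k + 1) → Bool) : ‖signVec ε‖ = 1 := by
  have h0 : (0 : ℝ) < √((k + 1 : ℕ) : ℝ) := Real.sqrt_pos.2 (by positivity)
  have h1 : ‖signVec ε‖ ^ 2 = 1 := by
    rw [EuclideanSpace.real_norm_sq_eq]
    have h2 : ∀ i, (signVec ε) i ^ 2 = ((k + 1 : ℕ) : ℝ)⁻¹ := by
      intro i
      have h3 : sg (ε i) ^ 2 = 1 := by unfold sg; split_ifs <;> norm_num
      simp only [signVec]
      rw [mul_pow, h3, mul_one, inv_pow, Real.sq_sqrt (by positivity)]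
    simp_rw [h2]
    simp only [Finset.sum_const, Finset.card_univ, Fintype.card_fin, nsmul_eq_mul]
    exact mul_inv_cancel₀ (by positivity)
  have h4 : 0 ≤ ‖signVec ε‖ := norm_nonneg _
  nlinarith

/-- the isometry attached to a sign pattern -/
noncomputable def iso {k : ℕ} (ε : Fin (k + 1) → Bool) : E (k + 1) ≃ₗᵢ[ℝ] E (k + 1) :=
  (exists_iso (signVec ε) (norm_signVec ε)).choose

lemma iso_spec {k : ℕ} (ε : Fin (k + 1) → Bool) :
    iso ε (EuclideanSpace.single 0 1) = signVec ε :=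
  (exists_iso (signVec ε) (norm_signVec ε)).choose_spec

/-- rotate every row of a matrix -/
noncomputable def rotM {k : ℕ} (L : E (k + 1) ≃ₗᵢ[ℝ] E (k + 1))
    (A : Matrix (Fin (k + 1)) (Fin (k + 1)) ℝ) : Matrix (Fin (k + 1)) (Fin (k + 1)) ℝ :=
  Matrix.of fun i => rot L.symm (A i)

lemma T_rotM {k : ℕ} (L : E (k + 1) ≃ₗᵢ[ℝ] E (k + 1))
    (A : Matrix (Fin (k + 1)) (Fin (k + 1)) ℝ) (y : E (k + 1)) :
    T (rotM L A) y = T A (L y) := by
  apply ofLp_injective
  rw [Matrix.ofLp_toEuclideanCLM, Matrix.ofLp_toEuclideanCLM]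
  ext i
  have h1 : (rotM L A).mulVec (ofLp y) i = inner ℝ y (L.symm (toLp 2 (A i))) := by
    rw [EuclideanSpace.inner_eq_star_dotProduct, star_trivial]
    rfl
  have h2 : A.mulVec (ofLp (L y)) i = inner ℝ (L y) (toLp 2 (A i) : E (k + 1)) := by
    rw [EuclideanSpace.inner_eq_star_dotProduct, star_trivial]
    rfl
  rw [h1, h2, ← L.inner_map_map y (L.symm (toLp 2 (A i))), L.apply_symm_apply]

lemma norm_rotM {k : ℕ} (L : E (k + 1) ≃ₗᵢ[ℝ] E (k + 1))
    (A : Matrix (Fin (k + 1)) (Fin (k + 1)) ℝ) : ‖T (rotM L A)‖ = ‖T A‖ := by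
  apply le_antisymm
  · apply ContinuousLinearMap.opNorm_le_bound _ (norm_nonneg _)
    intro y
    rw [T_rotM]
    exact ((T A).le_opNorm _).trans (by rw [L.norm_map])
  · apply ContinuousLinearMap.opNorm_le_bound _ (norm_nonneg _)
    intro y
    have h := (T (rotM L A)).le_opNorm (L.symm y)
    rw [T_rotM, L.apply_symm_apply, L.symm.norm_map] at h
    exact h

lemma rotM_add_smul {k : ℕ} (L : E (k + 1) ≃ₗᵢ[ℝ] E (k + 1))
    (A : Matrix (Fin (k + 1)) (Fin (k + 1)) ℝ) (σ : ℝ) (G : Fin (k + 1) → Fin (k + 1) → ℝ) :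
    rotM L (A + σ • Matrix.of G) = rotM L A + σ • Matrix.of (fun i => rot L.symm (G i)) := by
  ext i j
  have h : (A + σ • Matrix.of G) i = A i + σ • G i := rfl
  simp only [rotM, Matrix.of_apply, Matrix.add_apply, Matrix.smul_apply]
  rw [h, rot_add, rot_smul]
  rfl

lemma mem_badSet {k : ℕ} (Abar : Matrix (Fin (k + 1)) (Fin (k + 1)) ℝ) (σ x : ℝ)
    (G : Fin (k + 1) → Fin (k + 1) → ℝ) (hx : 0 < x) (z : E (k + 1))
    (hzx : x * ‖T (Abar + σ • Matrix.of G) z‖ ≤ ‖T (Abar + σ • Matrix.of G)‖)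
    (ε : Fin (k + 1) → Bool) (hε : 1 / 2 ≤ |∑ i, z i * sg (ε i)|) :
    (fun i => rot (iso ε).symm (G i)) ∈
      badSet (rotM (iso ε) Abar) σ (2 * √((k + 1 : ℕ) : ℝ) / x) := by
  set s := √((k + 1 : ℕ) : ℝ) with hs
  have hs0 : 0 < s := Real.sqrt_pos.2 (by positivity)
  set L := iso ε with hL
  set A := Abar + σ • Matrix.of G with hA
  have hrot : rotM L Abar + σ • Matrix.of (fun i => rot L.symm (G i)) = rotM L A := by
    rw [hA, rotM_add_smul]
  set B := rotM L A with hB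
  set y : E (k + 1) := L.symm z with hy
  have hy0 : y 0 = s⁻¹ * ∑ i, z i * sg (ε i) := by
    have h1 : y 0 = inner ℝ (EuclideanSpace.single 0 1) y := by
      rw [EuclideanSpace.inner_single_left]; simp
    rw [h1, ← L.inner_map_map, hy, L.apply_symm_apply, hL, iso_spec,
      EuclideanSpace.inner_eq_star_dotProduct, star_trivial, dotProduct, Finset.mul_sum]
    apply Finset.sum_congr rfl
    intro i _
    simp only [signVec]
    ring
  have hy0a : 1 / (2 * s) ≤ |y 0| := by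
    rw [hy0, abs_mul, abs_of_pos (inv_pos.2 hs0)]
    calc 1 / (2 * s) = s⁻¹ * (1 / 2) := by field_simp
      _ ≤ _ := by gcongr
  have hy0p : 0 < |y 0| := lt_of_lt_of_le (by positivity) hy0a
  have hy0n : y 0 ≠ 0 := abs_pos.1 hy0p
  have hTB : T B y = T A z := by rw [hB, T_rotM, hy, L.apply_symm_apply]
  refine ⟨fun j => -(y j.succ / y 0), ?_⟩
  rw [hrot]
  have hvec : (toLp 2 ((fun i => B i 0) - (Matrix.of fun i (j : Fin k) => B i j.succ).mulVec
      (fun j => -(y j.succ / y 0))) : E (k + 1)) = (y 0)⁻¹ • T B y := by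
    apply ofLp_injective
    rw [ofLp_smul, Matrix.ofLp_toEuclideanCLM, split_mulVec B (ofLp y)]
    have h1 : (fun j : Fin k => -(y j.succ / y 0)) = (-(y 0)⁻¹) • (fun j : Fin k => y j.succ) := by
      ext j
      simp only [Pi.smul_apply, smul_eq_mul]
      ring
    rw [h1, Matrix.mulVec_smul, smul_add, smul_smul, inv_mul_cancel₀ hy0n, one_smul]
    simp only [neg_smul, sub_neg_eq_add]
  rw [hvec, norm_smul, norm_inv, Real.norm_eq_abs, hTB]
  have hAB : ‖T A‖ = ‖T B‖ := by rw [hB, norm_rotM]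
  have hpad := norm_le_pad B
  have hinv : |y 0|⁻¹ ≤ 2 * s := by
    rw [inv_le_comm₀ hy0p (by positivity)]
    rwa [one_div] at hy0a
  have hTAz : ‖T A z‖ ≤ ‖T A‖ / x := by
    rw [le_div_iff₀ hx, mul_comm]; exact hzx
  calc |y 0|⁻¹ * ‖T A z‖ ≤ (2 * s) * (‖T A‖ / x) := by gcongr
    _ = 2 * s / x * ‖T A‖ := by ring
    _ < _ := by
      apply mul_lt_mul_of_pos_left _ (by positivity)
      rw [hAB]
      linarith

/-- There is an absolute constant C with this property: for every real n×n matrix Ā of spectral norm ≤ √n, every σ in (0,1] and every x > 0, the probability that Ā+σG (G i.i.d. standard Gaussian) has condition number ≥ x, counting singular as infinite, is at most Cn/(xσ). -/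
theorem result :
    ∃ C : ℝ, 0 < C ∧
      ∀ n : ℕ, 1 ≤ n →
        ∀ Abar : Matrix (Fin n) (Fin n) ℝ,
          ‖Matrix.toEuclideanCLM (𝕜 := ℝ) Abar‖ ≤ Real.sqrt n →
          ∀ σ : ℝ, 0 < σ → σ ≤ 1 →
            ∀ x : ℝ, 0 < x →
              (Measure.pi (fun _ : Fin n =>
                  Measure.pi (fun _ : Fin n => gaussianReal 0 1)))
                {G : Fin n → Fin n → ℝ |
                  (Abar + σ • Matrix.of G).det = 0 ∨
                  x ≤ ‖Matrix.toEuclideanCLM (𝕜 := ℝ) (Abar + σ • Matrix.of G)‖ *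
                      ‖Matrix.toEuclideanCLM (𝕜 := ℝ) (Abar + σ • Matrix.of G)⁻¹‖}
                ≤ ENNReal.ofReal (C * n / (x * σ)) := by
  refine ⟨430, by norm_num, ?_⟩
  intro n hn Abar hAbar σ hσ hσ1 x hx
  obtain ⟨k, rfl⟩ : ∃ k, n = k + 1 := ⟨n - 1, by omega⟩
  set s := √((k + 1 : ℕ) : ℝ) with hs
  have hs0 : 0 < s := Real.sqrt_pos.2 (by positivity)
  have hss : s ^ 2 = ((k + 1 : ℕ) : ℝ) := Real.sq_sqrt (by positivity)
  have hs1 : 1 ≤ s := by
    rw [hs]; apply Real.one_le_sqrt.2; push_cast; linarith [(Nat.cast_nonneg k : (0:ℝ) ≤ k)]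
  by_cases hxs : x < 4 * s
  · -- trivial range
    refine prob_le_one.trans ?_
    rw [← ENNReal.ofReal_one]
    apply ENNReal.ofReal_le_ofReal
    rw [le_div_iff₀ (by positivity), one_mul, ← hss]
    have h1 : x * σ ≤ x * 1 := by gcongr
    nlinarith
  push Not at hxs
  set δ := 2 * s / x with hδ
  have hδ0 : 0 ≤ δ := by positivity
  have hδ2 : δ ≤ 1 / 2 := by
    rw [hδ, div_le_iff₀ hx]; linarith
  -- the test sets
  set Q : (Fin (k + 1) → Bool) → Set (Fin (k + 1) → Fin (k + 1) → ℝ) := fun ε =>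
    (fun G i => rot (iso ε).symm (G i)) ⁻¹' (badSet (rotM (iso ε) Abar) σ δ) with hQ
  have hcont : Continuous (splitM (k := k)) := by
    unfold splitM
    fun_prop
  have hbadm : ∀ M : Matrix (Fin (k + 1)) (Fin (k + 1)) ℝ, MeasurableSet (badSet M σ δ) := by
    intro M
    rw [badSet_eq]
    exact ((isOpen_badSet' M σ δ).preimage hcont).measurableSet
  have hmp : ∀ ε : Fin (k + 1) → Bool,
      MeasurePreserving (fun (G : Fin (k + 1) → Fin (k + 1) → ℝ) i => rot (iso ε).symm (G i))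
        (muM (k + 1)) (muM (k + 1)) := fun ε =>
    measurePreserving_pi _ _ (fun i => rot_mp (iso ε).symm)
  have hQm : ∀ ε, MeasurableSet (Q ε) := fun ε => (hmp ε).measurable (hbadm _)
  have hQle : ∀ ε, muM (k + 1) (Q ε) ≤ ENNReal.ofReal (40 * δ * s / σ) := by
    intro ε
    rw [hQ]
    rw [(hmp ε).measure_preimage (hbadm _).nullMeasurableSet]
    apply badSet_le _ _ _ hσ hσ1 hδ0 hδ2
    rw [norm_rotM]
    exact hAbar
  set f : (Fin (k + 1) → Fin (k + 1) → ℝ) → ENNReal := fun G =>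
    ∑ ε : Fin (k + 1) → Bool, (Q ε).indicator 1 G with hf
  have hfm : Measurable f := by
    apply Finset.measurable_sum
    intro ε _
    exact measurable_one.indicator (hQm ε)
  have hsub : {G : Fin (k + 1) → Fin (k + 1) → ℝ |
      (Abar + σ • Matrix.of G).det = 0 ∨
      x ≤ ‖Matrix.toEuclideanCLM (𝕜 := ℝ) (Abar + σ • Matrix.of G)‖ *
        ‖Matrix.toEuclideanCLM (𝕜 := ℝ) (Abar + σ • Matrix.of G)⁻¹‖} ⊆
      {G | ENNReal.ofReal (3 / 16 * 2 ^ (k + 1)) ≤ f G} := by
    intro G hG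
    obtain ⟨z, hz, hzx⟩ := exists_small_vec hn (Abar + σ • Matrix.of G) hG
    have hz2 : ∑ i, z i ^ 2 = 1 := by
      rw [← EuclideanSpace.real_norm_sq_eq, hz]; norm_num
    have h1 := pz (fun i => z i) hz2
    have h2 : (((Finset.univ.filter (fun ε : Fin (k + 1) → Bool =>
        1 / 2 ≤ |∑ i, z i * sg (ε i)|)).card : ℕ) : ENNReal) ≤ f G := by
      rw [Finset.card_eq_sum_ones, Nat.cast_sum]
      calc ∑ ε ∈ Finset.univ.filter (fun ε : Fin (k + 1) → Bool =>
          1 / 2 ≤ |∑ i, z i * sg (ε i)|), ((1 : ℕ) : ENNReal)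
          ≤ ∑ ε ∈ Finset.univ.filter (fun ε : Fin (k + 1) → Bool =>
          1 / 2 ≤ |∑ i, z i * sg (ε i)|), (Q ε).indicator 1 G := by
            apply Finset.sum_le_sum
            intro ε hε
            have hε' := (Finset.mem_filter.1 hε).2
            have hmem : G ∈ Q ε := mem_badSet Abar σ x G hx z hzx ε hε'
            rw [Set.indicator_of_mem hmem]
            simp
        _ ≤ f G := Finset.sum_le_sum_of_subset (Finset.filter_subset _ _)
    refine le_trans ?_ h2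
    rw [← ENNReal.ofReal_natCast]
    exact ENNReal.ofReal_le_ofReal h1
  have hint : ∫⁻ G, f G ∂(muM (k + 1)) ≤
      ENNReal.ofReal (2 ^ (k + 1) * (40 * δ * s / σ)) := by
    rw [hf]
    rw [lintegral_finsetSum _ (fun ε _ => measurable_one.indicator (hQm ε))]
    calc ∑ ε : Fin (k + 1) → Bool, ∫⁻ G, (Q ε).indicator 1 G ∂(muM (k + 1))
        ≤ ∑ ε : Fin (k + 1) → Bool, ENNReal.ofReal (40 * δ * s / σ) := by
          apply Finset.sum_le_sum
          intro ε _
          rw [lintegral_indicator_one (hQm ε)]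
          exact hQle ε
      _ = ENNReal.ofReal (2 ^ (k + 1) * (40 * δ * s / σ)) := by
          rw [Finset.sum_const, nsmul_eq_mul, ENNReal.ofReal_mul (by positivity)]
          congr 1
          simp
  have hmark := mul_meas_ge_le_lintegral (μ := muM (k + 1)) hfm
    (ENNReal.ofReal (3 / 16 * 2 ^ (k + 1)))
  refine (measure_mono hsub).trans ?_
  have hc0 : ENNReal.ofReal (3 / 16 * 2 ^ (k + 1)) ≠ 0 := by
    rw [Ne, ENNReal.ofReal_eq_zero, not_le]; positivity
  have hfin : muM (k + 1) {G | ENNReal.ofReal (3 / 16 * 2 ^ (k + 1)) ≤ f G} ≤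
      ENNReal.ofReal (2 ^ (k + 1) * (40 * δ * s / σ)) / ENNReal.ofReal (3 / 16 * 2 ^ (k + 1)) := by
    rw [ENNReal.le_div_iff_mul_le (Or.inl hc0) (Or.inl ENNReal.ofReal_ne_top), mul_comm]
    exact hmark.trans hint
  refine hfin.trans ?_
  rw [← ENNReal.ofReal_div_of_pos (by positivity)]
  apply ENNReal.ofReal_le_ofReal
  rw [hδ, ← hss]
  have h2p : (0:ℝ) < 2 ^ (k + 1) := by positivity
  have : 2 ^ (k + 1) * (40 * (2 * s / x) * s / σ) / (3 / 16 * 2 ^ (k + 1)) =
      (1280 / 3) * s ^ 2 / (x * σ) := by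
    field_simp
    ring
  rw [this]
  gcongr
  norm_num

end Pool.Agent.S19429
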