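import Pool.Statements.S19485
import Pool.Agent.MP_9431a4_pr.Greedy
import Pool.Agent.MP_9431a4_pr.Exists

set_option autoImplicit false
open Pool Pool.MP_9431a4_pr

namespace Pool.Agent.S19485

open Pool.Agent.Q2F

/-- the event of the frozen statement, in terms of the final accepted set -/
theorem event_iff {d N : ℕ} (σ : Edge d ≃ Fin N) (lo hi : ℝ) :
    (∃ S : Set {p : (Fin d → Bool) × Fin d // p.1 p.2 = false},
      (∀ e : {p : (Fin d → Bool) × Fin d // p.1 p.2 = false},
        e ∈ S ↔
        ¬ ∃ (x : Fin d → Bool) (i j : Fin d),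
          i ≠ j ∧ x i = false ∧ x j = false ∧
          (e.1 = (x, i) ∨ e.1 = (x, j) ∨
            e.1 = (Function.update x i true, j) ∨
            e.1 = (Function.update x j true, i)) ∧
          ∀ f : {p : (Fin d → Bool) × Fin d // p.1 p.2 = false},
            (f.1 = (x, i) ∨ f.1 = (x, j) ∨
              f.1 = (Function.update x i true, j) ∨
              f.1 = (Function.update x j true, i)) →
            f ≠ e → (f ∈ S ∧ σ f < σ e)) ∧
      lo ≤ (S.ncard : ℝ) ∧ (S.ncard : ℝ) ≤ hi) ↔
    (lo ≤ ((acc (ordl σ)).card : ℝ) ∧ ((acc (ordl σ)).card : ℝ) ≤ hi) := by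
  have key : ∀ S : Set (Edge d), (∀ e : Edge d, e ∈ S ↔
        ¬ ∃ (x : Fin d → Bool) (i j : Fin d),
          i ≠ j ∧ x i = false ∧ x j = false ∧ InF x i j e ∧
          ∀ f : Edge d, InF x i j f → f ≠ e → (f ∈ S ∧ σ f < σ e)) ↔
      S = (↑(acc (ordl σ)) : Set (Edge d)) := by
    intro S
    rw [← Gr_iff]
    unfold Gr
    apply forall_congr'
    intro e
    rw [face_iff e (fun f => f ∈ S ∧ σ f < σ e)]
  constructor
  · rintro ⟨S, h1, h2⟩
    have h3 := (key S).mp h1
    rw [h3, Set.ncard_coe_finset] at h2
    exact h2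
  · intro h
    refine ⟨(↑(acc (ordl σ)) : Set (Edge d)), (key _).mpr rfl, ?_⟩
    rw [Set.ncard_coe_finset]
    exact h

/-- the ratio of the frozen statement is a probability -/
theorem ratio_eq (d : ℕ) (lo hi : ℝ) :
    (Nat.card
      {σ : {p : (Fin d → Bool) × Fin d // p.1 p.2 = false} ≃
            Fin (Nat.card {p : (Fin d → Bool) × Fin d // p.1 p.2 = false}) //
        ∃ S : Set {p : (Fin d → Bool) × Fin d // p.1 p.2 = false},
          (∀ e : {p : (Fin d → Bool) × Fin d // p.1 p.2 = false},
            e ∈ S ↔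
            ¬ ∃ (x : Fin d → Bool) (i j : Fin d),
              i ≠ j ∧ x i = false ∧ x j = false ∧
              (e.1 = (x, i) ∨ e.1 = (x, j) ∨
                e.1 = (Function.update x i true, j) ∨
                e.1 = (Function.update x j true, i)) ∧
              ∀ f : {p : (Fin d → Bool) × Fin d // p.1 p.2 = false},
                (f.1 = (x, i) ∨ f.1 = (x, j) ∨
                  f.1 = (Function.update x i true, j) ∨
                  f.1 = (Function.update x j true, i)) →
                f ≠ e → (f ∈ S ∧ σ f < σ e)) ∧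
          lo ≤ (S.ncard : ℝ) ∧ (S.ncard : ℝ) ≤ hi} : ℝ) /
      (Nat.card
        ({p : (Fin d → Bool) × Fin d // p.1 p.2 = false} ≃
          Fin (Nat.card {p : (Fin d → Bool) × Fin d // p.1 p.2 = false})) : ℝ) =
    Pr (fun ω : List (Edge d) => lo ≤ ((acc ω).card : ℝ) ∧ ((acc ω).card : ℝ) ≤ hi) := by
  rw [Pr_eq_ratio (N := Nat.card (Edge d)) (Nat.card_eq_fintype_card).symm]
  congr 2
  exact Nat.card_congr (Equiv.subtypeEquivRight (fun σ => event_iff σ lo hi))

/-- There are constants c, C > 0 such that, with probability tending to 1 as d grows, the Q_2-free process on the d-cube under a uniformly random edge order ends with between c and C times (log d)^{1/3} d^{2/3} 2^d edges. -/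
theorem result :
    ∃ c C : ℝ, 0 < c ∧ 0 < C ∧
      Filter.Tendsto
        (fun d : ℕ =>
          (Nat.card
              {σ : {p : (Fin d → Bool) × Fin d // p.1 p.2 = false} ≃
                    Fin (Nat.card {p : (Fin d → Bool) × Fin d // p.1 p.2 = false}) //
                ∃ S : Set {p : (Fin d → Bool) × Fin d // p.1 p.2 = false},
                  (∀ e : {p : (Fin d → Bool) × Fin d // p.1 p.2 = false},
                    e ∈ S ↔
                    ¬ ∃ (x : Fin d → Bool) (i j : Fin d),
                      i ≠ j ∧ x i = false ∧ x j = false ∧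
                      (e.1 = (x, i) ∨ e.1 = (x, j) ∨
                        e.1 = (Function.update x i true, j) ∨
                        e.1 = (Function.update x j true, i)) ∧
                      ∀ f : {p : (Fin d → Bool) × Fin d // p.1 p.2 = false},
                        (f.1 = (x, i) ∨ f.1 = (x, j) ∨
                          f.1 = (Function.update x i true, j) ∨
                          f.1 = (Function.update x j true, i)) →
                        f ≠ e → (f ∈ S ∧ σ f < σ e)) ∧
                  c * ((Real.log (d : ℝ)) ^ ((1 : ℝ) / 3) * (d : ℝ) ^ ((2 : ℝ) / 3)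
                        * (2 : ℝ) ^ d) ≤ (S.ncard : ℝ) ∧
                  (S.ncard : ℝ) ≤ C * ((Real.log (d : ℝ)) ^ ((1 : ℝ) / 3)
                        * (d : ℝ) ^ ((2 : ℝ) / 3) * (2 : ℝ) ^ d)} : ℝ) /
          (Nat.card
              ({p : (Fin d → Bool) × Fin d // p.1 p.2 = false} ≃
                Fin (Nat.card {p : (Fin d → Bool) × Fin d // p.1 p.2 = false})) : ℝ))
        Filter.atTop (nhds 1) := by
  refine ⟨1 / (8 * (12000 : ℝ) ^ ((1 : ℝ) / 3)), 2000000 / (12000 : ℝ) ^ ((1 : ℝ) / 3),
    by positivity, by positivity, ?_⟩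
  simp only [ratio_eq]
  have ht : Filter.Tendsto (fun d : ℕ => 1 - Real.exp (-(Real.log d / 12000))) Filter.atTop
      (nhds 1) := by
    have h1 : Filter.Tendsto (fun d : ℕ => Real.log d / 12000) Filter.atTop Filter.atTop :=
      (Real.tendsto_log_atTop.comp tendsto_natCast_atTop_atTop).atTop_div_const (by norm_num)
    have h2 := Real.tendsto_exp_neg_atTop_nhds_zero.comp h1
    have h3 := h2.const_sub (1 : ℝ)
    rw [sub_zero] at h3
    exact h3
  refine tendsto_of_tendsto_of_tendsto_of_le_of_le' ht tendsto_const_nhds ?_ ?_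
  · filter_upwards [eventually_par] with d hd
    obtain ⟨h1, h2, h3⟩ := hd
    have h4 := mkPar_main d _ rfl h1 h2 h3
    rw [Pr_compl] at h4
    linarith
  · filter_upwards with d
    exact Pr_le_one _

end Pool.Agent.S19485
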