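import Pool.Statements.S19659
import Pool.Agent.MP_d30e2b_pr.Final
-- import your own Pool.Agent.* helpers here

set_option autoImplicit false
open Nd90a9f79
open Filter
open scoped Topology
open Pool Pool.MP_d30e2b_pr

namespace Pool.Agent.S19659

/-- For every positive antitone real sequence ε_n → 0, the uniform-profile probability that the number of stable matchings is ≥ ε_n times its expectation tends to 1 as n → ∞. -/
theorem result :
    ∀ (ε : ℕ → ℝ) (hε_pos : ∀ n, 0 < ε n) (hε_antitone : Antitone ε) (hε_tendsto : Tendsto ε atTop (𝓝 0)), Tendsto (fun n ↦ (Nd52b3d98.uniformProfile n).toMeasure {p | (Nd52b3d98.numStableMatchings p : ℝ) ≥ ε n * Nd52b3d98.expectedNumStableMatchings n}) atTop (𝓝 1) := by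
  intro ε hpos _ htend
  exact Pool.Agent.SM.final ε hpos htend

end Pool.Agent.S19659
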