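import Pool.Statements.S19728
import Pool.Agent.MP_ef552a_pr.SheetLaw
import Pool.Agent.MP_ef552a_pr.Final

set_option autoImplicit false
open NNReal ProbabilityTheory MeasureTheory
open Pool Pool.MP_ef552a_pr

namespace Pool.Agent.S19728

/-- The negation of the preceding statement: For d=4 or 5, any continuous centred Gaussian d-dim process on the quadrant with iid coordinates and covariance min(s,s')min(t,t') has a null set off which, for every s>0, the pairs t1≠t2 with B(s,t1)=B(s,t2) form a finite set. -/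
theorem result :
    ¬ (∀ d : ℕ, (d = 4 ∨ d = 5) →
    ∀ (Ω : Type) [MeasurableSpace Ω] (P : Measure Ω) [IsProbabilityMeasure P]
      (B : Ω → ℝ≥0 × ℝ≥0 → Fin d → ℝ),
      (∀ ω, Continuous (B ω)) →
      (∀ (n : ℕ) (c : Fin n → ℝ) (k : Fin n → Fin d) (p : Fin n → ℝ≥0 × ℝ≥0),
        P.map (fun ω => ∑ i, c i * B ω (p i) (k i)) =
          gaussianReal 0
            (∑ i, ∑ j, c i * c j *
              (if k i = k j then
                ((min (p i).1 (p j).1 * min (p i).2 (p j).2 : ℝ≥0) : ℝ)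
               else 0)).toNNReal) →
      ∃ N : Set Ω, P N = 0 ∧ ∀ ω ∉ N, ∀ s : ℝ≥0, 0 < s →
        {q : ℝ≥0 × ℝ≥0 | q.1 ≠ q.2 ∧ B ω (s, q.1) = B ω (s, q.2)}.Finite) := by
  intro h
  have h1 := h 4 (Or.inl rfl) (Pool.Agent.MP_ef552a_pr.Om 4) (Pool.Agent.MP_ef552a_pr.Pm 4)
    Pool.Agent.MP_ef552a_pr.Bs Pool.Agent.MP_ef552a_pr.continuous_Bs
    Pool.Agent.MP_ef552a_pr.law_Bs
  exact Pool.Agent.MP_ef552a_pr.main Pool.Agent.MP_ef552a_pr.continuous_Bs
    Pool.Agent.MP_ef552a_pr.law_Bs h1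

end Pool.Agent.S19728
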